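import Pool.Agent.Lib.MP_b57e3c_ag.ThG

/-! If the graph of `τ` is disconnected then `τ` is decomposable. -/

open Complex

namespace AM

open Classical in
/-- an integer which is equal to the entry, if there is one -/
private noncomputable def decK {g : ℕ} (τ : Matrix (Fin g) (Fin g) ℂ) (i j : Fin g) : ℤ :=
  if h : ∃ k : ℤ, τ i j = k then h.choose else 0

/-- the translation -/
private noncomputable def decB {g : ℕ} (τ : Matrix (Fin g) (Fin g) ℂ) (S : Finset (Fin g)) :
    Matrix (Fin g) (Fin g) ℤ :=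
  fun i j => if i ∈ S ∧ j ∉ S then -decK τ i j else if i ∉ S ∧ j ∈ S then -decK τ j i else 0

private theorem decB_symm {g : ℕ} (τ : Matrix (Fin g) (Fin g) ℂ) (S : Finset (Fin g)) :
    (decB τ S).transpose = decB τ S := by
  ext i j
  rw [Matrix.transpose_apply]
  unfold decB
  by_cases hi : i ∈ S <;> by_cases hj : j ∈ S <;> simp [hi, hj]

private theorem dec_mem {g : ℕ} {B : Matrix (Fin g) (Fin g) ℤ} (hB : B.transpose = B) :
    Matrix.fromBlocks 1 B 0 1 ∈ Matrix.symplecticGroup (Fin g) ℤ := by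
  rw [SymplecticGroup.mem_iff, Matrix.J, Matrix.fromBlocks_transpose, Matrix.fromBlocks_multiply,
    Matrix.fromBlocks_multiply, hB]
  simp

private theorem dec_act {g : ℕ} (B : Matrix (Fin g) (Fin g) ℤ) (τ : Matrix (Fin g) (Fin g) ℂ)
    (i j : Fin g) : act (Matrix.fromBlocks 1 B 0 1) τ i j = τ i j + (B i j : ℂ) := by
  unfold act
  rw [Matrix.toBlocks_fromBlocks₁₁, Matrix.toBlocks_fromBlocks₁₂, Matrix.toBlocks_fromBlocks₂₁,
    Matrix.toBlocks_fromBlocks₂₂, Matrix.map_one _ Int.cast_zero Int.cast_one,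
    Matrix.map_zero _ Int.cast_zero, Matrix.one_mul, Matrix.zero_mul, zero_add, inv_one,
    Matrix.mul_one, Matrix.add_apply, Matrix.map_apply]

theorem conn_of_indec {g : ℕ} {τ : Matrix (Fin g) (Fin g) ℂ} (hτ : Siegel τ) (hh : HalfInt τ)
    (h : ¬ Decomposable τ) : Conn (adj τ) Finset.univ := by
  classical
  intro S _ hS hS'
  by_contra hc
  push Not at hc
  apply h
  have hint : ∀ i ∈ S, ∀ j, j ∉ S → τ i j = (decK τ i j : ℂ) := by
    intro i hi j hj
    have h1 := hc i hi j (Finset.mem_sdiff.mpr ⟨Finset.mem_univ j, hj⟩)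
    have h2 : ∃ k : ℤ, τ i j = k := by
      by_contra h3
      exact h1 (decide_eq_true h3)
    unfold decK
    rw [dif_pos h2]
    exact h2.choose_spec
  have hsym : ∀ i j, τ j i = τ i j := fun i j => hτ.1.apply i j
  refine ⟨Matrix.fromBlocks 1 (decB τ S) 0 1, dec_mem (decB_symm τ S), S, hS, ?_, ?_⟩
  · rw [Finset.compl_eq_univ_sdiff]
    exact hS'
  · intro i hi j hj
    rw [Finset.mem_compl] at hj
    rw [dec_act, dec_act, hsym i j, hint i hi j hj]
    unfold decB
    simp [hi, hj]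

end AM
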