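import Mathlib

/-!
# MP_b57e3c_ag : definitions

Riemann theta function of a period matrix, singular locus of the theta divisor,
its dimension, decomposability; graph polynomials.
-/

open Complex

namespace AM

/-- Riemann's theta function `θ(τ, z) = ∑_{m ∈ ℤ^g} exp(π i mᵗ τ m + 2 π i mᵗ z)`. -/
noncomputable def theta {g : ℕ} (τ : Matrix (Fin g) (Fin g) ℂ) (z : Fin g → ℂ) : ℂ :=
  ∑' m : Fin g → ℤ, cexp (Real.pi * I * (∑ i, ∑ j, (m i : ℂ) * τ i j * (m j : ℂ))
    + 2 * Real.pi * I * ∑ i, (m i : ℂ) * z i)

/-- `τ` lies in the Siegel upper half space. -/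
def Siegel {g : ℕ} (τ : Matrix (Fin g) (Fin g) ℂ) : Prop :=
  τ.IsSymm ∧ (τ.map Complex.im).PosDef

/-- The singular locus of the theta divisor, as a subset of `ℂ^g`
(the preimage of `Sing Θ` in the universal cover of the ppav). -/
def singTheta {g : ℕ} (τ : Matrix (Fin g) (Fin g) ℂ) : Set (Fin g → ℂ) :=
  {z | theta τ z = 0 ∧ HasFDerivAt (theta τ) (0 : (Fin g → ℂ) →L[ℂ] ℂ) z}

/-- An analytic subset `S` of `ℂ^g` has dimension at least `k`: it contains an immersed
`k`-dimensional complex piece. -/
def DimGE {g : ℕ} (k : ℕ) (S : Set (Fin g → ℂ)) : Prop :=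
  ∃ (U : Set (Fin k → ℂ)) (f : (Fin k → ℂ) → (Fin g → ℂ)), IsOpen U ∧ U.Nonempty ∧
    DifferentiableOn ℂ f U ∧ (∀ u ∈ U, Function.Injective (fderiv ℂ f u)) ∧ ∀ u ∈ U, f u ∈ S

/-- The action of an integral `2g × 2g` matrix with blocks `A B C D` on period matrices:
`(A τ + B) (C τ + D)⁻¹`. -/
noncomputable def act {g : ℕ} (M : Matrix (Fin g ⊕ Fin g) (Fin g ⊕ Fin g) ℤ)
    (τ : Matrix (Fin g) (Fin g) ℂ) : Matrix (Fin g) (Fin g) ℂ :=
  (M.toBlocks₁₁.map (Int.cast : ℤ → ℂ) * τ + M.toBlocks₁₂.map (Int.cast : ℤ → ℂ)) *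
    (M.toBlocks₂₁.map (Int.cast : ℤ → ℂ) * τ + M.toBlocks₂₂.map (Int.cast : ℤ → ℂ))⁻¹

/-- The ppav of `τ` is a product of two ppavs of positive dimension: some `Sp(2g, ℤ)`-translate of
`τ` is block diagonal (for some partition of the indices in two nonempty sets). -/
def Decomposable {g : ℕ} (τ : Matrix (Fin g) (Fin g) ℂ) : Prop :=
  ∃ M ∈ Matrix.symplecticGroup (Fin g) ℤ, ∃ S : Finset (Fin g), S.Nonempty ∧ Sᶜ.Nonempty ∧
    ∀ i ∈ S, ∀ j ∈ Sᶜ, act M τ i j = 0 ∧ act M τ j i = 0

/-- All off-diagonal entries are half-integers (integers allowed). -/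
def HalfInt {g : ℕ} (τ : Matrix (Fin g) (Fin g) ℂ) : Prop :=
  ∀ i j, i ≠ j → ∃ k : ℤ, 2 * τ i j = k

/-! ## the two elliptic theta functions of order two -/

/-- `∑_{n even} exp(π i t n² + 2 π i n z)` -/
noncomputable def s0 (t z : ℂ) : ℂ := jacobiTheta₂ (2 * z) (4 * t)

/-- `∑_{n odd} exp(π i t n² + 2 π i n z)` -/
noncomputable def s1 (t z : ℂ) : ℂ :=
  cexp (Real.pi * I * t + 2 * Real.pi * I * z) * jacobiTheta₂ (2 * z + 2 * t) (4 * t)

/-- their Wronskian -/
noncomputable def wr (t z : ℂ) : ℂ := s0 t z * deriv (s1 t) z - s1 t z * deriv (s0 t) z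

/-- The vector `r` is not an eigenvector of a Pauli matrix. -/
def NonOct (r : ℂ × ℂ) : Prop :=
  r.1 ≠ 0 ∧ r.2 ≠ 0 ∧ r.1 ^ 2 ≠ r.2 ^ 2 ∧ r.1 ^ 2 ≠ - r.2 ^ 2

/-! ## graph polynomials -/

section graph

variable {α : Type*} [LinearOrder α]

/-- sign of a set of vertices: `(-1)^(number of edges inside X)` -/
def sgn (A : α → α → Bool) (X : Finset α) : ℂ :=
  ∏ i ∈ X, ∏ j ∈ X, if i < j ∧ A i j = true then (-1 : ℂ) else 1

/-- graph polynomial (multilinear form of the graph state) on the vertex set `V` -/
def Phi (V : Finset α) (A : α → α → Bool) (p : α → ℂ × ℂ) : ℂ :=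
  ∑ X ∈ V.powerset, sgn A X * ((∏ i ∈ X, (p i).2) * ∏ i ∈ V \ X, (p i).1)

/-- flip the sign of the second coordinate at the neighbours of `v` -/
def flip (A : α → α → Bool) (v : α) (p : α → ℂ × ℂ) : α → ℂ × ℂ :=
  fun j => ((p j).1, (if A v j = true then -(p j).2 else (p j).2))

/-- scale the second coordinates -/
def scl (κ : α → ℂ) (p : α → ℂ × ℂ) : α → ℂ × ℂ :=
  fun j => ((p j).1, κ j * (p j).2)

/-- local complementation at `v` (only used off the diagonal and off `v`) -/
def lc (A : α → α → Bool) (v : α) : α → α → Bool :=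
  fun i j => xor (A i j) (A v i && A v j)

/-- symmetric adjacency -/
def Sym (A : α → α → Bool) : Prop := ∀ i j, A i j = A j i

/-- the graph on `V` is connected: every cut is crossed by an edge -/
def Conn (A : α → α → Bool) (V : Finset α) : Prop :=
  ∀ S ⊆ V, S.Nonempty → (V \ S).Nonempty → ∃ i ∈ S, ∃ j ∈ V \ S, A i j = true

end graph

/-- Cayley's hyperdeterminant of a `2 × 2 × 2` tensor -/
def hdet (T : Bool → Bool → Bool → ℂ) : ℂ :=
  T false false false ^ 2 * T true true true ^ 2 + T false false true ^ 2 * T true true false ^ 2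
  + T false true false ^ 2 * T true false true ^ 2 + T true false false ^ 2 * T false true true ^ 2
  - 2 * (T false false false * T false false true * T true true false * T true true true
    + T false false false * T false true false * T true false true * T true true true
    + T false false false * T true false false * T false true true * T true true true
    + T false false true * T false true false * T true false true * T true true false
    + T false false true * T true false false * T false true true * T true true false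
    + T false true false * T true false false * T false true true * T true false true)
  + 4 * (T false false false * T false true true * T true false true * T true true false
    + T false false true * T false true false * T true false false * T true true true)

/-- basis vectors of `ℂ²` -/
def ev (b : Bool) : ℂ × ℂ := if b then (0, 1) else (1, 0)

end AM
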