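import Pool.Agent.Lib.MP_b57e3c_ag.Defs

/-! Elementary properties of the graph polynomials. -/

open Complex

namespace AM

variable {α : Type*} [LinearOrder α]

theorem Phi_congr {V : Finset α} {A : α → α → Bool} {p q : α → ℂ × ℂ} (h : ∀ i ∈ V, p i = q i) :
    Phi V A p = Phi V A q := by
  unfold Phi
  refine Finset.sum_congr rfl fun X hX => ?_
  have hX' := Finset.mem_powerset.1 hX
  have h1 : ∏ i ∈ X, (p i).2 = ∏ i ∈ X, (q i).2 :=
    Finset.prod_congr rfl fun i hi => by rw [h i (hX' hi)]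
  have h2 : ∏ i ∈ V \ X, (p i).1 = ∏ i ∈ V \ X, (q i).1 :=
    Finset.prod_congr rfl fun i hi => by rw [h i (Finset.mem_sdiff.1 hi).1]
  rw [h1, h2]

theorem Phi_empty (A : α → α → Bool) (p : α → ℂ × ℂ) : Phi ∅ A p = 1 := by
  simp [Phi, sgn]

private theorem sgn_insert {X : Finset α} {v : α} (hv : v ∉ X) {A : α → α → Bool} (hA : Sym A) :
    sgn A (insert v X) = sgn A X * ∏ j ∈ X, (if A v j = true then (-1 : ℂ) else 1) := by
  unfold sgn
  rw [Finset.prod_insert hv, Finset.prod_insert hv]
  have h0 : (if v < v ∧ A v v = true then (-1 : ℂ) else 1) = 1 := by simp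
  rw [h0, one_mul]
  have h1 : ∏ i ∈ X, ∏ j ∈ insert v X, (if i < j ∧ A i j = true then (-1 : ℂ) else 1) =
      (∏ i ∈ X, (if i < v ∧ A i v = true then (-1 : ℂ) else 1)) *
        ∏ i ∈ X, ∏ j ∈ X, (if i < j ∧ A i j = true then (-1 : ℂ) else 1) := by
    rw [← Finset.prod_mul_distrib]
    exact Finset.prod_congr rfl fun i _ => Finset.prod_insert hv
  rw [h1, ← mul_assoc, ← Finset.prod_mul_distrib, mul_comm]
  congr 1
  refine Finset.prod_congr rfl fun j hj => ?_
  have hne : v ≠ j := fun h => hv (h ▸ hj)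
  rw [hA j v]
  rcases lt_or_gt_of_ne hne with h | h
  · simp [h, not_lt_of_gt h]
  · simp [h, not_lt_of_gt h]

/-- expansion along the vertex `v` -/
theorem Phi_insert {V : Finset α} {v : α} (hv : v ∉ V) {A : α → α → Bool} (hA : Sym A)
    (p : α → ℂ × ℂ) :
    Phi (insert v V) A p = (p v).1 * Phi V A p + (p v).2 * Phi V A (flip A v p) := by
  unfold Phi
  rw [Finset.sum_powerset_insert hv, Finset.mul_sum, Finset.mul_sum]
  congr 1
  · refine Finset.sum_congr rfl fun X hX => ?_
    have hX' := Finset.mem_powerset.1 hX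
    have hvX : v ∉ X := fun h => hv (hX' h)
    have h1 : (insert v V) \ X = insert v (V \ X) := Finset.insert_sdiff_of_notMem V hvX
    have h2 : v ∉ V \ X := fun h => hv (Finset.mem_sdiff.1 h).1
    rw [h1, Finset.prod_insert h2]
    ring
  · refine Finset.sum_congr rfl fun X hX => ?_
    have hX' := Finset.mem_powerset.1 hX
    have hvX : v ∉ X := fun h => hv (hX' h)
    have h1 : (insert v V) \ (insert v X) = V \ X := by
      ext i
      simp only [Finset.mem_sdiff, Finset.mem_insert, not_or]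
      constructor
      · rintro ⟨h1, h2, h3⟩
        exact ⟨h1.resolve_left h2, h3⟩
      · rintro ⟨h1, h2⟩
        exact ⟨Or.inr h1, fun h => hv (h ▸ h1), h2⟩
    have h2 : ∏ i ∈ X, (flip A v p i).2 =
        (∏ j ∈ X, (if A v j = true then (-1 : ℂ) else 1)) * ∏ i ∈ X, (p i).2 := by
      rw [← Finset.prod_mul_distrib]
      refine Finset.prod_congr rfl fun i _ => ?_
      simp only [flip]
      split_ifs <;> ring
    have h3 : ∏ i ∈ V \ X, (flip A v p i).1 = ∏ i ∈ V \ X, (p i).1 := rfl
    rw [h1, h2, h3, sgn_insert hvX hA, Finset.prod_insert hvX]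
    ring

/-- linearity in one slot -/
theorem Phi_lin {V : Finset α} {v : α} (hv : v ∈ V) (A : α → α → Bool)
    (p : α → ℂ × ℂ) (x y : ℂ) :
    Phi V A (Function.update p v (x, y)) =
      x * Phi V A (Function.update p v (ev false)) +
        y * Phi V A (Function.update p v (ev true)) := by
  unfold Phi
  rw [Finset.mul_sum, Finset.mul_sum, ← Finset.sum_add_distrib]
  refine Finset.sum_congr rfl fun X _ => ?_
  have hcon2 : ∀ (z : ℂ × ℂ) (Y : Finset α), v ∉ Y →
      ∏ i ∈ Y, (Function.update p v z i).2 = ∏ i ∈ Y, (p i).2 := by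
    intro z Y hY
    refine Finset.prod_congr rfl fun i hi => ?_
    rw [Function.update_of_ne (fun h : i = v => hY (h ▸ hi))]
  have hcon1 : ∀ (z : ℂ × ℂ) (Y : Finset α), v ∉ Y →
      ∏ i ∈ Y, (Function.update p v z i).1 = ∏ i ∈ Y, (p i).1 := by
    intro z Y hY
    refine Finset.prod_congr rfl fun i hi => ?_
    rw [Function.update_of_ne (fun h : i = v => hY (h ▸ hi))]
  by_cases hX : v ∈ X
  · have h1 : v ∉ V \ X := fun h => (Finset.mem_sdiff.1 h).2 hX
    have h2 : ∀ z : ℂ × ℂ, ∏ i ∈ X, (Function.update p v z i).2 =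
        z.2 * ∏ i ∈ X.erase v, (p i).2 := by
      intro z
      rw [← Finset.mul_prod_erase X _ hX, Function.update_self,
        hcon2 z _ (Finset.notMem_erase v X)]
    rw [h2, h2, h2, hcon1 _ _ h1, hcon1 _ _ h1, hcon1 _ _ h1]
    simp [ev]
    ring
  · have h1 : v ∈ V \ X := Finset.mem_sdiff.2 ⟨hv, hX⟩
    have h2 : ∀ z : ℂ × ℂ, ∏ i ∈ V \ X, (Function.update p v z i).1 =
        z.1 * ∏ i ∈ (V \ X).erase v, (p i).1 := by
      intro z
      rw [← Finset.mul_prod_erase (V \ X) _ h1, Function.update_self,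
        hcon1 z _ (Finset.notMem_erase v _)]
    rw [h2, h2, h2, hcon2 _ _ hX, hcon2 _ _ hX, hcon2 _ _ hX]
    simp [ev]
    ring

private theorem diff_prod_aux {E : Type*} [NormedAddCommGroup E] [NormedSpace ℂ E]
    (V : Finset α) (f : α → E → ℂ) (h : ∀ i ∈ V, Differentiable ℂ (f i)) :
    Differentiable ℂ (fun x => ∏ i ∈ V, f i x) := by
  induction V using Finset.induction_on with
  | empty => simp
  | insert a s ha ih =>
    have h1 : (fun x => ∏ i ∈ insert a s, f i x) = fun x => f a x * ∏ i ∈ s, f i x := by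
      funext x
      rw [Finset.prod_insert ha]
    rw [h1]
    exact (h a (Finset.mem_insert_self a s)).mul
      (ih fun i hi => h i (Finset.mem_insert_of_mem hi))

/-- differentiability in parameters -/
theorem differentiable_Phi {E : Type*} [NormedAddCommGroup E] [NormedSpace ℂ E]
    (V : Finset α) (A : α → α → Bool) {p : E → α → ℂ × ℂ}
    (h0 : ∀ i ∈ V, Differentiable ℂ (fun x => (p x i).1))
    (h1 : ∀ i ∈ V, Differentiable ℂ (fun x => (p x i).2)) :
    Differentiable ℂ (fun x => Phi V A (p x)) := by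
  unfold Phi
  refine Differentiable.fun_sum fun X hX => ?_
  have hX' := Finset.mem_powerset.1 hX
  refine (differentiable_const _).mul (Differentiable.mul ?_ ?_)
  · exact diff_prod_aux X (fun i x => (p x i).2) fun i hi => h1 i (hX' hi)
  · exact diff_prod_aux (V \ X) (fun i x => (p x i).1)
      fun i hi => h0 i (Finset.mem_sdiff.1 hi).1

end AM
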