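import Pool.Agent.Lib.MP_b57e3c_ag.Defs

/-! Local complementation. -/

open Complex

namespace AM

variable {α : Type*} [LinearOrder α]

private noncomputable def lcT (A : α → α → Bool) (v : α) (X : Finset α) : ℂ :=
  ∏ i ∈ X, ∏ j ∈ X, if i < j ∧ (A v i && A v j) = true then (-1 : ℂ) else 1

private noncomputable def lcC (A : α → α → Bool) (v : α) (X : Finset α) : ℂ :=
  ∏ i ∈ X, if A v i = true then (-1 : ℂ) else 1

private noncomputable def lcS (A : α → α → Bool) (v : α) (ε : ℂ) (X : Finset α) : ℂ :=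
  ∏ i ∈ X, if A v i = true then -ε else 1

private theorem sgn_lc (A : α → α → Bool) (v : α) (X : Finset α) :
    sgn (lc A v) X = sgn A X * lcT A v X := by
  unfold sgn lcT
  rw [← Finset.prod_mul_distrib]
  refine Finset.prod_congr rfl fun i _ => ?_
  rw [← Finset.prod_mul_distrib]
  refine Finset.prod_congr rfl fun j _ => ?_
  unfold lc
  by_cases h : i < j <;> cases A i j <;> cases A v i <;> cases A v j <;> simp [h]

private theorem lcT_insert (A : α → α → Bool) (v : α) {a : α} {X : Finset α}
    (ha : ∀ x ∈ X, x < a) :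
    lcT A v (insert a X) = lcT A v X * if A v a = true then lcC A v X else 1 := by
  have hna : a ∉ X := fun h => lt_irrefl a (ha a h)
  unfold lcT lcC
  rw [Finset.prod_insert hna, Finset.prod_insert hna]
  have h1 : (∏ j ∈ X, if a < j ∧ (A v a && A v j) = true then (-1 : ℂ) else 1) = 1 :=
    Finset.prod_eq_one fun j hj => by
      rw [if_neg]
      rintro ⟨h, -⟩
      exact lt_asymm h (ha j hj)
  rw [h1]
  have h2 : ∀ i ∈ X, (∏ j ∈ insert a X, if i < j ∧ (A v i && A v j) = true then (-1 : ℂ) else 1)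
      = (if i < a ∧ (A v i && A v a) = true then (-1 : ℂ) else 1) *
        ∏ j ∈ X, if i < j ∧ (A v i && A v j) = true then (-1 : ℂ) else 1 := fun i _ => by
    rw [Finset.prod_insert hna]
  rw [Finset.prod_congr rfl h2, Finset.prod_mul_distrib]
  have h3 : (∏ i ∈ X, if i < a ∧ (A v i && A v a) = true then (-1 : ℂ) else 1) =
      if A v a = true then ∏ i ∈ X, (if A v i = true then (-1 : ℂ) else 1) else 1 := by
    by_cases h : A v a = true
    · rw [if_pos h]
      refine Finset.prod_congr rfl fun i hi => ?_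
      simp [ha i hi, h]
    · rw [if_neg h]
      refine Finset.prod_eq_one fun i _ => ?_
      simp [h]
  rw [h3]
  simp [mul_comm]

private theorem lc_key (A : α → α → Bool) (v : α) {ε : ℂ} (hε : ε ^ 2 = -1) (X : Finset α) :
    (lcC A v X = 1 ∧ lcS A v ε X * lcT A v X = 1) ∨
      (lcC A v X = -1 ∧ lcS A v ε X * lcT A v X = -ε) := by
  induction X using Finset.induction_on_max with
  | empty => left; simp [lcC, lcS, lcT]
  | insert a X ha ih =>
    have hna : a ∉ X := fun h => lt_irrefl a (ha a h)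
    have hC : lcC A v (insert a X) = (if A v a = true then (-1 : ℂ) else 1) * lcC A v X := by
      unfold lcC
      rw [Finset.prod_insert hna]
    have hS : lcS A v ε (insert a X) = (if A v a = true then -ε else 1) * lcS A v ε X := by
      unfold lcS
      rw [Finset.prod_insert hna]
    rw [hC, hS, lcT_insert A v ha]
    by_cases h : A v a = true
    · simp only [if_pos h]
      rcases ih with ⟨h1, h2⟩ | ⟨h1, h2⟩
      · right
        refine ⟨by rw [h1]; ring, ?_⟩
        rw [h1]
        linear_combination (-ε) * h2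
      · left
        refine ⟨by rw [h1]; ring, ?_⟩
        rw [h1]
        linear_combination ε * h2 - hε
    · simp only [if_neg h, one_mul, mul_one]
      exact ih

theorem Phi_lc {V : Finset α} {v : α} {A : α → α → Bool} (hA : Sym A)
    {ε : ℂ} (hε : ε ^ 2 = -1) (p : α → ℂ × ℂ) :
    Phi V A p + ε * Phi V A (flip A v p) =
      (1 + ε) * Phi V (lc A v) (scl (fun j => if A v j = true then -ε else 1) p) := by
  unfold Phi
  rw [Finset.mul_sum, Finset.mul_sum, ← Finset.sum_add_distrib]
  refine Finset.sum_congr rfl fun X _ => ?_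
  have h1 : (∏ i ∈ X, (flip A v p i).2) = lcC A v X * ∏ i ∈ X, (p i).2 := by
    unfold lcC
    rw [← Finset.prod_mul_distrib]
    refine Finset.prod_congr rfl fun i _ => ?_
    by_cases h : A v i = true <;> simp [flip, h]
  have h2 : (∏ i ∈ X, (scl (fun j => if A v j = true then -ε else 1) p i).2) =
      lcS A v ε X * ∏ i ∈ X, (p i).2 := by
    unfold lcS
    rw [← Finset.prod_mul_distrib]
    rfl
  have h3 : (∏ i ∈ V \ X, (flip A v p i).1) = ∏ i ∈ V \ X, (p i).1 := rfl
  have h4 : (∏ i ∈ V \ X, (scl (fun j => if A v j = true then -ε else 1) p i).1) =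
      ∏ i ∈ V \ X, (p i).1 := rfl
  rw [h1, h2, h3, h4, sgn_lc]
  rcases lc_key A v hε X with ⟨k1, k2⟩ | ⟨k1, k2⟩
  · rw [k1]
    linear_combination (-(1 + ε) * sgn A X * (∏ i ∈ X, (p i).2) * ∏ i ∈ V \ X, (p i).1) * k2
  · rw [k1]
    linear_combination (-(1 + ε) * sgn A X * (∏ i ∈ X, (p i).2) * ∏ i ∈ V \ X, (p i).1) * k2 +
      (sgn A X * (∏ i ∈ X, (p i).2) * ∏ i ∈ V \ X, (p i).1) * hε

end AM
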