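import Pool.Agent.Lib.MP_b57e3c_ag.Defs

/-! Connectivity and vertex removal. -/

namespace AM

variable {α : Type*} [LinearOrder α]

theorem sym_lc {A : α → α → Bool} (hA : Sym A) (v : α) : Sym (lc A v) := by
  intro i j
  simp only [lc]
  rw [hA i j, Bool.and_comm]

/-- removing a vertex, directly or after a local complementation, keeps the graph connected -/
theorem conn_or {A : α → α → Bool} (hA : Sym A) {V : Finset α} {v : α} (hv : v ∉ V)
    (hc : Conn A (insert v V)) : Conn A V ∨ Conn (lc A v) V := by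
  by_contra hcon
  rw [not_or] at hcon
  obtain ⟨h1, h2⟩ := hcon
  unfold Conn at h1 h2
  push Not at h1 h2
  obtain ⟨S, hSV, hSn, hSc, hS⟩ := h1
  obtain ⟨S', hSV', hSn', hSc', hS'⟩ := h2
  have hsub : ∀ W : Finset α, W ⊆ V → W ⊆ insert v V := fun W hW =>
    hW.trans (Finset.subset_insert v V)
  have hne : ∀ W : Finset α, W ⊆ V → (insert v V \ W).Nonempty := fun W hW =>
    ⟨v, Finset.mem_sdiff.2 ⟨Finset.mem_insert_self v V, fun h => hv (hW h)⟩⟩
  -- neighbours of `v` on both sides of `S`
  obtain ⟨a, haS, hva⟩ : ∃ a ∈ S, A v a = true := by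
    obtain ⟨i, hi, j, hj, hij⟩ := hc S (hsub S hSV) hSn (hne S hSV)
    rw [Finset.mem_sdiff, Finset.mem_insert] at hj
    rcases hj.1 with rfl | hjV
    · exact ⟨i, hi, by rw [hA]; exact hij⟩
    · exact absurd hij (hS i hi j (Finset.mem_sdiff.2 ⟨hjV, hj.2⟩))
  obtain ⟨b, hbS, hvb⟩ : ∃ b ∈ V \ S, A v b = true := by
    obtain ⟨i, hi, j, hj, hij⟩ := hc (V \ S) (hsub _ Finset.sdiff_subset) hSc
      (hne _ Finset.sdiff_subset)
    rw [Finset.mem_sdiff, Finset.mem_insert] at hj
    rcases hj.1 with rfl | hjV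
    · exact ⟨i, hi, by rw [hA]; exact hij⟩
    · have hjS : j ∈ S := by
        by_contra hjn
        exact hj.2 (Finset.mem_sdiff.2 ⟨hjV, hjn⟩)
      exact absurd (by rw [hA]; exact hij) (hS j hjS i hi)
  -- adjacent in `lc`
  have key : ∀ i ∈ S, ∀ j ∈ V \ S, A v i = true → A v j = true → (i ∈ S' ↔ j ∈ S') := by
    intro i hi j hj hvi hvj
    have hA0 : A i j = false := by
      have := hS i hi j hj
      simpa using this
    have hlc : lc A v i j = true := by
      simp [lc, hA0, hvi, hvj]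
    have hjV := (Finset.mem_sdiff.1 hj).1
    constructor
    · intro hiS'
      by_contra hjn
      exact hS' i hiS' j (Finset.mem_sdiff.2 ⟨hjV, hjn⟩) hlc
    · intro hjS'
      by_contra hin
      exact hS' j hjS' i (Finset.mem_sdiff.2 ⟨hSV hi, hin⟩) (by rw [sym_lc hA v]; exact hlc)
  have all : ∀ x ∈ V, A v x = true → (x ∈ S' ↔ a ∈ S') := by
    intro x hx hvx
    by_cases hxS : x ∈ S
    · exact (key x hxS b hbS hvx hvb).trans (key a haS b hbS hva hvb).symm
    · exact (key a haS x (Finset.mem_sdiff.2 ⟨hx, hxS⟩) hva hvx).symm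
  by_cases haS' : a ∈ S'
  · obtain ⟨t, ht, j, hj, htj⟩ := hc (V \ S') (hsub _ Finset.sdiff_subset) hSc'
      (hne _ Finset.sdiff_subset)
    have ht' := Finset.mem_sdiff.1 ht
    have hvt : A v t = false := by
      by_contra hvt
      exact ht'.2 ((all t ht'.1 (by simpa using hvt)).2 haS')
    rw [Finset.mem_sdiff, Finset.mem_insert] at hj
    rcases hj.1 with rfl | hjV
    · rw [hA, hvt] at htj
      exact absurd htj (by simp)
    · have hjS : j ∈ S' := by
        by_contra hjn
        exact hj.2 (Finset.mem_sdiff.2 ⟨hjV, hjn⟩)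
      have hjt : A j t = true := by rw [hA]; exact htj
      exact hS' j hjS t ht (by simp [lc, hvt, hjt])
  · obtain ⟨t, ht, j, hj, htj⟩ := hc S' (hsub S' hSV') hSn' (hne S' hSV')
    have hvt : A v t = false := by
      by_contra hvt
      exact haS' ((all t (hSV' ht) (by simpa using hvt)).1 ht)
    rw [Finset.mem_sdiff, Finset.mem_insert] at hj
    rcases hj.1 with rfl | hjV
    · rw [hA, hvt] at htj
      exact absurd htj (by simp)
    · exact hS' t ht j (Finset.mem_sdiff.2 ⟨hjV, hj.2⟩) (by simp [lc, hvt, htj])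

end AM
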