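import Pool.Agent.Lib.MP_b57e3c_ag.GrA
import Pool.Agent.Lib.MP_b57e3c_ag.GrB
import Pool.Agent.Lib.MP_b57e3c_ag.GrC

/-! Reduction of a connected graph to a connected graph on a given subset by octahedral
measurements. -/

open Complex

namespace AM

variable {α : Type*} [LinearOrder α]

private theorem scl_scl (μ κ : α → ℂ) (p : α → ℂ × ℂ) :
    scl μ (scl κ p) = scl (fun j => μ j * κ j) p := by
  funext j
  simp [scl, mul_assoc]

private theorem fourth_root {z : ℂ} (h : z ^ 4 = 1) : z = 1 ∨ z = -1 ∨ z = I ∨ z = -I := by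
  have h1 : (z - 1) * ((z + 1) * ((z - I) * (z + I))) = 0 := by
    have hI : I ^ 2 = -1 := I_sq
    linear_combination h + (1 - z ^ 2) * hI
  rcases mul_eq_zero.1 h1 with h2 | h2
  · exact Or.inl (sub_eq_zero.1 h2)
  rcases mul_eq_zero.1 h2 with h3 | h3
  · exact Or.inr (Or.inl (eq_neg_of_add_eq_zero_left h3))
  rcases mul_eq_zero.1 h3 with h4 | h4
  · exact Or.inr (Or.inr (Or.inl (sub_eq_zero.1 h4)))
  · exact Or.inr (Or.inr (Or.inr (eq_neg_of_add_eq_zero_left h4)))

private theorem reduce_aux {U : Finset α} (W : Finset α) :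
    Disjoint U W → ∀ (A : α → α → Bool) (κ : α → ℂ), Sym A → Conn A (U ∪ W) →
      (∀ i, κ i ^ 4 = 1) →
    ∃ (ρ : α → ℂ) (A' : α → α → Bool) (κ' : α → ℂ) (C : ℂ),
      (∀ v, ρ v = 0 ∨ ρ v = 1 ∨ ρ v = -1 ∨ ρ v = I ∨ ρ v = -I) ∧ Sym A' ∧ Conn A' U ∧
      (∀ i, κ' i ^ 4 = 1) ∧ C ≠ 0 ∧
      ∀ p : α → ℂ × ℂ, (∀ v ∈ W, (p v).2 = ρ v * (p v).1) →
        Phi (U ∪ W) A (scl κ p) = C * (∏ v ∈ W, (p v).1) * Phi U A' (scl κ' p) := by
  classical
  induction W using Finset.induction_on with
  | empty =>
    intro _ A κ hA hc hκ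
    refine ⟨fun _ => 0, A, κ, 1, fun v => Or.inl rfl, hA, ?_, hκ, one_ne_zero, ?_⟩
    · simpa using hc
    · intro p _
      simp
  | insert v W hvW ih =>
    intro hd A κ hA hc hκ
    have hvU : v ∉ U := by
      intro hv
      exact Finset.disjoint_left.1 hd hv (Finset.mem_insert_self v W)
    have hd' : Disjoint U W := hd.mono_right (Finset.subset_insert v W)
    have hv : v ∉ U ∪ W := by
      rw [Finset.mem_union]
      rintro (h | h)
      · exact hvU h
      · exact hvW h
    have hun : U ∪ insert v W = insert v (U ∪ W) := Finset.union_insert v U W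
    rw [hun] at hc
    rcases conn_or hA hv hc with h1 | h1
    · obtain ⟨ρ, A', κ', C, hρ, hA', hc', hκ', hC, hP⟩ := ih hd' A κ hA h1 hκ
      refine ⟨Function.update ρ v 0, A', κ', C, ?_, hA', hc', hκ', hC, ?_⟩
      · intro w
        by_cases hw : w = v
        · subst hw
          left
          simp
        · rw [Function.update_of_ne hw]
          exact hρ w
      · intro p hp
        have hpv : (p v).2 = 0 := by
          have := hp v (Finset.mem_insert_self v W)
          simpa using this
        have hpW : ∀ w ∈ W, (p w).2 = ρ w * (p w).1 := by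
          intro w hw
          have h2 := hp w (Finset.mem_insert_of_mem hw)
          have hwv : w ≠ v := fun h => hvW (h ▸ hw)
          rwa [Function.update_of_ne hwv] at h2
        rw [hun, Phi_insert hv hA, Finset.prod_insert hvW]
        have e1 : (scl κ p v).1 = (p v).1 := rfl
        have e2 : (scl κ p v).2 = 0 := by
          show κ v * (p v).2 = 0
          rw [hpv, mul_zero]
        rw [e1, e2, hP p hpW]
        ring
    · have hκv := hκ v
      have hκv0 : κ v ≠ 0 := by
        intro h0
        rw [h0] at hκv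
        norm_num at hκv
      set κ2 : α → ℂ := fun j => (if A v j = true then -I else 1) * κ j with hκ2
      have hκ24 : ∀ i, κ2 i ^ 4 = 1 := by
        intro i
        rw [hκ2]
        show ((if A v i = true then -I else 1) * κ i) ^ 4 = 1
        rw [mul_pow, hκ i, mul_one]
        split_ifs
        · rw [neg_pow, I_pow_four]
          norm_num
        · norm_num
      obtain ⟨ρ, A', κ', C, hρ, hA', hc', hκ', hC, hP⟩ :=
        ih hd' (lc A v) κ2 (sym_lc hA v) h1 hκ24
      have h1I : (1 + I : ℂ) ≠ 0 := by
        intro h0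
        have := congrArg Complex.re h0
        simp at this
      refine ⟨Function.update ρ v (I * (κ v)⁻¹), A', κ', (1 + I) * C, ?_, hA', hc', hκ',
        mul_ne_zero h1I hC, ?_⟩
      · intro w
        by_cases hw : w = v
        · subst hw
          rw [Function.update_self]
          have hII : I * I = -1 := I_mul_I
          rcases fourth_root hκv with h2 | h2 | h2 | h2
          · right; right; right; left
            rw [h2]
            simp
          · right; right; right; right
            rw [h2]
            norm_num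
          · right; left
            rw [h2]
            exact mul_inv_cancel₀ I_ne_zero
          · right; right; left
            rw [h2, inv_neg, mul_neg, mul_inv_cancel₀ I_ne_zero]
        · rw [Function.update_of_ne hw]
          exact hρ w
      · intro p hp
        have hpv : (p v).2 = I * (κ v)⁻¹ * (p v).1 := by
          have := hp v (Finset.mem_insert_self v W)
          rwa [Function.update_self] at this
        have hpW : ∀ w ∈ W, (p w).2 = ρ w * (p w).1 := by
          intro w hw
          have h2 := hp w (Finset.mem_insert_of_mem hw)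
          have hwv : w ≠ v := fun h => hvW (h ▸ hw)
          rwa [Function.update_of_ne hwv] at h2
        rw [hun, Phi_insert hv hA, Finset.prod_insert hvW]
        have e1 : (scl κ p v).1 = (p v).1 := rfl
        have e2 : (scl κ p v).2 = I * (p v).1 := by
          show κ v * (p v).2 = I * (p v).1
          rw [hpv]
          field_simp
        have e3 := Phi_lc (V := U ∪ W) (v := v) hA (ε := I) I_sq (scl κ p)
        rw [scl_scl] at e3
        have e4 := hP p hpW
        rw [e1, e2]
        have e5 : Phi (U ∪ W) A (scl κ p) + I * Phi (U ∪ W) A (flip A v (scl κ p)) =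
            (1 + I) * (C * (∏ v ∈ W, (p v).1) * Phi U A' (scl κ' p)) := by
          rw [e3, ← e4]
        linear_combination (p v).1 * e5

theorem reduce {U V : Finset α} (hUV : U ⊆ V) {A : α → α → Bool} (hA : Sym A) (hc : Conn A V)
    {κ : α → ℂ} (hκ : ∀ i, κ i ^ 4 = 1) :
    ∃ (ρ : α → ℂ) (A' : α → α → Bool) (κ' : α → ℂ) (C : ℂ),
      (∀ v, ρ v = 0 ∨ ρ v = 1 ∨ ρ v = -1 ∨ ρ v = I ∨ ρ v = -I) ∧ Sym A' ∧ Conn A' U ∧
      (∀ i, κ' i ^ 4 = 1) ∧ C ≠ 0 ∧
      ∀ p : α → ℂ × ℂ, (∀ v ∈ V \ U, (p v).2 = ρ v * (p v).1) →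
        Phi V A (scl κ p) = C * (∏ v ∈ V \ U, (p v).1) * Phi U A' (scl κ' p) := by
  have h : U ∪ V \ U = V := Finset.union_sdiff_of_subset hUV
  have h2 := reduce_aux (U := U) (V \ U) Finset.disjoint_sdiff A κ hA (by rw [h]; exact hc) hκ
  rw [h] at h2
  exact h2

end AM
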