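import Pool.Agent.Lib.MP_b57e3c_ag.Defs

/-! The hyperdeterminant of a singular `2 × 2 × 2` tensor vanishes. -/

open Complex

namespace AM

private theorem Hd_rank {y z : ℂ × ℂ} (hy : y ≠ 0) (hz : z ≠ 0) {m00 m01 m10 m11 : ℂ}
    (a0 : y.1 * m00 + y.2 * m10 = 0) (a1 : y.1 * m01 + y.2 * m11 = 0)
    (b0 : z.1 * m00 + z.2 * m01 = 0) (b1 : z.1 * m10 + z.2 * m11 = 0) :
    ∃ κ : ℂ, m00 = κ * (y.2 * z.2) ∧ m01 = -(κ * (y.2 * z.1)) ∧ m10 = -(κ * (y.1 * z.2)) ∧
      m11 = κ * (y.1 * z.1) := by
  have hy' : y.1 ≠ 0 ∨ y.2 ≠ 0 := by
    by_contra h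
    push Not at h
    exact hy (Prod.ext h.1 h.2)
  have hz' : z.1 ≠ 0 ∨ z.2 ≠ 0 := by
    by_contra h
    push Not at h
    exact hz (Prod.ext h.1 h.2)
  rcases hy' with h1 | h1 <;> rcases hz' with h2 | h2
  · have e10 : m10 = -(z.2 * m11) / z.1 := by
      rw [eq_div_iff h2]
      linear_combination b1
    have e01 : m01 = -(y.2 * m11) / y.1 := by
      rw [eq_div_iff h1]
      linear_combination a1
    have e00 : m00 = -(y.2 * m10) / y.1 := by
      rw [eq_div_iff h1]
      linear_combination a0
    refine ⟨m11 / (y.1 * z.1), ?_, ?_, ?_, ?_⟩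
    · rw [e00, e10]
      field_simp
    · rw [e01]
      field_simp
    · rw [e10]
      field_simp
    · field_simp
  · have e11 : m11 = -(z.1 * m10) / z.2 := by
      rw [eq_div_iff h2]
      linear_combination b1
    have e00 : m00 = -(y.2 * m10) / y.1 := by
      rw [eq_div_iff h1]
      linear_combination a0
    have e01 : m01 = -(y.2 * m11) / y.1 := by
      rw [eq_div_iff h1]
      linear_combination a1
    refine ⟨-m10 / (y.1 * z.2), ?_, ?_, ?_, ?_⟩
    · rw [e00]
      field_simp
    · rw [e01, e11]
      field_simp
    · field_simp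
    · rw [e11]
      field_simp
  · have e01 : m11 = -(y.1 * m01) / y.2 := by
      rw [eq_div_iff h1]
      linear_combination a1
    have e00 : m00 = -(z.2 * m01) / z.1 := by
      rw [eq_div_iff h2]
      linear_combination b0
    have e10 : m10 = -(y.1 * m00) / y.2 := by
      rw [eq_div_iff h1]
      linear_combination a0
    refine ⟨-m01 / (y.2 * z.1), ?_, ?_, ?_, ?_⟩
    · rw [e00]
      field_simp
    · field_simp
    · rw [e10, e00]
      field_simp
    · rw [e01]
      field_simp
  · have e01 : m01 = -(z.1 * m00) / z.2 := by
      rw [eq_div_iff h2]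
      linear_combination b0
    have e10 : m10 = -(y.1 * m00) / y.2 := by
      rw [eq_div_iff h1]
      linear_combination a0
    have e11 : m11 = -(y.1 * m01) / y.2 := by
      rw [eq_div_iff h1]
      linear_combination a1
    refine ⟨m00 / (y.2 * z.2), ?_, ?_, ?_, ?_⟩
    · field_simp
    · rw [e01]
      field_simp
    · rw [e10]
      field_simp
    · rw [e11, e01]
      field_simp

theorem hdet_zero (T : Bool → Bool → Bool → ℂ) (x y z : ℂ × ℂ) (hx : x ≠ 0) (hy : y ≠ 0)
    (hz : z ≠ 0)
    (h1 : ∀ k, x.1 * y.1 * T false false k + x.1 * y.2 * T false true k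
      + x.2 * y.1 * T true false k + x.2 * y.2 * T true true k = 0)
    (h2 : ∀ k, x.1 * z.1 * T false k false + x.1 * z.2 * T false k true
      + x.2 * z.1 * T true k false + x.2 * z.2 * T true k true = 0)
    (h3 : ∀ k, y.1 * z.1 * T k false false + y.1 * z.2 * T k false true
      + y.2 * z.1 * T k true false + y.2 * z.2 * T k true true = 0) :
    hdet T = 0 := by
  obtain ⟨κ, k00, k01, k10, k11⟩ := Hd_rank hy hz
    (m00 := x.1 * T false false false + x.2 * T true false false)
    (m01 := x.1 * T false false true + x.2 * T true false true)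
    (m10 := x.1 * T false true false + x.2 * T true true false)
    (m11 := x.1 * T false true true + x.2 * T true true true)
    (by linear_combination h1 false) (by linear_combination h1 true)
    (by linear_combination h2 false) (by linear_combination h2 true)
  obtain ⟨A, hA⟩ : ∃ A, A = T false false false * T false true true -
    T false false true * T false true false := ⟨_, rfl⟩
  obtain ⟨C, hC⟩ : ∃ C, C = T true false false * T true true true -
    T true false true * T true true false := ⟨_, rfl⟩
  obtain ⟨B, hB⟩ : ∃ B, B = T false false false * T true true true +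
    T true false false * T false true true - T false false true * T true true false -
    T true false true * T false true false := ⟨_, rfl⟩
  have p0 : 2 * A * x.1 + B * x.2 = 0 := by
    rw [hA, hB]
    linear_combination T false true true * k00 + T false false false * k11 -
      T false true false * k01 - T false false true * k10 + κ * h3 false
  have p1 : B * x.1 + 2 * C * x.2 = 0 := by
    rw [hC, hB]
    linear_combination T true true true * k00 + T true false false * k11 -
      T true true false * k01 - T true false true * k10 + κ * h3 true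
  have hd : hdet T = B ^ 2 - 4 * A * C := by
    rw [hA, hB, hC]
    unfold hdet
    ring
  have hx' : x.1 ≠ 0 ∨ x.2 ≠ 0 := by
    by_contra h
    push Not at h
    exact hx (Prod.ext h.1 h.2)
  rw [hd]
  rcases hx' with h | h
  · apply mul_left_cancel₀ h
    linear_combination B * p1 - 2 * C * p0
  · apply mul_left_cancel₀ h
    linear_combination B * p0 - 2 * A * p1

theorem hdet_smul (c : ℂ) (T : Bool → Bool → Bool → ℂ) :
    hdet (fun x y z => c * T x y z) = c ^ 4 * hdet T := by
  unfold hdet
  ring

end AM
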