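import Pool.Agent.Lib.MP_b57e3c_ag.Defs
import Pool.Agent.Lib.MP_fe51c6_an_EO.Cauchy

/-! Local structure of an immersed piece. -/

open Complex

namespace AM

open Filter Topology Set in
/-- zero sets of nonzero entire functions are totally disconnected -/
private theorem loc_zeros {v : ℂ → ℂ} (hv : Differentiable ℂ v) (hv0 : ∃ z, v z ≠ 0) :
    IsTotallyDisconnected {z : ℂ | v z = 0} := by
  have han : AnalyticOnNhd ℂ v Set.univ := fun z _ => hv.analyticAt z
  rw [← totallyDisconnectedSpace_subtype_iff]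
  have hdis : DiscreteTopology {z : ℂ | v z = 0} := by
    rw [discreteTopology_subtype_iff]
    intro x _
    rcases (hv.analyticAt x).eventually_eq_zero_or_eventually_ne_zero with h | h
    · exfalso
      obtain ⟨z, hz⟩ := hv0
      have := han.eqOn_zero_of_preconnected_of_eventuallyEq_zero isPreconnected_univ
        (Set.mem_univ x) h (Set.mem_univ z)
      exact hz this
    · rw [← disjoint_iff, Filter.disjoint_principal_right]
      filter_upwards [h] with z hz using hz
  infer_instance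

/-- extraction of a regular coordinate projection -/
private theorem loc_coord {g k : ℕ} (L : (Fin k → ℂ) →L[ℂ] (Fin g → ℂ))
    (hL : Function.Injective L) :
    ∃ (J : Finset (Fin g)), J.card = k ∧
      ∃ P : (Fin k → ℂ) ≃L[ℂ] (J → ℂ), ∀ u (j : J), P u j = L u j := by
  classical
  obtain ⟨κ, a, ha, hsp, hli⟩ := exists_linearIndependent' ℂ
    (fun i : Fin g => (LinearMap.proj i ∘ₗ L.toLinearMap : Module.Dual ℂ (Fin k → ℂ)))
  have : Finite κ := Finite.of_injective a ha
  have : Fintype κ := Fintype.ofFinite κ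
  let J : Finset (Fin g) := Finset.univ.image a
  have hmemJ : ∀ i : κ, a i ∈ J := fun i => Finset.mem_image_of_mem _ (Finset.mem_univ i)
  let P0 : (Fin k → ℂ) →ₗ[ℂ] (J → ℂ) :=
    LinearMap.pi (fun j : J => LinearMap.proj (j : Fin g) ∘ₗ L.toLinearMap)
  have hP0 : ∀ u (j : J), P0 u j = L u j := fun u j => rfl
  have hinj : Function.Injective P0 := by
    rw [injective_iff_map_eq_zero]
    intro u hu
    have h1 : ∀ φ ∈ Submodule.span ℂ (Set.range ((fun i : Fin g =>
        (LinearMap.proj i ∘ₗ L.toLinearMap : Module.Dual ℂ (Fin k → ℂ))) ∘ a)), φ u = 0 := by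
      intro φ hφ
      refine Submodule.span_induction (p := fun ψ _ => ψ u = 0) ?_ ?_ ?_ ?_ hφ
      · rintro _ ⟨i, rfl⟩
        have := congrFun hu ⟨a i, hmemJ i⟩
        rw [hP0] at this
        exact this
      · rfl
      · intro x y _ _ hx hy
        rw [LinearMap.add_apply, hx, hy, add_zero]
      · intro c x _ hx
        rw [LinearMap.smul_apply, hx, smul_zero]
    have h2 : L u = 0 := by
      funext i
      have h3 := h1 (LinearMap.proj i ∘ₗ L.toLinearMap) (by
        rw [hsp]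
        exact Submodule.subset_span ⟨i, rfl⟩)
      exact h3
    exact hL (by rw [h2, map_zero])
  have hcard1 : J.card = Fintype.card κ := by
    rw [Finset.card_image_of_injective _ ha, Finset.card_univ]
  have hle1 : Fintype.card κ ≤ k := by
    have := hli.fintype_card_le_finrank
    rwa [Subspace.dual_finrank_eq, Module.finrank_fin_fun] at this
  have hle2 : k ≤ J.card := by
    have := LinearMap.finrank_le_finrank_of_injective hinj
    rw [Module.finrank_fin_fun, Module.finrank_fintype_fun_eq_card, Fintype.card_coe] at this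
    exact this
  have hcard : J.card = k := by omega
  have hfr : Module.finrank ℂ (Fin k → ℂ) = Module.finrank ℂ (J → ℂ) := by
    rw [Module.finrank_fin_fun, Module.finrank_fintype_fun_eq_card, Fintype.card_coe, hcard]
  refine ⟨J, hcard, (LinearEquiv.ofInjectiveOfFinrankEq P0 hinj hfr).toContinuousLinearEquiv,
    ?_⟩
  intro u j
  exact hP0 u j

open Filter Topology Set in
theorem loc {g k : ℕ} (w : Fin g → ℂ → ℂ) (hw : ∀ i, Differentiable ℂ (w i))
    (hw0 : ∀ i, ∃ z, w i z ≠ 0) {U : Set (Fin k → ℂ)} {f : (Fin k → ℂ) → (Fin g → ℂ)}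
    (hU : IsOpen U) (hne : U.Nonempty) (hf : DifferentiableOn ℂ f U)
    (hinj : ∀ u ∈ U, Function.Injective (fderiv ℂ f u)) :
    ∃ K : Finset (Fin g), K.card + k = g ∧ ∃ O ⊆ U, IsOpen O ∧ O.Nonempty ∧
      (∀ D : (Fin g → ℂ) → ℂ, Differentiable ℂ D →
        (∀ ζ ζ' : Fin g → ℂ, (∀ i, i ∉ K → ζ i = ζ' i) → D ζ = D ζ') →
        (∀ u ∈ O, D (f u) = 0) → ∀ ζ, D ζ = 0) ∧
      (∀ i, (∀ u ∈ O, w i (f u i) ≠ 0) ∨ (∃ x, w i x = 0 ∧ ∀ u ∈ O, f u i = x)) ∧
      (∀ i, i ∉ K → ∀ u ∈ O, w i (f u i) ≠ 0) := by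
  classical
  obtain ⟨u₀, hu₀⟩ := hne
  obtain ⟨J, hJ, P, hP⟩ := loc_coord (fderiv ℂ f u₀) (hinj u₀ hu₀)
  -- the projection of f
  let R : (Fin g → ℂ) →L[ℂ] (J → ℂ) :=
    ContinuousLinearMap.pi (fun j : J => ContinuousLinearMap.proj (j : Fin g))
  have hR : ∀ ζ (j : J), R ζ j = ζ j := fun ζ j => rfl
  have hev : ∀ᶠ v in 𝓝 u₀, DifferentiableAt ℂ f v := by
    filter_upwards [hU.mem_nhds hu₀] with v hv
    exact (hf v hv).differentiableAt (hU.mem_nhds hv)
  have hstr : HasStrictFDerivAt f (fderiv ℂ f u₀) u₀ :=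
    EqOka.hasStrictFDerivAt_of_eventually f u₀ hev
  have hstrR : HasStrictFDerivAt (fun u => R (f u)) (P : (Fin k → ℂ) →L[ℂ] (J → ℂ)) u₀ := by
    have h1 := R.hasStrictFDerivAt.comp u₀ hstr
    have h2 : R.comp (fderiv ℂ f u₀) = (P : (Fin k → ℂ) →L[ℂ] (J → ℂ)) := by
      ext u j
      rw [ContinuousLinearMap.comp_apply, hR]
      exact (hP _ j).symm
    rw [h2] at h1
    exact h1
  let e := hstrR.toOpenPartialHomeomorph (fun u => R (f u))
  have he : ∀ u, e u = R (f u) := fun u => rfl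
  have hsrc : u₀ ∈ e.source := hstrR.mem_toOpenPartialHomeomorph_source
  -- continuity of the coordinates
  have hcont : ∀ i, ContinuousOn (fun u => f u i) U := fun i =>
    (continuous_apply i).comp_continuousOn hf.continuousOn
  -- shrinking
  have key : ∀ t : Finset (Fin g), ∃ O ⊆ U ∩ e.source, IsOpen O ∧ O.Nonempty ∧
      ∀ i ∈ t, (∀ u ∈ O, w i (f u i) ≠ 0) ∨ (∀ u ∈ O, w i (f u i) = 0) := by
    intro t
    induction t using Finset.induction_on with
    | empty =>
      exact ⟨U ∩ e.source, subset_rfl, hU.inter e.open_source, ⟨u₀, hu₀, hsrc⟩, by simp⟩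
    | insert i t hi ih =>
      obtain ⟨O, hO, hOo, hOn, hOt⟩ := ih
      by_cases hz : ∀ u ∈ O, w i (f u i) = 0
      · refine ⟨O, hO, hOo, hOn, fun j hj => ?_⟩
        rcases Finset.mem_insert.1 hj with rfl | hj
        · exact Or.inr hz
        · exact hOt j hj
      · push Not at hz
        obtain ⟨u₁, hu₁, hw₁⟩ := hz
        have hc : ContinuousOn (fun u => w i (f u i)) O :=
          (hw i).continuous.comp_continuousOn
            ((hcont i).mono (hO.trans inter_subset_left))
        have hop : IsOpen (O ∩ (fun u => w i (f u i)) ⁻¹' {0}ᶜ) :=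
          hc.isOpen_inter_preimage hOo isOpen_compl_singleton
        refine ⟨_, inter_subset_left.trans hO, hop, ⟨u₁, hu₁, hw₁⟩, fun j hj => ?_⟩
        rcases Finset.mem_insert.1 hj with rfl | hj
        · exact Or.inl fun u hu => hu.2
        · rcases hOt j hj with h | h
          · exact Or.inl fun u hu => h u hu.1
          · exact Or.inr fun u hu => h u hu.1
  obtain ⟨O', hO', hOo', ⟨u₁, hu₁⟩, hOt⟩ := key Finset.univ
  obtain ⟨r, hr, hball⟩ := Metric.isOpen_iff.1 hOo' u₁ hu₁
  have hBU : Metric.ball u₁ r ⊆ U := fun u hu => (hO' (hball hu)).1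
  have hBs : Metric.ball u₁ r ⊆ e.source := fun u hu => (hO' (hball hu)).2
  have hu₁B : u₁ ∈ Metric.ball u₁ r := Metric.mem_ball_self hr
  have himg : e '' (Metric.ball u₁ r) ∈ 𝓝 (e u₁) :=
    (e.isOpen_image_of_subset_source Metric.isOpen_ball hBs).mem_nhds ⟨u₁, hu₁B, rfl⟩
  -- alternative
  have halt : ∀ i, (∀ u ∈ Metric.ball u₁ r, w i (f u i) ≠ 0) ∨
      (∃ x, w i x = 0 ∧ ∀ u ∈ Metric.ball u₁ r, f u i = x) := by
    intro i
    rcases hOt i (Finset.mem_univ i) with h | h
    · exact Or.inl fun u hu => h u (hball hu)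
    · refine Or.inr ⟨f u₁ i, h u₁ hu₁, fun u hu => ?_⟩
      have hpre : IsPreconnected ((fun u => f u i) '' Metric.ball u₁ r) :=
        (convex_ball u₁ r).isPreconnected.image _ ((hcont i).mono hBU)
      have hsub : (fun u => f u i) '' Metric.ball u₁ r ⊆ {z : ℂ | w i z = 0} := by
        rintro _ ⟨v, hv, rfl⟩
        exact h v (hball hv)
      exact loc_zeros (hw i) (hw0 i) _ hsub hpre ⟨u, hu, rfl⟩ ⟨u₁, hu₁B, rfl⟩
  refine ⟨Jᶜ, ?_, Metric.ball u₁ r, hBU, Metric.isOpen_ball, ⟨u₁, hu₁B⟩, ?_, halt, ?_⟩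
  · have h1 := Finset.card_le_univ J
    rw [Finset.card_compl, Fintype.card_fin, hJ]
    rw [Fintype.card_fin, hJ] at h1
    omega
  · intro D hD hdep hzero ζ
    let ℓ : ℂ → (Fin g → ℂ) := fun t => f u₁ + t • (ζ - f u₁)
    have hℓ : Differentiable ℂ ℓ := by
      intro t
      exact ((differentiableAt_id.smul_const _).const_add _)
    have hDℓ : Differentiable ℂ (fun t => D (ℓ t)) := hD.comp hℓ
    have hℓ0 : ℓ 0 = f u₁ := by
      change f u₁ + (0 : ℂ) • (ζ - f u₁) = f u₁
      rw [zero_smul, add_zero]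
    have hℓ1 : ℓ 1 = ζ := by
      change f u₁ + (1 : ℂ) • (ζ - f u₁) = ζ
      rw [one_smul, add_sub_cancel]
    have hnear : ∀ᶠ t in 𝓝 (0 : ℂ), D (ℓ t) = 0 := by
      have hcR : ContinuousAt (fun t => R (ℓ t)) 0 :=
        (R.continuous.comp hℓ.continuous).continuousAt
      have h0 : e '' (Metric.ball u₁ r) ∈ 𝓝 (R (ℓ 0)) := by
        rw [hℓ0, ← he]
        exact himg
      filter_upwards [hcR h0] with t ht
      obtain ⟨u, hu, hue⟩ := ht
      rw [← hzero u hu]
      refine hdep _ _ fun i hi => ?_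
      have hiJ : i ∈ J := by
        by_contra hh
        exact hi (Finset.mem_compl.2 hh)
      have := congrFun hue ⟨i, hiJ⟩
      rw [he] at this
      exact this.symm
    have han : AnalyticOnNhd ℂ (fun t => D (ℓ t)) Set.univ := fun z _ => hDℓ.analyticAt z
    have hall := han.eqOn_zero_of_preconnected_of_eventuallyEq_zero isPreconnected_univ
      (Set.mem_univ 0) hnear (Set.mem_univ 1)
    have h1 : D (ℓ 1) = 0 := hall
    rwa [hℓ1] at h1
  · intro i hi
    rcases halt i with h | ⟨x, hx, hconst⟩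
    · exact h
    · exfalso
      have hiJ : i ∈ J := by
        by_contra hh
        exact hi (Finset.mem_compl.2 hh)
      let q : ℂ → (J → ℂ) := fun t => e u₁ + t • (Pi.single ⟨i, hiJ⟩ 1 : J → ℂ)
      have hq : Continuous q := by
        exact continuous_const.add (continuous_id.smul continuous_const)
      have hq0 : q 0 = e u₁ := by
        change e u₁ + (0 : ℂ) • _ = e u₁
        rw [zero_smul, add_zero]
      have h0 : e '' (Metric.ball u₁ r) ∈ 𝓝 (q 0) := by
        rw [hq0]
        exact himg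
      have hev2 : ∀ᶠ t in 𝓝[≠] (0 : ℂ), q t ∈ e '' (Metric.ball u₁ r) :=
        Filter.Eventually.filter_mono nhdsWithin_le_nhds (hq.continuousAt h0)
      obtain ⟨t, ht, ht0⟩ := (hev2.and self_mem_nhdsWithin).exists
      obtain ⟨u, hu, hue⟩ := ht
      have h1 := congrFun hue ⟨i, hiJ⟩
      have h2 : q t ⟨i, hiJ⟩ = f u₁ i + t := by
        change e u₁ ⟨i, hiJ⟩ + (t • (Pi.single ⟨i, hiJ⟩ 1 : J → ℂ)) ⟨i, hiJ⟩ = _
        rw [Pi.smul_apply, Pi.single_eq_same, smul_eq_mul, mul_one, he]
        rfl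
      have h3 : e u ⟨i, hiJ⟩ = f u i := rfl
      rw [h2, h3, hconst u hu, hconst u₁ hu₁B] at h1
      apply ht0
      have : t = 0 := by
        have h4 : x + t - x = 0 := by rw [← h1, sub_self]
        rwa [add_sub_cancel_left] at h4
      exact this

end AM
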