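import Pool.Agent.Lib.MP_b57e3c_ag.Sm3

/-! Connected graphs on four vertices. -/

open Complex

namespace AM

variable {α : Type*} [LinearOrder α]

/-- connectedness of the graph on `a, b, c, j` with the edges `ab, bc, ac, ja, jb, jc` -/
private def cb4 (x y z u v w : Bool) : Bool :=
  (x || z || u) && (x || y || v) && (y || z || w) && (u || v || w) &&
    (z || u || y || v) && (x || u || y || w) && (x || z || v || w)

private theorem core4 (x y z u v w : Bool) (hconn : cb4 x y z u v w = true)
    {r0 R s0 S t0 T : ℂ} (ra : r0 ≠ 0) (r01 : r0 * R ≠ 0) (rpm : (r0 + R) * (r0 - R) ≠ 0)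
    (rq : r0 * r0 + R * R ≠ 0) (sa : s0 ≠ 0) (s01 : s0 * S ≠ 0)
    (spm : (s0 + S) * (s0 - S) ≠ 0) (sq : s0 * s0 + S * S ≠ 0)
    (ta : t0 ≠ 0) (t01 : t0 * T ≠ 0)
    (tpm : (t0 + T) * (t0 - T) ≠ 0) (tq : t0 * t0 + T * T ≠ 0)
    (h0 : r0 * (s0 * (t0 + T) + S * (t0 + sg3 y * T)) +
      R * (s0 * (t0 + sg3 z * T) + sg3 x * S * (t0 + sg3 y * (sg3 z * T))) = 0)
    (h1 : r0 * (s0 * (t0 + sg3 w * T) + (sg3 v * S) * (t0 + sg3 y * (sg3 w * T))) +
      (sg3 u * R) * (s0 * (t0 + sg3 z * (sg3 w * T)) +
        sg3 x * (sg3 v * S) * (t0 + sg3 y * (sg3 z * (sg3 w * T)))) = 0) : False :=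
  match x, y, z, u, v, w, hconn with
  | false, false, false, false, false, false, hconn => absurd hconn (by decide)
  | false, false, false, false, false, true, hconn => absurd hconn (by decide)
  | false, false, false, false, true, false, hconn => absurd hconn (by decide)
  | false, false, false, false, true, true, hconn => absurd hconn (by decide)
  | false, false, false, true, false, false, hconn => absurd hconn (by decide)
  | false, false, false, true, false, true, hconn => absurd hconn (by decide)
  | false, false, false, true, true, false, hconn => absurd hconn (by decide)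
  | false, false, false, true, true, true, _ => by
    simp only [sg3, if_true, Bool.false_eq_true, if_false] at h0 h1
    refine mul_ne_zero (mul_ne_zero rpm spm) ta ?_
    linear_combination (1 / (-2)) * (-(r0 * s0) + r0 * S + R * s0 - R * S) * h0 -
      (1 / (-2)) * (r0 * s0 + r0 * S + R * s0 + R * S) * h1
  | false, false, true, false, false, false, hconn => absurd hconn (by decide)
  | false, false, true, false, false, true, hconn => absurd hconn (by decide)
  | false, false, true, false, true, false, hconn => absurd hconn (by decide)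
  | false, false, true, false, true, true, _ => by
    simp only [sg3, if_true, Bool.false_eq_true, if_false] at h0 h1
    refine mul_ne_zero (mul_ne_zero rpm spm) ta ?_
    linear_combination (1 / (-2)) * (-(r0 * s0) + r0 * S + R * s0 - R * S) * h0 -
      (1 / (-2)) * (r0 * s0 + r0 * S - R * s0 - R * S) * h1
  | false, false, true, true, false, false, hconn => absurd hconn (by decide)
  | false, false, true, true, false, true, hconn => absurd hconn (by decide)
  | false, false, true, true, true, false, _ => by
    simp only [sg3, if_true, Bool.false_eq_true, if_false] at h0 h1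
    refine mul_ne_zero (mul_ne_zero r01 spm) ta ?_
    linear_combination (1 / (4)) * (r0 * s0 - r0 * S + R * s0 - R * S) * h0 -
      (1 / (4)) * (r0 * s0 + r0 * S - R * s0 - R * S) * h1
  | false, false, true, true, true, true, _ => by
    simp only [sg3, if_true, Bool.false_eq_true, if_false] at h0 h1
    refine mul_ne_zero (mul_ne_zero rq spm) ta ?_
    linear_combination (1 / (-2)) * (-(r0 * s0) + r0 * S - R * s0 + R * S) * h0 -
      (1 / (-2)) * (r0 * s0 + r0 * S - R * s0 - R * S) * h1
  | false, true, false, false, false, false, hconn => absurd hconn (by decide)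
  | false, true, false, false, false, true, hconn => absurd hconn (by decide)
  | false, true, false, false, true, false, hconn => absurd hconn (by decide)
  | false, true, false, false, true, true, hconn => absurd hconn (by decide)
  | false, true, false, true, false, false, hconn => absurd hconn (by decide)
  | false, true, false, true, false, true, _ => by
    simp only [sg3, if_true, Bool.false_eq_true, if_false] at h0 h1
    refine mul_ne_zero (mul_ne_zero rpm spm) ta ?_
    linear_combination (1 / (-2)) * (-(r0 * s0) + r0 * S + R * s0 - R * S) * h0 -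
      (1 / (-2)) * (r0 * s0 - r0 * S + R * s0 - R * S) * h1
  | false, true, false, true, true, false, _ => by
    simp only [sg3, if_true, Bool.false_eq_true, if_false] at h0 h1
    refine mul_ne_zero (mul_ne_zero rpm s01) ta ?_
    linear_combination (1 / (4)) * (r0 * s0 + r0 * S - R * s0 - R * S) * h0 -
      (1 / (4)) * (r0 * s0 - r0 * S + R * s0 - R * S) * h1
  | false, true, false, true, true, true, _ => by
    simp only [sg3, if_true, Bool.false_eq_true, if_false] at h0 h1
    refine mul_ne_zero (mul_ne_zero rpm sq) ta ?_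
    linear_combination (1 / (-2)) * (-(r0 * s0) - r0 * S + R * s0 + R * S) * h0 -
      (1 / (-2)) * (r0 * s0 - r0 * S + R * s0 - R * S) * h1
  | false, true, true, false, false, false, hconn => absurd hconn (by decide)
  | false, true, true, false, false, true, _ => by
    simp only [sg3, if_true, Bool.false_eq_true, if_false] at h0 h1
    refine mul_ne_zero (mul_ne_zero rpm spm) ta ?_
    linear_combination (1 / (-2)) * (-(r0 * s0) + r0 * S + R * s0 - R * S) * h0 -
      (1 / (-2)) * (r0 * s0 - r0 * S - R * s0 + R * S) * h1
  | false, true, true, false, true, false, _ => by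
    simp only [sg3, if_true, Bool.false_eq_true, if_false] at h0 h1
    refine mul_ne_zero (mul_ne_zero rpm s01) ta ?_
    linear_combination (1 / (4)) * (r0 * s0 + r0 * S - R * s0 - R * S) * h0 -
      (1 / (4)) * (r0 * s0 - r0 * S - R * s0 + R * S) * h1
  | false, true, true, false, true, true, _ => by
    simp only [sg3, if_true, Bool.false_eq_true, if_false] at h0 h1
    refine mul_ne_zero (mul_ne_zero rpm sq) ta ?_
    linear_combination (1 / (-2)) * (-(r0 * s0) - r0 * S + R * s0 + R * S) * h0 -
      (1 / (-2)) * (r0 * s0 - r0 * S - R * s0 + R * S) * h1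
  | false, true, true, true, false, false, _ => by
    simp only [sg3, if_true, Bool.false_eq_true, if_false] at h0 h1
    refine mul_ne_zero (mul_ne_zero r01 spm) ta ?_
    linear_combination (1 / (4)) * (r0 * s0 - r0 * S + R * s0 - R * S) * h0 -
      (1 / (4)) * (r0 * s0 - r0 * S - R * s0 + R * S) * h1
  | false, true, true, true, false, true, _ => by
    simp only [sg3, if_true, Bool.false_eq_true, if_false] at h0 h1
    refine mul_ne_zero (mul_ne_zero rq spm) ta ?_
    linear_combination (1 / (-2)) * (-(r0 * s0) + r0 * S - R * s0 + R * S) * h0 -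
      (1 / (-2)) * (r0 * s0 - r0 * S - R * s0 + R * S) * h1
  | false, true, true, true, true, false, _ => by
    simp only [sg3, if_true, Bool.false_eq_true, if_false] at h0 h1
    refine mul_ne_zero (mul_ne_zero rpm tpm) sa ?_
    linear_combination (1 / (-2)) * (-(r0 * t0) + r0 * T + R * t0 + R * T) * h0 -
      (1 / (-2)) * (r0 * t0 - r0 * T + R * t0 + R * T) * h1
  | false, true, true, true, true, true, _ => by
    simp only [sg3, if_true, Bool.false_eq_true, if_false] at h0 h1
    refine mul_ne_zero (mul_ne_zero rpm tq) sa ?_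
    linear_combination (1 / (-2)) * (-(r0 * t0) - r0 * T + R * t0 - R * T) * h0 -
      (1 / (-2)) * (r0 * t0 - r0 * T + R * t0 + R * T) * h1
  | true, false, false, false, false, false, hconn => absurd hconn (by decide)
  | true, false, false, false, false, true, hconn => absurd hconn (by decide)
  | true, false, false, false, true, false, hconn => absurd hconn (by decide)
  | true, false, false, false, true, true, _ => by
    simp only [sg3, if_true, Bool.false_eq_true, if_false] at h0 h1
    refine mul_ne_zero (mul_ne_zero rpm tpm) sa ?_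
    linear_combination (1 / (-2)) * (-(r0 * t0) + r0 * T + R * t0 - R * T) * h0 -
      (1 / (-2)) * (r0 * t0 + r0 * T - R * t0 - R * T) * h1
  | true, false, false, true, false, false, hconn => absurd hconn (by decide)
  | true, false, false, true, false, true, _ => by
    simp only [sg3, if_true, Bool.false_eq_true, if_false] at h0 h1
    refine mul_ne_zero (mul_ne_zero r01 tpm) sa ?_
    linear_combination (1 / (4)) * (r0 * t0 - r0 * T + R * t0 - R * T) * h0 -
      (1 / (4)) * (r0 * t0 + r0 * T - R * t0 - R * T) * h1
  | true, false, false, true, true, false, hconn => absurd hconn (by decide)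
  | true, false, false, true, true, true, _ => by
    simp only [sg3, if_true, Bool.false_eq_true, if_false] at h0 h1
    refine mul_ne_zero (mul_ne_zero rq tpm) sa ?_
    linear_combination (1 / (-2)) * (-(r0 * t0) + r0 * T - R * t0 + R * T) * h0 -
      (1 / (-2)) * (r0 * t0 + r0 * T - R * t0 - R * T) * h1
  | true, false, true, false, false, false, hconn => absurd hconn (by decide)
  | true, false, true, false, false, true, _ => by
    simp only [sg3, if_true, Bool.false_eq_true, if_false] at h0 h1
    refine mul_ne_zero (mul_ne_zero r01 t01) sa ?_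
    linear_combination (1 / (-8)) * (r0 * t0 - r0 * T - R * t0 - R * T) * h0 -
      (1 / (-8)) * (r0 * t0 + r0 * T - R * t0 + R * T) * h1
  | true, false, true, false, true, false, _ => by
    simp only [sg3, if_true, Bool.false_eq_true, if_false] at h0 h1
    refine mul_ne_zero (mul_ne_zero r01 s01) ta ?_
    linear_combination (1 / (-8)) * (r0 * s0 - r0 * S - R * s0 - R * S) * h0 -
      (1 / (-8)) * (r0 * s0 + r0 * S - R * s0 + R * S) * h1
  | true, false, true, false, true, true, _ => by
    simp only [sg3, if_true, Bool.false_eq_true, if_false] at h0 h1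
    refine mul_ne_zero (mul_ne_zero rpm spm) ta ?_
    linear_combination (1 / (-2)) * (-(r0 * s0) + r0 * S + R * s0 + R * S) * h0 -
      (1 / (-2)) * (r0 * s0 + r0 * S - R * s0 + R * S) * h1
  | true, false, true, true, false, false, _ => by
    simp only [sg3, if_true, Bool.false_eq_true, if_false] at h0 h1
    refine mul_ne_zero (mul_ne_zero r01 spm) ta ?_
    linear_combination (1 / (4)) * (r0 * s0 + r0 * S + R * s0 - R * S) * h0 -
      (1 / (4)) * (r0 * s0 + r0 * S - R * s0 + R * S) * h1
  | true, false, true, true, false, true, _ => by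
    simp only [sg3, if_true, Bool.false_eq_true, if_false] at h0 h1
    refine mul_ne_zero (mul_ne_zero r01 tq) sa ?_
    linear_combination (1 / (4)) * (r0 * t0 - r0 * T + R * t0 + R * T) * h0 -
      (1 / (4)) * (r0 * t0 + r0 * T - R * t0 + R * T) * h1
  | true, false, true, true, true, false, _ => by
    simp only [sg3, if_true, Bool.false_eq_true, if_false] at h0 h1
    refine mul_ne_zero (mul_ne_zero r01 sq) ta ?_
    linear_combination (1 / (4)) * (r0 * s0 - r0 * S + R * s0 + R * S) * h0 -
      (1 / (4)) * (r0 * s0 + r0 * S - R * s0 + R * S) * h1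
  | true, false, true, true, true, true, _ => by
    simp only [sg3, if_true, Bool.false_eq_true, if_false] at h0 h1
    refine mul_ne_zero (mul_ne_zero rq spm) ta ?_
    linear_combination (1 / (-2)) * (-(r0 * s0) + r0 * S - R * s0 - R * S) * h0 -
      (1 / (-2)) * (r0 * s0 + r0 * S - R * s0 + R * S) * h1
  | true, true, false, false, false, false, hconn => absurd hconn (by decide)
  | true, true, false, false, false, true, _ => by
    simp only [sg3, if_true, Bool.false_eq_true, if_false] at h0 h1
    refine mul_ne_zero (mul_ne_zero rpm t01) sa ?_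
    linear_combination (1 / (4)) * (r0 * t0 + r0 * T - R * t0 - R * T) * h0 -
      (1 / (4)) * (r0 * t0 - r0 * T - R * t0 + R * T) * h1
  | true, true, false, false, true, false, _ => by
    simp only [sg3, if_true, Bool.false_eq_true, if_false] at h0 h1
    refine mul_ne_zero (mul_ne_zero rpm s01) ta ?_
    linear_combination (1 / (4)) * (r0 * s0 + r0 * S + R * s0 - R * S) * h0 -
      (1 / (4)) * (r0 * s0 - r0 * S + R * s0 + R * S) * h1
  | true, true, false, false, true, true, _ => by
    simp only [sg3, if_true, Bool.false_eq_true, if_false] at h0 h1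
    refine mul_ne_zero (mul_ne_zero rpm tq) sa ?_
    linear_combination (1 / (-2)) * (-(r0 * t0) - r0 * T + R * t0 + R * T) * h0 -
      (1 / (-2)) * (r0 * t0 - r0 * T - R * t0 + R * T) * h1
  | true, true, false, true, false, false, _ => by
    simp only [sg3, if_true, Bool.false_eq_true, if_false] at h0 h1
    refine mul_ne_zero (mul_ne_zero r01 s01) ta ?_
    linear_combination (1 / (-8)) * (r0 * s0 - r0 * S - R * s0 - R * S) * h0 -
      (1 / (-8)) * (r0 * s0 - r0 * S + R * s0 + R * S) * h1
  | true, true, false, true, false, true, _ => by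
    simp only [sg3, if_true, Bool.false_eq_true, if_false] at h0 h1
    refine mul_ne_zero (mul_ne_zero rpm spm) ta ?_
    linear_combination (1 / (-2)) * (-(r0 * s0) + r0 * S + R * s0 + R * S) * h0 -
      (1 / (-2)) * (r0 * s0 - r0 * S + R * s0 + R * S) * h1
  | true, true, false, true, true, false, _ => by
    simp only [sg3, if_true, Bool.false_eq_true, if_false] at h0 h1
    refine mul_ne_zero (mul_ne_zero rq s01) ta ?_
    linear_combination (1 / (4)) * (r0 * s0 + r0 * S - R * s0 + R * S) * h0 -
      (1 / (4)) * (r0 * s0 - r0 * S + R * s0 + R * S) * h1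
  | true, true, false, true, true, true, _ => by
    simp only [sg3, if_true, Bool.false_eq_true, if_false] at h0 h1
    refine mul_ne_zero (mul_ne_zero rpm sq) ta ?_
    linear_combination (1 / (-2)) * (-(r0 * s0) - r0 * S + R * s0 - R * S) * h0 -
      (1 / (-2)) * (r0 * s0 - r0 * S + R * s0 + R * S) * h1
  | true, true, true, false, false, false, hconn => absurd hconn (by decide)
  | true, true, true, false, false, true, _ => by
    simp only [sg3, if_true, Bool.false_eq_true, if_false] at h0 h1
    refine mul_ne_zero (mul_ne_zero rq t01) sa ?_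
    linear_combination (1 / (4)) * (r0 * t0 + r0 * T - R * t0 + R * T) * h0 -
      (1 / (4)) * (r0 * t0 - r0 * T - R * t0 - R * T) * h1
  | true, true, true, false, true, false, _ => by
    simp only [sg3, if_true, Bool.false_eq_true, if_false] at h0 h1
    refine mul_ne_zero (mul_ne_zero rq s01) ta ?_
    linear_combination (1 / (4)) * (r0 * s0 + r0 * S - R * s0 + R * S) * h0 -
      (1 / (4)) * (r0 * s0 - r0 * S - R * s0 - R * S) * h1
  | true, true, true, false, true, true, _ => by
    simp only [sg3, if_true, Bool.false_eq_true, if_false] at h0 h1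
    refine mul_ne_zero (mul_ne_zero rpm sq) ta ?_
    linear_combination (1 / (-2)) * (-(r0 * s0) - r0 * S + R * s0 - R * S) * h0 -
      (1 / (-2)) * (r0 * s0 - r0 * S - R * s0 - R * S) * h1
  | true, true, true, true, false, false, _ => by
    simp only [sg3, if_true, Bool.false_eq_true, if_false] at h0 h1
    refine mul_ne_zero (mul_ne_zero r01 sq) ta ?_
    linear_combination (1 / (4)) * (r0 * s0 - r0 * S + R * s0 + R * S) * h0 -
      (1 / (4)) * (r0 * s0 - r0 * S - R * s0 - R * S) * h1
  | true, true, true, true, false, true, _ => by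
    simp only [sg3, if_true, Bool.false_eq_true, if_false] at h0 h1
    refine mul_ne_zero (mul_ne_zero rq spm) ta ?_
    linear_combination (1 / (-2)) * (-(r0 * s0) + r0 * S - R * s0 - R * S) * h0 -
      (1 / (-2)) * (r0 * s0 - r0 * S - R * s0 - R * S) * h1
  | true, true, true, true, true, false, _ => by
    simp only [sg3, if_true, Bool.false_eq_true, if_false] at h0 h1
    refine mul_ne_zero (mul_ne_zero rq tpm) sa ?_
    linear_combination (1 / (-2)) * (-(r0 * t0) + r0 * T - R * t0 - R * T) * h0 -
      (1 / (-2)) * (r0 * t0 - r0 * T - R * t0 - R * T) * h1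
  | true, true, true, true, true, true, _ => by
    simp only [sg3, if_true, Bool.false_eq_true, if_false] at h0 h1
    refine mul_ne_zero (mul_ne_zero rq sq) ta ?_
    linear_combination (1 / (-2)) * (-(r0 * s0) - r0 * S - R * s0 + R * S) * h0 -
      (1 / (-2)) * (r0 * s0 - r0 * S - R * s0 - R * S) * h1

private theorem conn4 {A : α → α → Bool} (hA : Sym A) {a b c j : α} (hab : a ≠ b) (hac : a ≠ c)
    (hbc : b ≠ c) (haj : a ≠ j) (hbj : b ≠ j) (hcj : c ≠ j) (hc : Conn A {a, b, c, j}) :
    cb4 (A a b) (A b c) (A a c) (A j a) (A j b) (A j c) = true := by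
  have sba := hA b a
  have scb := hA c b
  have sca := hA c a
  have saj := hA a j
  have sbj := hA b j
  have scj := hA c j
  have k1 := hc {a} (by simp) (by simp) ⟨b, by simp [hab.symm]⟩
  have k2 := hc {b} (by simp) (by simp) ⟨a, by simp [hab]⟩
  have k3 := hc {c} (by simp) (by simp) ⟨a, by simp [hac]⟩
  have k4 := hc {j} (by simp) (by simp) ⟨a, by simp [haj]⟩
  have k5 := hc {a, b} (by intro i; simp; tauto) (by simp) ⟨c, by simp [hac.symm, hbc.symm]⟩
  have k6 := hc {a, c} (by intro i; simp; tauto) (by simp) ⟨b, by simp [hab.symm, hbc]⟩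
  have k7 := hc {b, c} (by intro i; simp; tauto) (by simp) ⟨a, by simp [hab, hac]⟩
  simp only [Finset.mem_singleton, Finset.mem_sdiff, Finset.mem_insert, exists_eq_left] at *
  unfold cb4
  simp only [Bool.and_eq_true, Bool.or_eq_true]
  refine ⟨⟨⟨⟨⟨⟨?_, ?_⟩, ?_⟩, ?_⟩, ?_⟩, ?_⟩, ?_⟩
  · obtain ⟨i, ⟨hi, hi'⟩, h⟩ := k1
    rcases hi with rfl | rfl | rfl | rfl
    · exact absurd rfl hi'
    · simp_all
    · simp_all
    · simp_all
  · obtain ⟨i, ⟨hi, hi'⟩, h⟩ := k2
    rcases hi with rfl | rfl | rfl | rfl
    · simp_all
    · exact absurd rfl hi'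
    · simp_all
    · simp_all
  · obtain ⟨i, ⟨hi, hi'⟩, h⟩ := k3
    rcases hi with rfl | rfl | rfl | rfl
    · simp_all
    · simp_all
    · exact absurd rfl hi'
    · simp_all
  · obtain ⟨i, ⟨hi, hi'⟩, h⟩ := k4
    rcases hi with rfl | rfl | rfl | rfl
    · simp_all
    · simp_all
    · simp_all
    · exact absurd rfl hi'
  · obtain ⟨k, hk, i, ⟨hi, hi'⟩, h⟩ := k5
    rcases hk with rfl | rfl <;> rcases hi with rfl | rfl | rfl | rfl <;> simp_all
  · obtain ⟨k, hk, i, ⟨hi, hi'⟩, h⟩ := k6
    rcases hk with rfl | rfl <;> rcases hi with rfl | rfl | rfl | rfl <;> simp_all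
  · obtain ⟨k, hk, i, ⟨hi, hi'⟩, h⟩ := k7
    rcases hk with rfl | rfl <;> rcases hi with rfl | rfl | rfl | rfl <;> simp_all

theorem vec4 {A : α → α → Bool} (hA : Sym A) {a b c j : α} (hab : a ≠ b) (hac : a ≠ c)
    (hbc : b ≠ c) (haj : a ≠ j) (hbj : b ≠ j) (hcj : c ≠ j) (hc : Conn A {a, b, c, j})
    {κ : α → ℂ} (hκ : ∀ i, κ i ^ 4 = 1) (p : α → ℂ × ℂ)
    {r s t : ℂ × ℂ} (hr : NonOct r) (hs : NonOct s) (ht : NonOct t) :
    ¬ ∀ x, Phi {a, b, c, j} A
      (scl κ (Function.update (upd3 p a b c r s t) j (ev x))) = 0 := by
  intro hall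
  have hjn : j ∉ ({a, b, c} : Finset α) := by simp [haj.symm, hbj.symm, hcj.symm]
  have hset : ({a, b, c, j} : Finset α) = insert j {a, b, c} := by
    ext i
    simp only [Finset.mem_insert, Finset.mem_singleton]
    tauto
  have hj0 := ne_zero_of_pow4 (hκ j)
  have ha : ∀ x, scl κ (Function.update (upd3 p a b c r s t) j (ev x)) a =
      (r.1, κ a * r.2) := by
    intro x
    unfold scl upd3
    rw [Function.update_of_ne haj, Function.update_of_ne hac, Function.update_of_ne hab,
      Function.update_self]
  have hb : ∀ x, scl κ (Function.update (upd3 p a b c r s t) j (ev x)) b =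
      (s.1, κ b * s.2) := by
    intro x
    unfold scl upd3
    rw [Function.update_of_ne hbj, Function.update_of_ne hbc, Function.update_self]
  have hcc : ∀ x, scl κ (Function.update (upd3 p a b c r s t) j (ev x)) c =
      (t.1, κ c * t.2) := by
    intro x
    unfold scl upd3
    rw [Function.update_of_ne hcj, Function.update_self]
  have hj : ∀ x, scl κ (Function.update (upd3 p a b c r s t) j (ev x)) j =
      ((ev x).1, κ j * (ev x).2) := by
    intro x
    unfold scl
    rw [Function.update_self]
  have key : ∀ x, _ := fun x => by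
    have h := hall x
    rw [hset, Phi_insert hjn hA, Phi_three hA hab hac hbc, Phi_three hA hab hac hbc] at h
    simp only [flip_snd3, flip_fst3, ha, hb, hcc, hj] at h
    exact h
  have k0 := key false
  have k1 := key true
  simp only [ev, if_true, Bool.false_eq_true, if_false, one_mul, mul_zero, zero_mul, add_zero,
    zero_add, mul_one] at k0 k1
  have k1' := (mul_eq_zero.1 k1).resolve_left hj0
  have fct : ∀ {q : ℂ × ℂ} {k : ℂ}, NonOct q → k ^ 4 = 1 → q.1 ≠ 0 ∧ q.1 * (k * q.2) ≠ 0 ∧
      (q.1 + k * q.2) * (q.1 - k * q.2) ≠ 0 ∧ q.1 * q.1 + (k * q.2) * (k * q.2) ≠ 0 := by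
    intro q k hq hk
    obtain ⟨g0, g1, g2, g3⟩ := nonOct_scale hq hk
    dsimp only at g0 g1 g2 g3
    refine ⟨g0, mul_ne_zero g0 g1, fun h => g2 ?_, fun h => g3 ?_⟩
    · linear_combination h
    · linear_combination h
  obtain ⟨ra, r01, rpm, rq⟩ := fct hr (hκ a)
  obtain ⟨sa, s01, spm, sq⟩ := fct hs (hκ b)
  obtain ⟨ta, t01, tpm, tq⟩ := fct ht (hκ c)
  refine core4 _ _ _ _ _ _ (conn4 hA hab hac hbc haj hbj hcj hc) ra r01 rpm rq sa s01 spm sq
    ta t01 tpm tq ?_ ?_
  · linear_combination k0
  · linear_combination k1'

end AM
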