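import Pool.Agent.Lib.MP_b57e3c_ag.ThA

/-! Product expansion of the theta function when the off-diagonal entries are half-integers. -/

open Complex

namespace AM

open Classical in
/-- the graph of `τ`: `i` and `j` are adjacent iff `τ i j` is not an integer -/
noncomputable def adj {g : ℕ} (τ : Matrix (Fin g) (Fin g) ℂ) : Fin g → Fin g → Bool :=
  fun i j => decide (¬ ∃ k : ℤ, τ i j = k)

/-- the vectors `(s0, s1)` at the coordinates of `ζ` -/
noncomputable def PP {g : ℕ} (τ : Matrix (Fin g) (Fin g) ℂ) (ζ : Fin g → ℂ) : Fin g → ℂ × ℂ :=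
  fun i => (s0 (τ i i) (ζ i), s1 (τ i i) (ζ i))

theorem adj_sym {g : ℕ} {τ : Matrix (Fin g) (Fin g) ℂ} (hτ : Siegel τ) : Sym (adj τ) := by
  intro i j
  have h : τ i j = τ j i := (hτ.1.apply i j).symm
  unfold adj
  rw [h]

theorem diag_im_pos {g : ℕ} {τ : Matrix (Fin g) (Fin g) ℂ} (hτ : Siegel τ) (i : Fin g) :
    0 < (τ i i).im := by
  have h := hτ.2.diag_pos (i := i)
  simpa using h

/-- sum of a product over all tuples of integers -/
theorem hasSum_tuple (g : ℕ) (f : Fin g → ℤ → ℂ) (a : Fin g → ℂ)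
    (h : ∀ i, HasSum (f i) (a i)) : HasSum (fun m : Fin g → ℤ => ∏ i, f i (m i)) (∏ i, a i) := by
  induction g with
  | zero => simp
  | succ g ih =>
    have h1 : HasSum (fun m : Fin g → ℤ => ∏ i, f i.succ (m i)) (∏ i : Fin g, a i.succ) :=
      ih (fun i => f i.succ) (fun i => a i.succ) (fun i => h i.succ)
    have h0 : Summable fun n : ℤ => ‖f 0 n‖ := (h 0).summable.norm
    have h1' : Summable fun m : Fin g → ℤ => ‖∏ i, f i.succ (m i)‖ := h1.summable.norm
    have h3 := summable_mul_of_summable_norm h0 h1'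
    have h2 := HasSum.mul (h 0) h1 h3
    rw [Fin.prod_univ_succ, ← (Fin.consEquiv (fun _ : Fin (g + 1) => ℤ)).hasSum_iff]
    have h4 : ((fun m : Fin (g + 1) → ℤ => ∏ i, f i (m i)) ∘
        (Fin.consEquiv (fun _ : Fin (g + 1) => ℤ))) =
        fun x : ℤ × (Fin g → ℤ) => f 0 x.1 * ∏ i, f i.succ (x.2 i) := by
      funext x
      simp [Fin.consEquiv, Fin.prod_univ_succ]
    rw [h4]
    exact h2

/-- the off-diagonal terms of a symmetric double sum -/
theorem sum_sym {g : ℕ} (a : Fin g → Fin g → ℂ) (ha : ∀ i j, a i j = a j i) :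
    ∑ i, ∑ j, a i j = ∑ i, a i i + ∑ i, ∑ j, if i < j then 2 * a i j else 0 := by
  have h1 : ∀ i j, a i j = (if i = j then a i j else 0) + ((if i < j then a i j else 0)
      + (if j < i then a i j else 0)) := by
    intro i j
    rcases lt_trichotomy i j with h | h | h
    · simp [h, h.ne, h.not_gt]
    · subst h; simp
    · simp [h, h.ne', h.not_gt]
  have h2 : ∑ i, ∑ j, (if j < i then a i j else 0) = ∑ i, ∑ j, (if i < j then a i j else 0) := by
    rw [Finset.sum_comm]
    refine Finset.sum_congr rfl fun i _ => Finset.sum_congr rfl fun j _ => ?_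
    rw [ha j i]
  calc ∑ i, ∑ j, a i j = ∑ i, ∑ j, ((if i = j then a i j else 0) + ((if i < j then a i j else 0)
      + (if j < i then a i j else 0))) :=
        Finset.sum_congr rfl fun i _ => Finset.sum_congr rfl fun j _ => h1 i j
    _ = ∑ i, a i i + (∑ i, ∑ j, (if i < j then a i j else 0)
          + ∑ i, ∑ j, (if j < i then a i j else 0)) := by
        simp only [Finset.sum_add_distrib, Finset.sum_ite_eq, Finset.mem_univ, if_true]
    _ = _ := by
        rw [h2, ← Finset.sum_add_distrib]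
        congr 1
        refine Finset.sum_congr rfl fun i _ => ?_
        rw [← Finset.sum_add_distrib]
        refine Finset.sum_congr rfl fun j _ => ?_
        split_ifs
        · ring
        · ring

open Classical in
/-- the set of odd coordinates -/
noncomputable def oddSet {g : ℕ} (m : Fin g → ℤ) : Finset (Fin g) :=
  Finset.univ.filter fun i => ¬ Even (m i)

theorem cexp_pair {g : ℕ} {τ : Matrix (Fin g) (Fin g) ℂ} (hh : HalfInt τ) (m : Fin g → ℤ)
    {i j : Fin g} (hij : i < j) :
    cexp (Real.pi * I * (2 * ((m i : ℂ) * τ i j * (m j : ℂ)))) =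
      if i ∈ oddSet m ∧ j ∈ oddSet m ∧ adj τ i j = true then (-1 : ℂ) else 1 := by
  obtain ⟨k, hk⟩ := hh i j hij.ne
  have h1 : (Real.pi * I * (2 * ((m i : ℂ) * τ i j * (m j : ℂ))) : ℂ) =
      ((m i * k * m j : ℤ) : ℂ) * (Real.pi * I) := by
    push_cast
    rw [← hk]
    ring
  rw [h1, Complex.exp_int_mul, Complex.exp_pi_mul_I]
  have h2 : (adj τ i j = true) ↔ ¬ Even k := by
    classical
    unfold adj
    rw [decide_eq_true_eq, not_iff_not]
    constructor
    · rintro ⟨l, hl⟩
      refine ⟨l, ?_⟩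
      rw [hl] at hk
      have : ((2 * l : ℤ) : ℂ) = (k : ℂ) := by push_cast; exact hk
      have h3 := Int.cast_injective this
      omega
    · rintro ⟨l, hl⟩
      refine ⟨l, ?_⟩
      have h3 : (2 : ℂ) * τ i j = 2 * (l : ℂ) := by
        rw [hk, hl]; push_cast; ring
      exact mul_left_cancel₀ two_ne_zero h3
  have h3 : ∀ l, l ∈ oddSet m ↔ ¬ Even (m l) := by
    intro l
    unfold oddSet
    simp
  simp only [h2, h3]
  by_cases hp : ¬ Even (m i) ∧ ¬ Even (m j) ∧ ¬ Even k
  · rw [if_pos hp]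
    obtain ⟨e1, e2, e3⟩ := hp
    rw [Int.not_even_iff_odd] at e1 e2 e3
    exact Odd.neg_one_zpow ((e1.mul e3).mul e2)
  · rw [if_neg hp]
    refine Even.neg_one_zpow ?_
    rw [Int.even_mul, Int.even_mul]
    tauto

theorem term_eq {g : ℕ} {τ : Matrix (Fin g) (Fin g) ℂ} (hτ : Siegel τ) (hh : HalfInt τ)
    (ζ : Fin g → ℂ) (m : Fin g → ℤ) :
    cexp (Real.pi * I * (∑ i, ∑ j, (m i : ℂ) * τ i j * (m j : ℂ))
      + 2 * Real.pi * I * ∑ i, (m i : ℂ) * ζ i) =
    sgn (adj τ) (oddSet m) * ∏ i, jacobiTheta₂_term (m i) (ζ i) (τ i i) := by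
  have hs : ∀ i j, (m i : ℂ) * τ i j * (m j : ℂ) = (m j : ℂ) * τ j i * (m i : ℂ) := by
    intro i j
    have h : τ i j = τ j i := (hτ.1.apply i j).symm
    rw [h]; ring
  rw [sum_sym (fun i j => (m i : ℂ) * τ i j * (m j : ℂ)) hs]
  have h1 : (Real.pi * I * (∑ i, (m i : ℂ) * τ i i * (m i : ℂ)
        + ∑ i, ∑ j, if i < j then 2 * ((m i : ℂ) * τ i j * (m j : ℂ)) else 0)
      + 2 * Real.pi * I * ∑ i, (m i : ℂ) * ζ i : ℂ) =
      (∑ i, ∑ j, (if i < j then Real.pi * I * (2 * ((m i : ℂ) * τ i j * (m j : ℂ))) else 0)) +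
      ∑ i, (2 * Real.pi * I * (m i : ℂ) * ζ i + Real.pi * I * (m i : ℂ) ^ 2 * τ i i) := by
    rw [Finset.sum_add_distrib, mul_add, Finset.mul_sum, Finset.mul_sum, Finset.mul_sum]
    have e1 : ∀ i, (Real.pi * I * ∑ j, (if i < j then 2 * ((m i : ℂ) * τ i j * (m j : ℂ))
        else 0) : ℂ) = ∑ j, (if i < j then Real.pi * I * (2 * ((m i : ℂ) * τ i j * (m j : ℂ)))
        else 0) := by
      intro i
      rw [Finset.mul_sum]
      refine Finset.sum_congr rfl fun j _ => ?_
      rw [mul_ite, mul_zero]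
    rw [Finset.sum_congr rfl fun i _ => e1 i]
    have e2 : ∀ i, (Real.pi * I * ((m i : ℂ) * τ i i * (m i : ℂ)) : ℂ) =
        Real.pi * I * (m i : ℂ) ^ 2 * τ i i := fun i => by ring
    have e3 : ∀ i, (2 * Real.pi * I * ((m i : ℂ) * ζ i) : ℂ) =
        2 * Real.pi * I * (m i : ℂ) * ζ i := fun i => by ring
    rw [Finset.sum_congr rfl fun i _ => e2 i, Finset.sum_congr rfl fun i _ => e3 i]
    ring
  rw [h1, Complex.exp_add, Complex.exp_sum, Complex.exp_sum]
  congr 1
  unfold sgn
  have h2 : ∀ i, i ∈ oddSet m ↔ ¬ Even (m i) := by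
    intro i
    unfold oddSet
    simp
  have h3 : ∀ F : Fin g → ℂ, ∏ i ∈ oddSet m, F i = ∏ i, if i ∈ oddSet m then F i else 1 := by
    intro F
    rw [Finset.prod_ite_mem, Finset.univ_inter]
  rw [h3]
  refine Finset.prod_congr rfl fun i _ => ?_
  rw [Complex.exp_sum, h3]
  by_cases hi : i ∈ oddSet m
  · rw [if_pos hi]
    refine Finset.prod_congr rfl fun j _ => ?_
    by_cases hij : i < j
    · rw [if_pos hij, cexp_pair hh m hij]
      by_cases hj : j ∈ oddSet m
      · simp [hi, hj, hij]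
      · simp [hj]
    · rw [if_neg hij, Complex.exp_zero]
      simp [hij]
  · rw [if_neg hi]
    refine Finset.prod_eq_one fun j _ => ?_
    by_cases hij : i < j
    · rw [if_pos hij, cexp_pair hh m hij]
      simp [hi]
    · rw [if_neg hij, Complex.exp_zero]

theorem theta_eq {g : ℕ} {τ : Matrix (Fin g) (Fin g) ℂ} (hτ : Siegel τ) (hh : HalfInt τ)
    (ζ : Fin g → ℂ) : theta τ ζ = Phi Finset.univ (adj τ) (PP τ ζ) := by
  classical
  unfold theta Phi
  refine HasSum.tsum_eq ?_
  have hX : ∀ X : Finset (Fin g), HasSum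
      (fun m : Fin g → ℤ => sgn (adj τ) X * (if oddSet m = X then
        ∏ i, jacobiTheta₂_term (m i) (ζ i) (τ i i) else 0))
      (sgn (adj τ) X * ((∏ i ∈ X, (PP τ ζ i).2) * ∏ i ∈ Finset.univ \ X, (PP τ ζ i).1)) := by
    intro X
    refine HasSum.mul_left _ ?_
    have h1 := hasSum_tuple g
      (fun i n => (if Even n then (if i ∈ X then (0 : ℂ) else 1) else (if i ∈ X then 1 else 0)) *
        jacobiTheta₂_term n (ζ i) (τ i i))
      (fun i => (if i ∈ X then (0 : ℂ) else 1) * s0 (τ i i) (ζ i) +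
        (if i ∈ X then (1 : ℂ) else 0) * s1 (τ i i) (ζ i))
      (fun i => hasSum_split (diag_im_pos hτ i) (ζ i) _ _)
    have h2 : (∏ i, ((if i ∈ X then (0 : ℂ) else 1) * s0 (τ i i) (ζ i) +
        (if i ∈ X then (1 : ℂ) else 0) * s1 (τ i i) (ζ i))) =
        (∏ i ∈ X, (PP τ ζ i).2) * ∏ i ∈ Finset.univ \ X, (PP τ ζ i).1 := by
      rw [mul_comm, ← Finset.prod_sdiff (Finset.subset_univ X)]
      congr 1
      · refine Finset.prod_congr rfl fun i hi => ?_
        have : i ∉ X := by simpa using hi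
        simp [this, PP]
      · refine Finset.prod_congr rfl fun i hi => ?_
        simp [hi, PP]
    rw [h2] at h1
    suffices hF : ∀ m : Fin g → ℤ, (if oddSet m = X then
        ∏ i, jacobiTheta₂_term (m i) (ζ i) (τ i i) else 0) = ∏ i, (if Even (m i) then
          (if i ∈ X then (0 : ℂ) else 1) else (if i ∈ X then 1 else 0)) *
        jacobiTheta₂_term (m i) (ζ i) (τ i i) by
      rw [funext hF]
      exact h1
    intro m
    by_cases hm : oddSet m = X
    · rw [if_pos hm]
      refine Finset.prod_congr rfl fun i _ => ?_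
      have h3 : i ∈ X ↔ ¬ Even (m i) := by
        rw [← hm]
        unfold oddSet
        simp
      by_cases he : Even (m i)
      · have : i ∉ X := by rw [h3]; exact not_not.2 he
        simp [he, this]
      · have : i ∈ X := h3.2 he
        simp [he, this]
    · rw [if_neg hm]
      have h3 : ∃ i, ¬ (i ∈ X ↔ ¬ Even (m i)) := by
        by_contra hc
        push Not at hc
        apply hm
        ext i
        rw [hc i]
        unfold oddSet
        simp
      obtain ⟨i, hi⟩ := h3
      refine (Finset.prod_eq_zero (Finset.mem_univ i) ?_).symm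
      by_cases he : Even (m i)
      · have : i ∈ X := by
          by_contra hc
          exact hi ⟨fun h => absurd h hc, fun h => absurd he h⟩
        simp [he, this]
      · have : i ∉ X := by
          intro hc
          exact hi ⟨fun _ => he, fun _ => hc⟩
        simp [he, this]
  have hS := hasSum_sum (s := (Finset.univ : Finset (Fin g)).powerset) (fun X _ => hX X)
  convert hS using 1
  funext m
  rw [term_eq hτ hh ζ m, Finset.sum_eq_single (oddSet m)]
  · rw [if_pos rfl]
  · intro X _ hX'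
    rw [if_neg (Ne.symm hX'), mul_zero]
  · intro h
    exact absurd (Finset.mem_powerset.2 (Finset.subset_univ _)) h

end AM
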