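import Pool.Agent.Lib.MP_b57e3c_ag.ThC
import Pool.Agent.Lib.MP_b57e3c_ag.ThG
import Pool.Agent.Lib.MP_b57e3c_ag.GrA

/-! At a singular point of the theta divisor the contraction in every unramified slot vanishes. -/

open Complex

namespace AM

theorem slot_zero {g : ℕ} {τ : Matrix (Fin g) (Fin g) ℂ} (hτ : Siegel τ) (hh : HalfInt τ)
    {ζ : Fin g → ℂ} (hs : ζ ∈ singTheta τ) {i : Fin g} (hw : wr (τ i i) (ζ i) ≠ 0) (x : Bool) :
    Phi Finset.univ (adj τ) (Function.update (PP τ ζ) i (ev x)) = 0 := by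
  obtain ⟨h0, h1⟩ := hs
  have him := diag_im_pos hτ i
  set α := Phi Finset.univ (adj τ) (Function.update (PP τ ζ) i (ev false)) with hα
  set β := Phi Finset.univ (adj τ) (Function.update (PP τ ζ) i (ev true)) with hβ
  -- theta along the line
  have hline : ∀ u : ℂ, theta τ (Function.update ζ i u) =
      s0 (τ i i) u * α + s1 (τ i i) u * β := by
    intro u
    rw [theta_eq hτ hh]
    have e : PP τ (Function.update ζ i u) =
        Function.update (PP τ ζ) i (s0 (τ i i) u, s1 (τ i i) u) := by
      funext j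
      by_cases hj : j = i
      · subst hj
        simp [PP]
      · simp [PP, Function.update_of_ne hj]
    rw [e, Phi_lin (Finset.mem_univ i)]
  -- the value
  have hv : s0 (τ i i) (ζ i) * α + s1 (τ i i) (ζ i) * β = 0 := by
    rw [← hline, Function.update_eq_self]
    exact h0
  -- the derivative
  have hd1 : HasDerivAt (fun u : ℂ => theta τ (Function.update ζ i u)) 0 (ζ i) := by
    have h2 : HasDerivAt (fun u : ℂ => Function.update ζ i u) (Pi.single i (1 : ℂ)) (ζ i) :=
      hasDerivAt_update ζ i (ζ i)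
    have h3 : HasFDerivAt (theta τ) (0 : (Fin g → ℂ) →L[ℂ] ℂ) (Function.update ζ i (ζ i)) := by
      rw [Function.update_eq_self]
      exact h1
    have h4 := h3.comp_hasDerivAt (ζ i) h2
    rw [_root_.zero_apply] at h4
    exact h4
  have hd2 : HasDerivAt (fun u : ℂ => theta τ (Function.update ζ i u))
      (deriv (s0 (τ i i)) (ζ i) * α + deriv (s1 (τ i i)) (ζ i) * β) (ζ i) := by
    have e : (fun u : ℂ => theta τ (Function.update ζ i u)) =
        fun u => s0 (τ i i) u * α + s1 (τ i i) u * β := funext hline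
    rw [e]
    exact ((differentiable_s0 him (ζ i)).hasDerivAt.mul_const α).add
      ((differentiable_s1 him (ζ i)).hasDerivAt.mul_const β)
  have hd : deriv (s0 (τ i i)) (ζ i) * α + deriv (s1 (τ i i)) (ζ i) * β = 0 :=
    hd2.unique hd1
  unfold wr at hw
  have ha : α = 0 := by
    have : (s0 (τ i i) (ζ i) * deriv (s1 (τ i i)) (ζ i) -
        s1 (τ i i) (ζ i) * deriv (s0 (τ i i)) (ζ i)) * α = 0 := by
      linear_combination (deriv (s1 (τ i i)) (ζ i)) * hv - (s1 (τ i i) (ζ i)) * hd
    exact (mul_eq_zero.1 this).resolve_left hw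
  have hb : β = 0 := by
    have : (s0 (τ i i) (ζ i) * deriv (s1 (τ i i)) (ζ i) -
        s1 (τ i i) (ζ i) * deriv (s0 (τ i i)) (ζ i)) * β = 0 := by
      linear_combination (s0 (τ i i) (ζ i)) * hd - (deriv (s0 (τ i i)) (ζ i)) * hv
    exact (mul_eq_zero.1 this).resolve_left hw
  cases x
  · exact ha
  · exact hb

end AM
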