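import Pool.Agent.Lib.MP_b57e3c_ag.ThD
import Pool.Agent.Lib.MP_b57e3c_ag.GrD
import Pool.Agent.Lib.MP_b57e3c_ag.Sm4
import Pool.Agent.Lib.MP_b57e3c_ag.Hd
import Pool.Agent.Lib.MP_b57e3c_ag.Loc
import Pool.Agent.Lib.MP_b57e3c_ag.Sng
import Pool.Agent.Lib.MP_b57e3c_ag.Dec

/-! Theorem A: assembly. -/

open Complex Finset

namespace AM

variable {g : ℕ}

theorem scl_one {α : Type*} [LinearOrder α] (p : α → ℂ × ℂ) : scl (fun _ => 1) p = p := by
  funext j; simp [scl]

theorem PP_fst (τ : Matrix (Fin g) (Fin g) ℂ) (ζ : Fin g → ℂ) (i : Fin g) :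
    (PP τ ζ i).1 = s0 (τ i i) (ζ i) := rfl

theorem PP_snd (τ : Matrix (Fin g) (Fin g) ℂ) (ζ : Fin g → ℂ) (i : Fin g) :
    (PP τ ζ i).2 = s1 (τ i i) (ζ i) := rfl

theorem PP_ne {τ : Matrix (Fin g) (Fin g) ℂ} (hτ : Siegel τ) (ζ : Fin g → ℂ) (i : Fin g) :
    PP τ ζ i ≠ 0 := by
  intro h
  refine no_common (diag_im_pos hτ i) (ζ i) ⟨?_, ?_⟩
  · have := congrArg Prod.fst h; simpa [PP] using this
  · have := congrArg Prod.snd h; simpa [PP] using this

/-- differentiability of the polynomials in the theta vectors -/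
theorem diff_upd3 {τ : Matrix (Fin g) (Fin g) ℂ} (hτ : Siegel τ) (V : Finset (Fin g))
    (A : Fin g → Fin g → Bool) (a b c : Fin g) (u v w : ℂ × ℂ) :
    Differentiable ℂ (fun ζ => Phi V A (upd3 (PP τ ζ) a b c u v w)) := by
  have key0 : ∀ i, Differentiable ℂ (fun ζ : Fin g → ℂ => (upd3 (PP τ ζ) a b c u v w i).1) := by
    intro i
    by_cases hc : i = c
    · subst hc; simp only [upd3, Function.update_self]; exact differentiable_const _
    by_cases hb : i = b
    · subst hb
      simp only [upd3, Function.update_of_ne hc, Function.update_self]; exact differentiable_const _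
    by_cases ha : i = a
    · subst ha
      simp only [upd3, Function.update_of_ne hc, Function.update_of_ne hb, Function.update_self]
      exact differentiable_const _
    simp only [upd3, Function.update_of_ne hc, Function.update_of_ne hb, Function.update_of_ne ha]
    exact (differentiable_s0 (diag_im_pos hτ i)).comp (differentiable_apply i)
  have key1 : ∀ i, Differentiable ℂ (fun ζ : Fin g → ℂ => (upd3 (PP τ ζ) a b c u v w i).2) := by
    intro i
    by_cases hc : i = c
    · subst hc; simp only [upd3, Function.update_self]; exact differentiable_const _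
    by_cases hb : i = b
    · subst hb
      simp only [upd3, Function.update_of_ne hc, Function.update_self]; exact differentiable_const _
    by_cases ha : i = a
    · subst ha
      simp only [upd3, Function.update_of_ne hc, Function.update_of_ne hb, Function.update_self]
      exact differentiable_const _
    simp only [upd3, Function.update_of_ne hc, Function.update_of_ne hb, Function.update_of_ne ha]
    exact (differentiable_s1 (diag_im_pos hτ i)).comp (differentiable_apply i)
  exact differentiable_Phi V A (fun i _ => key0 i) (fun i _ => key1 i)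

/-- `upd3` forgets the three slots -/
theorem upd3_congr {τ : Matrix (Fin g) (Fin g) ℂ} {a b c : Fin g} {ζ ζ' : Fin g → ℂ}
    (h : ∀ i, i ∉ ({a, b, c} : Finset (Fin g)) → ζ i = ζ' i) (u v w : ℂ × ℂ) :
    upd3 (PP τ ζ) a b c u v w = upd3 (PP τ ζ') a b c u v w := by
  funext i
  by_cases hc : i = c
  · subst hc; simp [upd3]
  by_cases hb : i = b
  · subst hb; simp [upd3, Function.update_of_ne hc]
  by_cases ha : i = a
  · subst ha; simp [upd3, Function.update_of_ne hc, Function.update_of_ne hb]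
  simp only [upd3, Function.update_of_ne hc, Function.update_of_ne hb, Function.update_of_ne ha]
  have := h i (by simp [ha, hb, hc])
  simp [PP, this]

/-- choice of a point with prescribed octahedral ratios outside `U` -/
theorem exists_point {τ : Matrix (Fin g) (Fin g) ℂ} (hτ : Siegel τ) {ρ : Fin g → ℂ}
    (hρ : ∀ v, ρ v = 0 ∨ ρ v = 1 ∨ ρ v = -1 ∨ ρ v = I ∨ ρ v = -I) :
    ∃ ζ : Fin g → ℂ, ∀ i, (PP τ ζ i).2 = ρ i * (PP τ ζ i).1 ∧ (PP τ ζ i).1 ≠ 0 := by
  choose z hz using fun i => exists_ratio (diag_im_pos hτ i) (hρ i)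
  exact ⟨z, fun i => hz i⟩

/-- the data of an immersed piece -/
structure Piece (τ : Matrix (Fin g) (Fin g) ℂ) (a b c : Fin g) {k : ℕ} (O : Set (Fin k → ℂ))
    (f : (Fin k → ℂ) → (Fin g → ℂ)) : Prop where
  hab : a ≠ b
  hac : a ≠ c
  hbc : b ≠ c
  ne : O.Nonempty
  sing : ∀ u ∈ O, f u ∈ singTheta τ
  ext : ∀ D : (Fin g → ℂ) → ℂ, Differentiable ℂ D →
        (∀ ζ ζ' : Fin g → ℂ, (∀ i, i ∉ ({a, b, c} : Finset (Fin g)) → ζ i = ζ' i) → D ζ = D ζ') →
        (∀ u ∈ O, D (f u) = 0) → ∀ ζ, D ζ = 0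

theorem Piece.swap12 {τ : Matrix (Fin g) (Fin g) ℂ} {a b c : Fin g} {k : ℕ}
    {O : Set (Fin k → ℂ)} {f : (Fin k → ℂ) → (Fin g → ℂ)} (h : Piece τ a b c O f) :
    Piece τ b a c O f :=
  ⟨h.hab.symm, h.hbc, h.hac, h.ne, h.sing, fun D hD h1 => h.ext D hD
    (fun ζ ζ' hz => h1 ζ ζ' (fun i hi => hz i (by simpa [and_comm, and_left_comm, or_comm, or_left_comm, not_or] using hi)))⟩

theorem Piece.swap23 {τ : Matrix (Fin g) (Fin g) ℂ} {a b c : Fin g} {k : ℕ}
    {O : Set (Fin k → ℂ)} {f : (Fin k → ℂ) → (Fin g → ℂ)} (h : Piece τ a b c O f) :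
    Piece τ a c b O f :=
  ⟨h.hac, h.hab, h.hbc.symm, h.ne, h.sing, fun D hD h1 => h.ext D hD
    (fun ζ ζ' hz => h1 ζ ζ' (fun i hi => hz i (by simpa [and_comm, and_left_comm, or_comm, or_left_comm, not_or] using hi)))⟩

theorem lin_slot (A : Fin g → Fin g → Bool) (q : Fin g → ℂ × ℂ) (i : Fin g) :
    Phi univ A q = (q i).1 * Phi univ A (Function.update q i (ev false)) +
      (q i).2 * Phi univ A (Function.update q i (ev true)) := by
  have h := Phi_lin (Finset.mem_univ i) A q (q i).1 (q i).2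
  rwa [Prod.mk.eta, Function.update_eq_self] at h

theorem upd3_of_ne {α : Type*} [LinearOrder α] (p : α → ℂ × ℂ) {a b c i : α} (ha : i ≠ a)
    (hb : i ≠ b) (hc : i ≠ c) (u v w : ℂ × ℂ) : upd3 p a b c u v w i = p i := by
  simp only [upd3, Function.update_of_ne hc, Function.update_of_ne hb, Function.update_of_ne ha]

/-- `upd3` as updates in the order `c, a, b` -/
theorem upd3_cab {α : Type*} [LinearOrder α] (p : α → ℂ × ℂ) {a b c : α} (_hab : a ≠ b)
    (hac : a ≠ c) (hbc : b ≠ c) (u v w : ℂ × ℂ) :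
    Function.update (Function.update (Function.update p c w) a u) b v = upd3 p a b c u v w := by
  unfold upd3
  rw [Function.update_comm hac.symm, Function.update_comm hbc.symm]

theorem upd3_bac {α : Type*} [LinearOrder α] (p : α → ℂ × ℂ) {a b c : α} (hab : a ≠ b)
    (_hac : a ≠ c) (_hbc : b ≠ c) (u v w : ℂ × ℂ) :
    Function.update (Function.update (Function.update p b v) a u) c w = upd3 p a b c u v w := by
  unfold upd3
  rw [Function.update_comm hab.symm]

theorem contr_c (A : Fin g → Fin g → Bool) (p : Fin g → ℂ × ℂ) {a b c : Fin g} (hab : a ≠ b)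
    (hac : a ≠ c) (hbc : b ≠ c) (w : ℂ × ℂ) :
    (p a).1 * (p b).1 * Phi univ A (upd3 p a b c (ev false) (ev false) w)
      + (p a).1 * (p b).2 * Phi univ A (upd3 p a b c (ev false) (ev true) w)
      + (p a).2 * (p b).1 * Phi univ A (upd3 p a b c (ev true) (ev false) w)
      + (p a).2 * (p b).2 * Phi univ A (upd3 p a b c (ev true) (ev true) w)
    = Phi univ A (Function.update p c w) := by
  have h1 := lin_slot A (Function.update p c w) a
  rw [Function.update_of_ne hac] at h1
  have h2 : ∀ x, Phi univ A (Function.update (Function.update p c w) a x) =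
      (p b).1 * Phi univ A (upd3 p a b c x (ev false) w)
        + (p b).2 * Phi univ A (upd3 p a b c x (ev true) w) := by
    intro x
    have := lin_slot A (Function.update (Function.update p c w) a x) b
    rw [Function.update_of_ne hab.symm, Function.update_of_ne hbc, upd3_cab p hab hac hbc,
      upd3_cab p hab hac hbc] at this
    exact this
  rw [h1, h2, h2]; ring

theorem contr_b (A : Fin g → Fin g → Bool) (p : Fin g → ℂ × ℂ) {a b c : Fin g} (hab : a ≠ b)
    (hac : a ≠ c) (hbc : b ≠ c) (w : ℂ × ℂ) :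
    (p a).1 * (p c).1 * Phi univ A (upd3 p a b c (ev false) w (ev false))
      + (p a).1 * (p c).2 * Phi univ A (upd3 p a b c (ev false) w (ev true))
      + (p a).2 * (p c).1 * Phi univ A (upd3 p a b c (ev true) w (ev false))
      + (p a).2 * (p c).2 * Phi univ A (upd3 p a b c (ev true) w (ev true))
    = Phi univ A (Function.update p b w) := by
  have h1 := lin_slot A (Function.update p b w) a
  rw [Function.update_of_ne hab] at h1
  have h2 : ∀ x, Phi univ A (Function.update (Function.update p b w) a x) =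
      (p c).1 * Phi univ A (upd3 p a b c x w (ev false))
        + (p c).2 * Phi univ A (upd3 p a b c x w (ev true)) := by
    intro x
    have := lin_slot A (Function.update (Function.update p b w) a x) c
    rw [Function.update_of_ne hac.symm, Function.update_of_ne hbc.symm, upd3_bac p hab hac hbc,
      upd3_bac p hab hac hbc] at this
    exact this
  rw [h1, h2, h2]; ring

theorem contr_a (A : Fin g → Fin g → Bool) (p : Fin g → ℂ × ℂ) {a b c : Fin g} (hab : a ≠ b)
    (hac : a ≠ c) (hbc : b ≠ c) (w : ℂ × ℂ) :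
    (p b).1 * (p c).1 * Phi univ A (upd3 p a b c w (ev false) (ev false))
      + (p b).1 * (p c).2 * Phi univ A (upd3 p a b c w (ev false) (ev true))
      + (p b).2 * (p c).1 * Phi univ A (upd3 p a b c w (ev true) (ev false))
      + (p b).2 * (p c).2 * Phi univ A (upd3 p a b c w (ev true) (ev true))
    = Phi univ A (Function.update p a w) := by
  have h1 := lin_slot A (Function.update p a w) b
  rw [Function.update_of_ne hab.symm] at h1
  have h2 : ∀ x, Phi univ A (Function.update (Function.update p a w) b x) =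
      (p c).1 * Phi univ A (upd3 p a b c w x (ev false))
        + (p c).2 * Phi univ A (upd3 p a b c w x (ev true)) := by
    intro x
    have := lin_slot A (Function.update (Function.update p a w) b x) c
    rw [Function.update_of_ne hbc.symm, Function.update_of_ne hac.symm] at this
    exact this
  rw [h1, h2, h2]; ring

theorem diff_hdet {E : Type*} [NormedAddCommGroup E] [NormedSpace ℂ E]
    {F : Bool → Bool → Bool → E → ℂ} (hF : ∀ x y z, Differentiable ℂ (F x y z)) :
    Differentiable ℂ (fun ζ => hdet (fun x y z => F x y z ζ)) := by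
  have h000 := hF false false false
  have h001 := hF false false true
  have h010 := hF false true false
  have h011 := hF false true true
  have h100 := hF true false false
  have h101 := hF true false true
  have h110 := hF true true false
  have h111 := hF true true true
  unfold hdet
  fun_prop

/-- reduction to the three vertices -/
theorem reduce3 {τ : Matrix (Fin g) (Fin g) ℂ} (hτ : Siegel τ)
    (hcon : Conn (adj τ) univ) (a b c : Fin g) :
    ∃ (A' : Fin g → Fin g → Bool) (κ' : Fin g → ℂ) (C : ℂ) (ζ : Fin g → ℂ),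
      Sym A' ∧ Conn A' {a, b, c} ∧ (∀ i, κ' i ^ 4 = 1) ∧ C ≠ 0 ∧
      ∀ u v w : ℂ × ℂ, Phi univ (adj τ) (upd3 (PP τ ζ) a b c u v w) =
        C * Phi {a, b, c} A' (scl κ' (upd3 (PP τ ζ) a b c u v w)) := by
  obtain ⟨ρ, A', κ', C, hρ, hA', hc', hκ', hC, hp⟩ :=
    reduce (U := {a, b, c}) (V := univ) (Finset.subset_univ _) (adj_sym hτ) hcon
      (κ := fun _ => 1) (fun _ => by norm_num)
  obtain ⟨ζ, hζ⟩ := exists_point hτ hρ
  refine ⟨A', κ', C * ∏ v ∈ univ \ {a, b, c}, (PP τ ζ v).1, ζ, hA', hc', hκ', ?_, ?_⟩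
  · exact mul_ne_zero hC (Finset.prod_ne_zero_iff.2 fun i _ => (hζ i).2)
  intro u v w
  have hout : ∀ i ∈ univ \ ({a, b, c} : Finset (Fin g)),
      upd3 (PP τ ζ) a b c u v w i = PP τ ζ i := by
    intro i hi
    simp only [Finset.mem_sdiff, Finset.mem_univ, true_and, Finset.mem_insert,
      Finset.mem_singleton, not_or] at hi
    exact upd3_of_ne _ hi.1 hi.2.1 hi.2.2 u v w
  have h := hp (upd3 (PP τ ζ) a b c u v w) (fun i hi => by rw [hout i hi]; exact (hζ i).1)
  rw [scl_one] at h
  rw [h, Finset.prod_congr rfl (fun i hi => by rw [hout i hi])]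

theorem case0 {τ : Matrix (Fin g) (Fin g) ℂ} (hτ : Siegel τ) (hh : HalfInt τ)
    (hcon : Conn (adj τ) univ) {a b c : Fin g} {k : ℕ}
    {O : Set (Fin k → ℂ)} {f : (Fin k → ℂ) → (Fin g → ℂ)} (h : Piece τ a b c O f)
    (ha : ∀ u ∈ O, wr (τ a a) (f u a) ≠ 0) (hb : ∀ u ∈ O, wr (τ b b) (f u b) ≠ 0)
    (hc : ∀ u ∈ O, wr (τ c c) (f u c) ≠ 0) : False := by
  have hD := h.ext (fun ζ => hdet (fun x y z =>
      Phi univ (adj τ) (upd3 (PP τ ζ) a b c (ev x) (ev y) (ev z))))
    (diff_hdet (fun x y z => diff_upd3 hτ univ (adj τ) a b c (ev x) (ev y) (ev z)))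
    (fun ζ ζ' hz => by
      have : ∀ x y z : Bool, upd3 (PP τ ζ) a b c (ev x) (ev y) (ev z) =
        upd3 (PP τ ζ') a b c (ev x) (ev y) (ev z) := fun x y z => upd3_congr hz _ _ _
      simp only [this])
    (fun u hu => by
      refine hdet_zero _ (PP τ (f u) a) (PP τ (f u) b) (PP τ (f u) c) (PP_ne hτ _ _) (PP_ne hτ _ _)
        (PP_ne hτ _ _) ?_ ?_ ?_
      · intro k
        rw [contr_c (adj τ) (PP τ (f u)) h.hab h.hac h.hbc (ev k)]
        exact slot_zero hτ hh (h.sing u hu) (hc u hu) k
      · intro k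
        rw [contr_b (adj τ) (PP τ (f u)) h.hab h.hac h.hbc (ev k)]
        exact slot_zero hτ hh (h.sing u hu) (hb u hu) k
      · intro k
        rw [contr_a (adj τ) (PP τ (f u)) h.hab h.hac h.hbc (ev k)]
        exact slot_zero hτ hh (h.sing u hu) (ha u hu) k)
  obtain ⟨A', κ', C, ζ, hA', hc', hκ', hC, hp⟩ := reduce3 hτ hcon a b c
  have h1 := hD ζ
  simp only [hp] at h1
  rw [hdet_smul] at h1
  exact mul_ne_zero (pow_ne_zero 4 hC) (hdet3 hA' h.hab h.hac h.hbc hc' hκ' _) h1

theorem case1 {τ : Matrix (Fin g) (Fin g) ℂ} (hτ : Siegel τ) (hh : HalfInt τ)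
    (hcon : Conn (adj τ) univ) {a b c : Fin g} {k : ℕ}
    {O : Set (Fin k → ℂ)} {f : (Fin k → ℂ) → (Fin g → ℂ)} (h : Piece τ a b c O f)
    {xa : ℂ} (hxa : wr (τ a a) xa = 0) (ha : ∀ u ∈ O, f u a = xa)
    (hb : ∀ u ∈ O, wr (τ b b) (f u b) ≠ 0) : False := by
  set r : ℂ × ℂ := (s0 (τ a a) xa, s1 (τ a a) xa) with hr
  have hrn : NonOct r := nonOct_of_wr (diag_im_pos hτ a) hxa
  have hD := h.ext (fun ζ =>
      Phi univ (adj τ) (upd3 (PP τ ζ) a b c r (ev false) (ev false)) *
        Phi univ (adj τ) (upd3 (PP τ ζ) a b c r (ev true) (ev true)) -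
      Phi univ (adj τ) (upd3 (PP τ ζ) a b c r (ev false) (ev true)) *
        Phi univ (adj τ) (upd3 (PP τ ζ) a b c r (ev true) (ev false)))
    (((diff_upd3 hτ univ (adj τ) a b c _ _ _).mul (diff_upd3 hτ univ (adj τ) a b c _ _ _)).sub
      ((diff_upd3 hτ univ (adj τ) a b c _ _ _).mul (diff_upd3 hτ univ (adj τ) a b c _ _ _)))
    (fun ζ ζ' hz => by
      have : ∀ x y z : ℂ × ℂ, upd3 (PP τ ζ) a b c x y z =
        upd3 (PP τ ζ') a b c x y z := fun x y z => upd3_congr hz _ _ _
      simp only [this])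
    (fun u hu => by
      have hra : PP τ (f u) a = r := by simp [PP, hr, ha u hu]
      -- contraction in slot b vanishes, expand in slot c
      have key : ∀ x : Bool, (PP τ (f u) c).1 *
            Phi univ (adj τ) (upd3 (PP τ (f u)) a b c r (ev x) (ev false)) +
          (PP τ (f u) c).2 *
            Phi univ (adj τ) (upd3 (PP τ (f u)) a b c r (ev x) (ev true)) = 0 := by
        intro x
        have h0 := slot_zero hτ hh (h.sing u hu) (hb u hu) x
        have h1 := lin_slot (adj τ) (Function.update (PP τ (f u)) b (ev x)) c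
        rw [Function.update_of_ne h.hbc.symm] at h1
        have h2 : ∀ w : ℂ × ℂ, Function.update (Function.update (PP τ (f u)) b (ev x)) c w =
            upd3 (PP τ (f u)) a b c r (ev x) w := by
          intro w
          unfold upd3
          rw [← hra, Function.update_eq_self]
        rw [h2, h2] at h1
        rw [← h1]; exact h0
      have hne := PP_ne hτ (f u) c
      have k0 := key false
      have k1 := key true
      by_cases h1 : (PP τ (f u) c).1 = 0
      · have h2 : (PP τ (f u) c).2 ≠ 0 := by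
          intro h2; exact hne (Prod.ext h1 h2)
        rw [h1, zero_mul, zero_add] at k0 k1
        have e0 := (mul_eq_zero.1 k0).resolve_left h2
        have e1 := (mul_eq_zero.1 k1).resolve_left h2
        rw [e0, e1]; ring
      · apply mul_left_cancel₀ h1
        linear_combination
          (Phi univ (adj τ) (upd3 (PP τ (f u)) a b c r (ev true) (ev true))) * k0 -
          (Phi univ (adj τ) (upd3 (PP τ (f u)) a b c r (ev false) (ev true))) * k1)
  obtain ⟨A', κ', C, ζ, hA', hc', hκ', hC, hp⟩ := reduce3 hτ hcon a b c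
  have h1 := hD ζ
  simp only [hp] at h1
  have h2 := det3 hA' h.hab h.hac h.hbc hc' hκ' (PP τ ζ) hrn
  apply h2
  have h3 : C * C ≠ 0 := mul_ne_zero hC hC
  apply mul_left_cancel₀ h3
  linear_combination h1

theorem case2 {τ : Matrix (Fin g) (Fin g) ℂ} (hτ : Siegel τ) (hh : HalfInt τ)
    (hcon : Conn (adj τ) univ) {a b c : Fin g} {k : ℕ}
    {O : Set (Fin k → ℂ)} {f : (Fin k → ℂ) → (Fin g → ℂ)} (h : Piece τ a b c O f)
    {xa xb : ℂ} (hxa : wr (τ a a) xa = 0) (ha : ∀ u ∈ O, f u a = xa)
    (hxb : wr (τ b b) xb = 0) (hb : ∀ u ∈ O, f u b = xb)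
    (hc : ∀ u ∈ O, wr (τ c c) (f u c) ≠ 0) : False := by
  set r : ℂ × ℂ := (s0 (τ a a) xa, s1 (τ a a) xa) with hr
  set s : ℂ × ℂ := (s0 (τ b b) xb, s1 (τ b b) xb) with hs
  have hrn : NonOct r := nonOct_of_wr (diag_im_pos hτ a) hxa
  have hsn : NonOct s := nonOct_of_wr (diag_im_pos hτ b) hxb
  have hD := fun x : Bool => h.ext (fun ζ =>
      Phi univ (adj τ) (upd3 (PP τ ζ) a b c r s (ev x)))
    (diff_upd3 hτ univ (adj τ) a b c _ _ _)
    (fun ζ ζ' hz => by
      have : ∀ x y z : ℂ × ℂ, upd3 (PP τ ζ) a b c x y z =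
        upd3 (PP τ ζ') a b c x y z := fun x y z => upd3_congr hz _ _ _
      simp only [this])
    (fun u hu => by
      have hra : PP τ (f u) a = r := by simp [PP, hr, ha u hu]
      have hsb : PP τ (f u) b = s := by simp [PP, hs, hb u hu]
      have h0 := slot_zero hτ hh (h.sing u hu) (hc u hu) x
      have : upd3 (PP τ (f u)) a b c r s (ev x) = Function.update (PP τ (f u)) c (ev x) := by
        unfold upd3
        rw [← hra, ← hsb, Function.update_eq_self, Function.update_eq_self]
      rw [this]; exact h0)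
  obtain ⟨A', κ', C, ζ, hA', hc', hκ', hC, hp⟩ := reduce3 hτ hcon a b c
  refine vec3 hA' h.hab h.hac h.hbc hc' hκ' (PP τ ζ) hrn hsn (fun x => ?_)
  have h1 := hD x ζ
  simp only [hp] at h1
  exact (mul_eq_zero.1 h1).resolve_left hC

theorem case3 {τ : Matrix (Fin g) (Fin g) ℂ} (hg : 4 ≤ g) (hτ : Siegel τ) (hh : HalfInt τ)
    (hcon : Conn (adj τ) univ) {a b c : Fin g} {k : ℕ}
    {O : Set (Fin k → ℂ)} {f : (Fin k → ℂ) → (Fin g → ℂ)} (h : Piece τ a b c O f)
    {xa xb xc : ℂ} (hxa : wr (τ a a) xa = 0) (ha : ∀ u ∈ O, f u a = xa)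
    (hxb : wr (τ b b) xb = 0) (hb : ∀ u ∈ O, f u b = xb)
    (hxc : wr (τ c c) xc = 0) (hc : ∀ u ∈ O, f u c = xc) : False := by
  set r : ℂ × ℂ := (s0 (τ a a) xa, s1 (τ a a) xa) with hr
  set s : ℂ × ℂ := (s0 (τ b b) xb, s1 (τ b b) xb) with hs
  set t : ℂ × ℂ := (s0 (τ c c) xc, s1 (τ c c) xc) with ht
  have hrn : NonOct r := nonOct_of_wr (diag_im_pos hτ a) hxa
  have hsn : NonOct s := nonOct_of_wr (diag_im_pos hτ b) hxb
  have htn : NonOct t := nonOct_of_wr (diag_im_pos hτ c) hxc
  have hD := h.ext (fun ζ => Phi univ (adj τ) (upd3 (PP τ ζ) a b c r s t))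
    (diff_upd3 hτ univ (adj τ) a b c _ _ _)
    (fun ζ ζ' hz => by
      have : ∀ x y z : ℂ × ℂ, upd3 (PP τ ζ) a b c x y z =
        upd3 (PP τ ζ') a b c x y z := fun x y z => upd3_congr hz _ _ _
      simp only [this])
    (fun u hu => by
      have hra : PP τ (f u) a = r := by simp [PP, hr, ha u hu]
      have hsb : PP τ (f u) b = s := by simp [PP, hs, hb u hu]
      have htc : PP τ (f u) c = t := by simp [PP, ht, hc u hu]
      have : upd3 (PP τ (f u)) a b c r s t = PP τ (f u) := by
        unfold upd3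
        rw [← hra, ← hsb, ← htc, Function.update_eq_self, Function.update_eq_self,
          Function.update_eq_self]
      rw [this, ← theta_eq hτ hh]
      exact (h.sing u hu).1)
  -- a fourth vertex
  obtain ⟨j, hj⟩ : ∃ j : Fin g, j ∉ ({a, b, c} : Finset (Fin g)) := by
    by_contra hcon'
    push Not at hcon'
    have h1 : (univ : Finset (Fin g)) ⊆ {a, b, c} := fun i _ => hcon' i
    have h2 := Finset.card_le_card h1
    have h3 : ({a, b, c} : Finset (Fin g)).card ≤ 3 := Finset.card_le_three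
    simp only [Finset.card_univ, Fintype.card_fin] at h2
    omega
  simp only [Finset.mem_insert, Finset.mem_singleton, not_or] at hj
  obtain ⟨hja, hjb, hjc⟩ := hj
  have htj := diag_im_pos hτ j
  -- the two components in slot j vanish
  have hvec : ∀ ζ : Fin g → ℂ, ∀ x : Bool,
      Phi univ (adj τ) (Function.update (upd3 (PP τ ζ) a b c r s t) j (ev x)) = 0 := by
    intro ζ
    have hz : ∀ y : ℂ, s0 (τ j j) y *
          Phi univ (adj τ) (Function.update (upd3 (PP τ ζ) a b c r s t) j (ev false)) +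
        s1 (τ j j) y *
          Phi univ (adj τ) (Function.update (upd3 (PP τ ζ) a b c r s t) j (ev true)) = 0 := by
      intro y
      have h0 := hD (Function.update ζ j y)
      have h1 := lin_slot (adj τ) (upd3 (PP τ (Function.update ζ j y)) a b c r s t) j
      rw [upd3_of_ne _ hja hjb hjc] at h1
      have h2 : ∀ w : ℂ × ℂ,
          Function.update (upd3 (PP τ (Function.update ζ j y)) a b c r s t) j w =
          Function.update (upd3 (PP τ ζ) a b c r s t) j w := by
        intro w
        funext i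
        by_cases hi : i = j
        · subst hi; simp
        rw [Function.update_of_ne hi, Function.update_of_ne hi]
        by_cases hic : i = c
        · subst hic; simp [upd3]
        by_cases hib : i = b
        · subst hib; simp [upd3, Function.update_of_ne hic]
        by_cases hia : i = a
        · subst hia; simp [upd3, Function.update_of_ne hic, Function.update_of_ne hib]
        rw [upd3_of_ne _ hia hib hic, upd3_of_ne _ hia hib hic]
        simp [PP, Function.update_of_ne hi]
      rw [h2, h2] at h1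
      have h3 : PP τ (Function.update ζ j y) j = (s0 (τ j j) y, s1 (τ j j) y) := by simp [PP]
      rw [h3] at h1
      rw [← h1]; exact h0
    obtain ⟨y0, hy0, hy0'⟩ := exists_ratio htj (ρ := 0) (Or.inl rfl)
    obtain ⟨y1, hy1, hy1'⟩ := exists_ratio htj (ρ := 1) (Or.inr (Or.inl rfl))
    have e0 := hz y0
    rw [hy0, zero_mul, zero_mul, add_zero] at e0
    have e0' := (mul_eq_zero.1 e0).resolve_left hy0'
    have e1 := hz y1
    rw [hy1, one_mul, e0', mul_zero, zero_add] at e1
    have e1' := (mul_eq_zero.1 e1).resolve_left hy1'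
    intro x
    cases x
    · exact e0'
    · exact e1'
  obtain ⟨ρ, A', κ', C, hρ, hA', hc', hκ', hC, hp⟩ :=
    reduce (U := {a, b, c, j}) (V := univ) (Finset.subset_univ _) (adj_sym hτ) hcon
      (κ := fun _ => 1) (fun _ => by norm_num)
  obtain ⟨ζ, hζ⟩ := exists_point hτ hρ
  refine vec4 hA' h.hab h.hac h.hbc (Ne.symm hja) (Ne.symm hjb) (Ne.symm hjc) hc' hκ' (PP τ ζ)
    hrn hsn htn (fun x => ?_)
  have hout : ∀ i ∈ univ \ ({a, b, c, j} : Finset (Fin g)),
      Function.update (upd3 (PP τ ζ) a b c r s t) j (ev x) i = PP τ ζ i := by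
    intro i hi
    simp only [Finset.mem_sdiff, Finset.mem_univ, true_and, Finset.mem_insert,
      Finset.mem_singleton, not_or] at hi
    rw [Function.update_of_ne hi.2.2.2]
    exact upd3_of_ne _ hi.1 hi.2.1 hi.2.2.1 r s t
  have h1 := hp (Function.update (upd3 (PP τ ζ) a b c r s t) j (ev x))
    (fun i hi => by rw [hout i hi]; exact (hζ i).1)
  rw [scl_one, hvec ζ x, Finset.prod_congr rfl (fun i hi => by rw [hout i hi])] at h1
  have h2 : C * ∏ v ∈ univ \ ({a, b, c, j} : Finset (Fin g)), (PP τ ζ v).1 ≠ 0 :=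
    mul_ne_zero hC (Finset.prod_ne_zero_iff.2 fun i _ => (hζ i).2)
  exact (mul_eq_zero.1 h1.symm).resolve_left h2

/-- Theorem A, in terms of the graph. -/
theorem thmA_graph (hg : 4 ≤ g) {τ : Matrix (Fin g) (Fin g) ℂ} (hτ : Siegel τ) (hh : HalfInt τ)
    (hcon : Conn (adj τ) univ) : ¬ DimGE (g - 3) (singTheta τ) := by
  rintro ⟨U, f, hU, hne, hf, hinj, hS⟩
  obtain ⟨K, hK, O, hOU, -, hOne, hext, hram, hunr⟩ :=
    loc (fun i => wr (τ i i)) (fun i => differentiable_wr (diag_im_pos hτ i))
      (fun i => wr_ne (diag_im_pos hτ i)) hU hne hf hinj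
  have hK3 : K.card = 3 := by omega
  obtain ⟨a, b, c, hab, hac, hbc, rfl⟩ := Finset.card_eq_three.1 hK3
  have P : Piece τ a b c O f :=
    ⟨hab, hac, hbc, hOne, fun u hu => hS u (hOU hu), hext⟩
  rcases hram a with ha | ⟨xa, hxa, ha⟩ <;> rcases hram b with hb | ⟨xb, hxb, hb⟩ <;>
    rcases hram c with hc | ⟨xc, hxc, hc⟩
  · exact case0 hτ hh hcon P ha hb hc
  · exact case1 hτ hh hcon P.swap23.swap12 hxc hc ha
  · exact case1 hτ hh hcon P.swap12 hxb hb ha
  · exact case2 hτ hh hcon P.swap12.swap23 hxb hb hxc hc ha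
  · exact case1 hτ hh hcon P hxa ha hb
  · exact case2 hτ hh hcon P.swap23 hxa ha hxc hc hb
  · exact case2 hτ hh hcon P hxa ha hxb hb hc
  · exact case3 hg hτ hh hcon P hxa ha hxb hb hxc hc

/-- Theorem A. -/
theorem thmA (hg : 4 ≤ g) {τ : Matrix (Fin g) (Fin g) ℂ} (hτ : Siegel τ) (hh : HalfInt τ)
    (hdec : ¬ Decomposable τ) : ¬ DimGE (g - 3) (singTheta τ) :=
  thmA_graph hg hτ hh (conn_of_indec hτ hh hdec)

end AM
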