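import Pool.Agent.Lib.MP_b57e3c_ag.NDefs

/-! The parity of the weight is additive; if all weights are even then `n` is even. -/

namespace AM

theorem wt_cast {n : ℕ} (M : Matrix (Fin n) (Fin n) (ZMod 2)) (x : Fin n → ZMod 2) :
    ((wt M x : ℕ) : ZMod 2) = ∑ i, (x i + (M.mulVec x) i + x i * (M.mulVec x) i) := by
  unfold wt
  rw [Finset.card_filter, Nat.cast_sum]
  refine Finset.sum_congr rfl fun i _ => ?_
  generalize x i = a
  generalize (M.mulVec x) i = b
  revert a b
  decide

theorem dot_symm {n : ℕ} {M : Matrix (Fin n) (Fin n) (ZMod 2)} (hM : M.IsSymm)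
    (x y : Fin n → ZMod 2) :
    ∑ i, x i * (M.mulVec y) i = ∑ i, y i * (M.mulVec x) i := by
  have h1 : dotProduct x (M.mulVec y) = dotProduct y (M.mulVec x) := by
    rw [Matrix.dotProduct_mulVec]
    have h2 : Matrix.vecMul x M = M.mulVec x := by
      conv_lhs => rw [← hM.eq]
      rw [Matrix.vecMul_transpose]
    rw [h2, dotProduct_comm]
  exact h1

theorem wt_parity {n : ℕ} {M : Matrix (Fin n) (Fin n) (ZMod 2)} (hM : M.IsSymm)
    (x y : Fin n → ZMod 2) :
    ((wt M (x + y) : ℕ) : ZMod 2) = (wt M x : ℕ) + (wt M y : ℕ) := by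
  rw [wt_cast, wt_cast, wt_cast]
  have h1 : ∑ i, ((x + y) i + (M.mulVec (x + y)) i + (x + y) i * (M.mulVec (x + y)) i) =
      ∑ i, (x i + (M.mulVec x) i + x i * (M.mulVec x) i) +
      ∑ i, (y i + (M.mulVec y) i + y i * (M.mulVec y) i) +
      (∑ i, x i * (M.mulVec y) i + ∑ i, y i * (M.mulVec x) i) := by
    rw [← Finset.sum_add_distrib, ← Finset.sum_add_distrib, ← Finset.sum_add_distrib]
    refine Finset.sum_congr rfl fun i _ => ?_
    rw [Matrix.mulVec_add, Pi.add_apply, Pi.add_apply]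
    ring
  rw [h1, dot_symm hM x y, CharTwo.add_self_eq_zero, add_zero]

theorem even_of_wt_even {n : ℕ} {M : Matrix (Fin n) (Fin n) (ZMod 2)} (hM : M.IsSymm)
    (h : ∀ x, Even (wt M x)) : Even n := by
  have h1 := h fun _ => 1
  have h2 : wt M (fun _ => 1) = n := by
    unfold wt
    rw [Finset.filter_true_of_mem]
    · simp
    · intro i _
      exact Or.inl one_ne_zero
  rwa [h2] at h1

/-- an element supported in `Q` but in no `Q \ {i}` has weight `|Q|` -/
theorem wt_full {n : ℕ} {M : Matrix (Fin n) (Fin n) (ZMod 2)} {Q : Finset (Fin n)}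
    {x : Fin n → ZMod 2} (hx : x ∈ HS M Q) (h : ∀ i ∈ Q, x ∉ HS M (Q.erase i)) :
    wt M x = Q.card := by
  unfold wt
  congr 1
  ext i
  rw [Finset.mem_filter]
  constructor
  · rintro ⟨_, hi⟩
    by_contra hiQ
    rcases hi with hi | hi
    · exact hi (hx.1 i hiQ)
    · exact hi (hx.2 i hiQ)
  · intro hiQ
    refine ⟨Finset.mem_univ i, ?_⟩
    by_contra hcon
    rw [not_or, not_not, not_not] at hcon
    refine h i hiQ ⟨fun j hj => ?_, fun j hj => ?_⟩
    · by_cases hji : j = i
      · rw [hji]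
        exact hcon.1
      · exact hx.1 j fun hjQ => hj (Finset.mem_erase.2 ⟨hji, hjQ⟩)
    · by_cases hji : j = i
      · rw [hji]
        exact hcon.2
      · exact hx.2 j fun hjQ => hj (Finset.mem_erase.2 ⟨hji, hjQ⟩)

end AM
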