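import Pool.Agent.Lib.MP_b57e3c_ag.NB
import Pool.Agent.Lib.MP_b57e3c_ag.NC

/-! Counting: large cases. -/

namespace AM

open Classical in
/-- the nonzero elements of `HS M S` -/
private noncomputable def ndF {n : ℕ} (M : Matrix (Fin n) (Fin n) (ZMod 2))
    (S : Finset (Fin n)) : Finset (Fin n → ZMod 2) :=
  (Finset.univ.filter (fun x => x ∈ HS M S)).erase 0

private theorem ndF_mem {n : ℕ} (M : Matrix (Fin n) (Fin n) (ZMod 2))
    (S : Finset (Fin n)) (x : Fin n → ZMod 2) : x ∈ ndF M S ↔ x ≠ 0 ∧ x ∈ HS M S := by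
  simp [ndF]

private theorem ndF_card {n : ℕ} {M : Matrix (Fin n) (Fin n) (ZMod 2)} (hM : M.IsSymm)
    (h : NoPair M) (S : Finset (Fin n)) : (ndF M S).card + 1 = 2 ^ (2 * S.card - n) := by
  classical
  rw [← card_noPair hM h S, Nat.card_eq_fintype_card, Fintype.card_subtype, ndF,
    Finset.card_erase_of_mem]
  · have h0 : (0 : Fin n → ZMod 2) ∈ Finset.univ.filter (fun x => x ∈ HS M S) := by
      simp
    have h1 : 0 < (Finset.univ.filter (fun x => x ∈ HS M S)).card := Finset.card_pos.mpr ⟨0, h0⟩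
    have h2 : (Finset.univ.filter (fun x => x ∈ HS M S)).card - 1 + 1 =
        (Finset.univ.filter (fun x => x ∈ HS M S)).card := Nat.sub_add_cancel h1
    convert h2 using 2
  · simp

private theorem nd_count {n : ℕ} {M : Matrix (Fin n) (Fin n) (ZMod 2)} (hM : M.IsSymm)
    (h : NoPair M) (Q : Finset (Fin n)) (h0 : 2 * (Q.card - 2) - n = 0) {a b : ℕ}
    (ha : 2 ^ (2 * (Q.card - 1) - n) = a + 1) (hb : 2 ^ (2 * Q.card - n) = b + 1) :
    Q.card * a ≤ b := by
  classical
  have hA : ∀ i ∈ Q, (ndF M (Q.erase i)).card = a := by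
    intro i hi
    have h1 := ndF_card hM h (Q.erase i)
    rw [Finset.card_erase_of_mem hi, ha] at h1
    omega
  have hB : (ndF M Q).card = b := by
    have h1 := ndF_card hM h Q
    rw [hb] at h1
    omega
  have hdis : ∀ i ∈ Q, ∀ j ∈ Q, i ≠ j → Disjoint (ndF M (Q.erase i)) (ndF M (Q.erase j)) := by
    intro i hi j hj hij
    rw [Finset.disjoint_left]
    intro x hx hx'
    rw [ndF_mem] at hx hx'
    have h1 : x ∈ HS M (Q.erase i ∩ Q.erase j) := by
      rw [← HS_inf]
      exact ⟨hx.2, hx'.2⟩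
    have h2 : Q.erase i ∩ Q.erase j = (Q.erase i).erase j := by
      ext l
      simp only [Finset.mem_inter, Finset.mem_erase]
      tauto
    have h3 : ((Q.erase i).erase j).card = Q.card - 2 := by
      rw [Finset.card_erase_of_mem (Finset.mem_erase.mpr ⟨hij.symm, hj⟩),
        Finset.card_erase_of_mem hi]
      omega
    have h4 := ndF_card hM h ((Q.erase i).erase j)
    rw [h3, h0, pow_zero] at h4
    have h5 : ndF M ((Q.erase i).erase j) = ∅ := Finset.card_eq_zero.mp (by omega)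
    have h6 : x ∈ ndF M ((Q.erase i).erase j) := by
      rw [ndF_mem, ← h2]
      exact ⟨hx.1, h1⟩
    rw [h5] at h6
    exact absurd h6 (Finset.notMem_empty x)
  have hsub : Q.biUnion (fun i => ndF M (Q.erase i)) ⊆ ndF M Q := by
    intro x hx
    rw [Finset.mem_biUnion] at hx
    obtain ⟨i, _, hx⟩ := hx
    rw [ndF_mem] at hx ⊢
    exact ⟨hx.1, HS_mono M (Finset.erase_subset i Q) hx.2⟩
  have h1 := Finset.card_le_card hsub
  rw [Finset.card_biUnion hdis, hB, Finset.sum_congr rfl hA, Finset.sum_const,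
    smul_eq_mul] at h1
  exact h1

/-- `n = 2k`, `k ≥ 4` -/
theorem not_noPair_even {k : ℕ} (hk : 4 ≤ k) {M : Matrix (Fin (2 * k)) (Fin (2 * k)) (ZMod 2)}
    (hM : M.IsSymm) : ¬ NoPair M := by
  intro h
  have hle : k + 2 ≤ (Finset.univ : Finset (Fin (2 * k))).card := by
    rw [Finset.card_univ, Fintype.card_fin]
    omega
  obtain ⟨Q, _, hQ⟩ := Finset.exists_subset_card_eq hle
  have h1 := nd_count hM h Q (a := 3) (b := 15) (by rw [hQ]; omega)
    (by rw [hQ, show 2 * (k + 2 - 1) - 2 * k = 2 by omega]; norm_num)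
    (by rw [hQ, show 2 * (k + 2) - 2 * k = 4 by omega]; norm_num)
  rw [hQ] at h1
  omega

/-- `n = 2k+1`, `k ≥ 6` -/
theorem not_noPair_odd {k : ℕ} (hk : 6 ≤ k)
    {M : Matrix (Fin (2 * k + 1)) (Fin (2 * k + 1)) (ZMod 2)}
    (hM : M.IsSymm) : ¬ NoPair M := by
  intro h
  have hle : k + 2 ≤ (Finset.univ : Finset (Fin (2 * k + 1))).card := by
    rw [Finset.card_univ, Fintype.card_fin]
    omega
  obtain ⟨Q, _, hQ⟩ := Finset.exists_subset_card_eq hle
  have h1 := nd_count hM h Q (a := 1) (b := 7) (by rw [hQ]; omega)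
    (by rw [hQ, show 2 * (k + 2 - 1) - (2 * k + 1) = 1 by omega]; norm_num)
    (by rw [hQ, show 2 * (k + 2) - (2 * k + 1) = 3 by omega]; norm_num)
  rw [hQ] at h1
  omega

end AM
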