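import Pool.Agent.Lib.MP_b57e3c_ag.NB
import Pool.Agent.Lib.MP_b57e3c_ag.NC

/-! The cases `n = 7` and `n = 9`. -/

namespace AM

namespace NE

theorem card_le {n : ℕ} (V : Submodule (ZMod 2) (Fin n → ZMod 2))
    (F : Finset (Fin n → ZMod 2)) (h : ∀ x ∈ F, x ∈ V) : F.card ≤ Nat.card V := by
  have h1 : Nat.card V = (V : Set (Fin n → ZMod 2)).ncard := Nat.card_coe_set_eq _
  rw [h1, ← Set.ncard_coe_finset]
  exact Set.ncard_le_ncard (fun x hx => h x hx) (Set.toFinite _)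

theorem exists_notMem {n : ℕ} (V : Submodule (ZMod 2) (Fin n → ZMod 2))
    (F : Finset (Fin n → ZMod 2)) (h : F.card < Nat.card V) : ∃ x ∈ V, x ∉ F := by
  by_contra hcon
  push Not at hcon
  have h1 : Nat.card V = (V : Set (Fin n → ZMod 2)).ncard := Nat.card_coe_set_eq _
  rw [h1, ← Set.ncard_coe_finset] at h
  exact absurd (Set.ncard_le_ncard (fun x hx => hcon x hx) (Set.toFinite _)) (not_le.2 h)

theorem exists_h {n : ℕ} {M : Matrix (Fin n) (Fin n) (ZMod 2)} (hM : M.IsSymm) (h : NoPair M)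
    {Q : Finset (Fin n)} (hQ : 2 * Q.card = n + 3) {i : Fin n} (hi : i ∈ Q) :
    ∃ y ∈ HS M (Q.erase i), y ≠ 0 ∧ ∀ x ∈ HS M (Q.erase i), x ≠ 0 → x = y := by
  have h1 : Nat.card (HS M (Q.erase i)) = 2 := by
    rw [card_noPair hM h, Finset.card_erase_of_mem hi]
    have : 2 * (Q.card - 1) - n = 1 := by omega
    rw [this, pow_one]
  obtain ⟨y, hy, hu⟩ := (Nat.card_eq_two_iff' (0 : HS M (Q.erase i))).1 h1
  refine ⟨y.1, y.2, fun h0 => hy (Subtype.ext h0), fun x hx hx0 => ?_⟩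
  have := hu ⟨x, hx⟩ fun h0 => hx0 (congrArg Subtype.val h0)
  exact congrArg Subtype.val this

theorem inter_bot {n : ℕ} {M : Matrix (Fin n) (Fin n) (ZMod 2)} (hM : M.IsSymm) (h : NoPair M)
    {S : Finset (Fin n)} (hS : 2 * S.card ≤ n) {x : Fin n → ZMod 2} (hx : x ∈ HS M S) :
    x = 0 := by
  have h1 : Nat.card (HS M S) = 1 := by
    rw [card_noPair hM h]
    have : 2 * S.card - n = 0 := by omega
    rw [this, pow_zero]
  have h2 : Subsingleton (HS M S) := (Nat.card_eq_one_iff_unique.1 h1).1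
  have h3 : (⟨x, hx⟩ : HS M S) = 0 := Subsingleton.elim _ _
  exact congrArg Subtype.val h3

/-- the data of a set `Q` with `2 |Q| = n + 3` -/
theorem data {n : ℕ} {M : Matrix (Fin n) (Fin n) (ZMod 2)} (hM : M.IsSymm) (h : NoPair M)
    {Q : Finset (Fin n)} (hQ : 2 * Q.card = n + 3) :
    ∃ f : Fin n → (Fin n → ZMod 2), (∀ i ∈ Q, f i ∈ HS M Q ∧ f i ≠ 0 ∧ wt M (f i) = Q.card - 1) ∧
      (∀ i ∈ Q, ∀ j ∈ Q, f i = f j → i = j) ∧
      ∀ x ∈ HS M Q, x ≠ 0 → (∀ i ∈ Q, x ≠ f i) → wt M x = Q.card := by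
  have h1 : ∀ i : Fin n, ∃ y, i ∈ Q → y ∈ HS M (Q.erase i) ∧ y ≠ 0 ∧
      ∀ x ∈ HS M (Q.erase i), x ≠ 0 → x = y := by
    intro i
    by_cases hi : i ∈ Q
    · obtain ⟨y, hy, hy0, hu⟩ := exists_h hM h hQ hi
      exact ⟨y, fun _ => ⟨hy, hy0, hu⟩⟩
    · exact ⟨0, fun hi' => absurd hi' hi⟩
  choose f hf using h1
  have h2 : ∀ i ∈ Q, ∀ j ∈ Q, i ≠ j → 2 * ((Q.erase i).erase j).card ≤ n := by
    intro i hi j hj hij
    rw [Finset.card_erase_of_mem (Finset.mem_erase.2 ⟨Ne.symm hij, hj⟩),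
      Finset.card_erase_of_mem hi]
    omega
  refine ⟨f, fun i hi => ⟨HS_mono M (Finset.erase_subset i Q) (hf i hi).1, (hf i hi).2.1, ?_⟩,
    fun i hi j hj hij => ?_, fun x hx hx0 hxf => ?_⟩
  · rw [← Finset.card_erase_of_mem hi]
    refine wt_full (hf i hi).1 fun j hj hfj => ?_
    have hj' := Finset.mem_erase.1 hj
    exact (hf i hi).2.1 (inter_bot hM h (h2 i hi j hj'.2 (Ne.symm hj'.1)) hfj)
  · by_contra hne
    have h3 : f i ∈ HS M ((Q.erase i) ∩ (Q.erase j)) := by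
      rw [← HS_inf]
      refine Submodule.mem_inf.2 ⟨(hf i hi).1, ?_⟩
      rw [hij]
      exact (hf j hj).1
    have h4 : (Q.erase i) ∩ (Q.erase j) = (Q.erase i).erase j := by
      ext a
      simp only [Finset.mem_inter, Finset.mem_erase]
      tauto
    rw [h4] at h3
    exact (hf i hi).2.1 (inter_bot hM h (h2 i hi j hj hne) h3)
  · refine wt_full hx fun i hi hxi => ?_
    exact hxf i hi ((hf i hi).2.2 x hxi hx0)

/-- the parity of the weight -/
def par {n : ℕ} (M : Matrix (Fin n) (Fin n) (ZMod 2)) (x : Fin n → ZMod 2) : ZMod 2 :=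
  ((wt M x : ℕ) : ZMod 2)

theorem par_add {n : ℕ} {M : Matrix (Fin n) (Fin n) (ZMod 2)} (hM : M.IsSymm)
    (x y : Fin n → ZMod 2) : par M (x + y) = par M x + par M y := wt_parity hM x y

theorem par_zero {n : ℕ} {M : Matrix (Fin n) (Fin n) (ZMod 2)} (hM : M.IsSymm) :
    par M 0 = 0 := by
  have := par_add hM 0 0
  rw [add_zero] at this
  simpa using this

end NE

theorem not_noPair_seven {M : Matrix (Fin 7) (Fin 7) (ZMod 2)} (hM : M.IsSymm) :
    ¬ NoPair M := by
  intro h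
  classical
  obtain ⟨Q, hQ⟩ : ∃ Q : Finset (Fin 7), Q.card = 5 := ⟨{0, 1, 2, 3, 4}, by decide⟩
  obtain ⟨f, h1, h2, h3⟩ := NE.data hM h (Q := Q) (by omega)
  have hV : Nat.card (HS M Q) = 8 := by
    rw [card_noPair hM h, hQ]
    norm_num
  -- the even elements
  obtain ⟨E, hE⟩ : ∃ E, E = insert 0 (Q.image f) := ⟨_, rfl⟩
  have hEc : E.card = 6 := by
    rw [hE, Finset.card_insert_of_notMem, Finset.card_image_of_injOn, hQ]
    · intro i hi j hj hij
      exact h2 i hi j hj hij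
    · intro h0
      obtain ⟨i, hi, hi0⟩ := Finset.mem_image.1 h0
      exact (h1 i hi).2.1 hi0
  have hEV : ∀ x ∈ E, x ∈ HS M Q := by
    intro x hx
    rw [hE, Finset.mem_insert] at hx
    rcases hx with rfl | hx
    · exact (HS M Q).zero_mem
    · obtain ⟨i, hi, rfl⟩ := Finset.mem_image.1 hx
      exact (h1 i hi).1
  have hEp : ∀ x ∈ E, NE.par M x = 0 := by
    intro x hx
    rw [hE, Finset.mem_insert] at hx
    rcases hx with rfl | hx
    · exact NE.par_zero hM
    · obtain ⟨i, hi, rfl⟩ := Finset.mem_image.1 hx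
      rw [NE.par, (h1 i hi).2.2, hQ]
      decide
  obtain ⟨o, ho, hoE⟩ := NE.exists_notMem (HS M Q) E (by rw [hEc, hV]; norm_num)
  have hop : NE.par M o = 1 := by
    have h0 : o ≠ 0 := fun h0 => hoE (by rw [hE, h0]; exact Finset.mem_insert_self _ _)
    have h4 : ∀ i ∈ Q, o ≠ f i := fun i hi h4 => hoE (by
      rw [hE, h4]
      exact Finset.mem_insert_of_mem (Finset.mem_image_of_mem f hi))
    rw [NE.par, h3 o ho h0 h4, hQ]
    decide
  have hdis : Disjoint E (E.image fun x => o + x) := by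
    rw [Finset.disjoint_left]
    intro x hx hx'
    obtain ⟨y, hy, rfl⟩ := Finset.mem_image.1 hx'
    have h4 := hEp _ hx
    rw [NE.par_add hM, hEp y hy, hop] at h4
    exact absurd h4 (by decide)
  have hc : (E ∪ E.image fun x => o + x).card ≤ Nat.card (HS M Q) := by
    refine NE.card_le _ _ fun x hx => ?_
    rcases Finset.mem_union.1 hx with hx | hx
    · exact hEV x hx
    · obtain ⟨y, hy, rfl⟩ := Finset.mem_image.1 hx
      exact (HS M Q).add_mem ho (hEV y hy)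
  rw [Finset.card_union_of_disjoint hdis, Finset.card_image_of_injective _
    (add_right_injective o), hEc, hV] at hc
  norm_num at hc

theorem not_noPair_nine {M : Matrix (Fin 9) (Fin 9) (ZMod 2)} (hM : M.IsSymm) :
    ¬ NoPair M := by
  intro h
  classical
  obtain ⟨Q, hQ⟩ : ∃ Q : Finset (Fin 9), Q.card = 6 := ⟨{0, 1, 2, 3, 4, 5}, by decide⟩
  obtain ⟨f, h1, h2, h3⟩ := NE.data hM h (Q := Q) (by omega)
  have hV : Nat.card (HS M Q) = 8 := by
    rw [card_noPair hM h, hQ]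
    norm_num
  -- the odd elements
  obtain ⟨E, hE⟩ : ∃ E, E = Q.image f := ⟨_, rfl⟩
  have hEc : E.card = 6 := by
    rw [hE, Finset.card_image_of_injOn, hQ]
    intro i hi j hj hij
    exact h2 i hi j hj hij
  have hEV : ∀ x ∈ E, x ∈ HS M Q := by
    intro x hx
    rw [hE] at hx
    obtain ⟨i, hi, rfl⟩ := Finset.mem_image.1 hx
    exact (h1 i hi).1
  have hEp : ∀ x ∈ E, NE.par M x = 1 := by
    intro x hx
    rw [hE] at hx
    obtain ⟨i, hi, rfl⟩ := Finset.mem_image.1 hx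
    rw [NE.par, (h1 i hi).2.2, hQ]
    decide
  obtain ⟨a, ha⟩ : ∃ a, a ∈ E := Finset.card_pos.1 (by rw [hEc]; norm_num)
  have hdis : Disjoint E (E.image fun x => a + x) := by
    rw [Finset.disjoint_left]
    intro x hx hx'
    obtain ⟨y, hy, rfl⟩ := Finset.mem_image.1 hx'
    have h4 := hEp _ hx
    rw [NE.par_add hM, hEp y hy, hEp a ha] at h4
    exact absurd h4 (by decide)
  have hc : (E ∪ E.image fun x => a + x).card ≤ Nat.card (HS M Q) := by
    refine NE.card_le _ _ fun x hx => ?_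
    rcases Finset.mem_union.1 hx with hx | hx
    · exact hEV x hx
    · obtain ⟨y, hy, rfl⟩ := Finset.mem_image.1 hx
      exact (HS M Q).add_mem (hEV a ha) (hEV y hy)
  rw [Finset.card_union_of_disjoint hdis, Finset.card_image_of_injective _
    (add_right_injective a), hEc, hV] at hc
  norm_num at hc

end AM
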