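import Pool.Agent.Lib.MP_b57e3c_ag.NB
import Pool.Agent.Lib.MP_b57e3c_ag.NC

/-! The case `n = 11`. -/

namespace AM

namespace NF

variable {M : Matrix (Fin 11) (Fin 11) (ZMod 2)}

theorem eq_bot_of_card (hM : M.IsSymm) (h : NoPair M) {S : Finset (Fin 11)}
    (hS : S.card ≤ 5) : HS M S = ⊥ := by
  apply Submodule.finrank_eq_zero.mp
  rw [dim_noPair hM h S]
  omega

theorem exists_ne (hM : M.IsSymm) (h : NoPair M) {S : Finset (Fin 11)}
    (hS : S.card = 6) : ∃ v ∈ HS M S, v ≠ 0 := by
  apply Submodule.exists_mem_ne_zero_of_ne_bot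
  intro hb
  have h1 := dim_noPair hM h S
  rw [hb, finrank_bot, hS] at h1
  omega

theorem inter_bot (hM : M.IsSymm) (h : NoPair M) {Q : Finset (Fin 11)} (hQ : Q.card = 7)
    {i j : Fin 11} (hi : i ∈ Q) (hj : j ∈ Q) (hij : i ≠ j) {v : Fin 11 → ZMod 2}
    (h1 : v ∈ HS M (Q.erase i)) (h2 : v ∈ HS M (Q.erase j)) : v = 0 := by
  have h3 : v ∈ HS M (Q.erase i) ⊓ HS M (Q.erase j) := ⟨h1, h2⟩
  rw [HS_inf, eq_bot_of_card hM h] at h3
  · simpa using h3
  · have h4 : Q.erase i ∩ Q.erase j = (Q.erase i).erase j := by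
      ext t
      simp only [Finset.mem_inter, Finset.mem_erase]
      tauto
    rw [h4, Finset.card_erase_of_mem (Finset.mem_erase.mpr ⟨hij.symm, hj⟩),
      Finset.card_erase_of_mem hi, hQ]

theorem seven_mem (hM : M.IsSymm) (h : NoPair M) {Q : Finset (Fin 11)} (hQ : Q.card = 7)
    {x : Fin 11 → ZMod 2} (hx : x ∈ HS M Q) (hx0 : x ≠ 0) : ∃ i ∈ Q, x ∈ HS M (Q.erase i) := by
  by_contra hcon
  push Not at hcon
  have hex : ∀ i : Q, ∃ v ∈ HS M (Q.erase (i : Fin 11)), v ≠ 0 := fun i =>
    exists_ne hM h (by rw [Finset.card_erase_of_mem i.2, hQ])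
  choose v hv hv0 using hex
  let f : Option (Option Q) → HS M Q := fun o => match o with
    | none => 0
    | some none => ⟨x, hx⟩
    | some (some i) => ⟨v i, HS_mono M (Finset.erase_subset _ _) (hv i)⟩
  have hf : Function.Injective f := by
    intro a b hab
    rcases a with _ | _ | i <;> rcases b with _ | _ | j
    · rfl
    · exact absurd (congrArg Subtype.val hab).symm hx0
    · exact absurd (congrArg Subtype.val hab).symm (hv0 j)
    · exact absurd (congrArg Subtype.val hab) hx0
    · rfl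
    · have h1 : x = v j := congrArg Subtype.val hab
      exact absurd (by rw [h1]; exact hv j) (hcon j j.2)
    · exact absurd (congrArg Subtype.val hab) (hv0 i)
    · have h1 : v i = x := congrArg Subtype.val hab
      exact absurd (by rw [← h1]; exact hv i) (hcon i i.2)
    · have h1 : v i = v j := congrArg Subtype.val hab
      by_cases hij : i = j
      · rw [hij]
      · exfalso
        have h2 : (i : Fin 11) ≠ j := fun h => hij (Subtype.ext h)
        exact hv0 i (inter_bot hM h hQ i.2 j.2 h2 (hv i) (h1 ▸ hv j))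
  have hc := Nat.card_le_card_of_injective f hf
  rw [card_noPair hM h Q, hQ] at hc
  have h5 : Nat.card (Option (Option Q)) = 9 := by
    rw [Nat.card_eq_fintype_card, Fintype.card_option, Fintype.card_option, Fintype.card_coe, hQ]
  rw [h5] at hc
  norm_num at hc

theorem wt_zero (M : Matrix (Fin 11) (Fin 11) (ZMod 2)) : wt M 0 = 0 := by
  simp [wt]

theorem seven_even (hM : M.IsSymm) (h : NoPair M) {Q : Finset (Fin 11)} (hQ : Q.card = 7)
    {x : Fin 11 → ZMod 2} (hx : x ∈ HS M Q) : Even (wt M x) := by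
  by_cases hx0 : x = 0
  · rw [hx0, wt_zero]; exact Even.zero
  · obtain ⟨i, hi, hxi⟩ := seven_mem hM h hQ hx hx0
    have hc : (Q.erase i).card = 6 := by rw [Finset.card_erase_of_mem hi, hQ]
    rw [wt_full hxi, hc]
    · decide
    · intro j hj hxj
      rw [eq_bot_of_card hM h] at hxj
      · exact hx0 (by simpa using hxj)
      · rw [Finset.card_erase_of_mem hj, hc]

theorem all_even (hM : M.IsSymm) (h : NoPair M) (m : ℕ) : ∀ Q : Finset (Fin 11),
    Q.card = m + 7 → ∀ x ∈ HS M Q, Even (wt M x) := by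
  induction m with
  | zero => intro Q hQ x hx; exact seven_even hM h hQ hx
  | succ m ih =>
    intro Q hQ x hx
    obtain ⟨i, hi, j, hj, hij⟩ := Finset.one_lt_card.mp (show 1 < Q.card by omega)
    have hi' : (Q.erase i).card = m + 7 := by
      rw [Finset.card_erase_of_mem hi, hQ]; omega
    have hj' : (Q.erase j).card = m + 7 := by
      rw [Finset.card_erase_of_mem hj, hQ]; omega
    have h4 : Q.erase i ∩ Q.erase j = (Q.erase i).erase j := by
      ext t
      simp only [Finset.mem_inter, Finset.mem_erase]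
      tauto
    have hij' : (Q.erase i ∩ Q.erase j).card = m + 6 := by
      rw [h4, Finset.card_erase_of_mem (Finset.mem_erase.mpr ⟨hij.symm, hj⟩), hi']
      omega
    have hle : HS M (Q.erase i) ⊔ HS M (Q.erase j) ≤ HS M Q :=
      sup_le (HS_mono M (Finset.erase_subset _ _)) (HS_mono M (Finset.erase_subset _ _))
    have hdim := Submodule.finrank_sup_add_finrank_inf_eq (HS M (Q.erase i)) (HS M (Q.erase j))
    rw [HS_inf, dim_noPair hM h, dim_noPair hM h (Q.erase i), dim_noPair hM h (Q.erase j), hi',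
      hj', hij'] at hdim
    have heq : HS M (Q.erase i) ⊔ HS M (Q.erase j) = HS M Q := by
      apply Submodule.eq_of_le_of_finrank_eq hle
      rw [dim_noPair hM h Q, hQ]
      omega
    rw [← heq] at hx
    obtain ⟨a, ha, b, hb, rfl⟩ := Submodule.mem_sup.mp hx
    have h1 := ih _ hi' a ha
    have h2 := ih _ hj' b hb
    have h3 := wt_parity hM a b
    rw [(ZMod.natCast_eq_zero_iff_even).mpr h1, (ZMod.natCast_eq_zero_iff_even).mpr h2,
      add_zero] at h3
    exact (ZMod.natCast_eq_zero_iff_even).mp h3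

end NF

theorem not_noPair_eleven {M : Matrix (Fin 11) (Fin 11) (ZMod 2)} (hM : M.IsSymm) :
    ¬ NoPair M := by
  intro h
  have h1 : ∀ x, Even (wt M x) := fun x => NF.all_even hM h 4 Finset.univ (by simp) x
    ⟨fun i hi => absurd (Finset.mem_univ i) hi, fun i hi => absurd (Finset.mem_univ i) hi⟩
  have h2 := even_of_wt_even hM h1
  exact absurd h2 (by decide)

end AM
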