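import Pool.Agent.Lib.MP_b57e3c_ag.NA
import Pool.Agent.Lib.MP_b57e3c_ag.ND
import Pool.Agent.Lib.MP_b57e3c_ag.NE
import Pool.Agent.Lib.MP_b57e3c_ag.NF

/-! Theorem B: for `g ≥ 7` all period matrices with half-integral off-diagonal entries lie on the
theta-null divisor. -/

open Complex Finset

namespace AM

theorem not_noPair {n : ℕ} (hn : 7 ≤ n) {M : Matrix (Fin n) (Fin n) (ZMod 2)} (hM : M.IsSymm) :
    ¬ NoPair M := by
  rcases Nat.even_or_odd' n with ⟨k, rfl | rfl⟩
  · exact not_noPair_even (by omega) hM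
  · rcases Nat.lt_or_ge k 6 with h | h
    · interval_cases k
      · omega
      · omega
      · omega
      · exact not_noPair_seven hM
      · exact not_noPair_nine hM
      · exact not_noPair_eleven hM
    · exact not_noPair_odd h hM

theorem exists_pair {n : ℕ} (hn : 7 ≤ n) {M : Matrix (Fin n) (Fin n) (ZMod 2)} (hM : M.IsSymm) :
    ∃ (S : Finset (Fin n)) (x y : Fin n → ZMod 2), x ≠ 0 ∧ y ≠ 0 ∧ x ∈ HS M S ∧ y ∈ HS M Sᶜ := by
  have h := not_noPair hn hM
  unfold NoPair at h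
  push Not at h
  obtain ⟨S, h1, h2⟩ := h
  obtain ⟨x, hx, hx0⟩ := Submodule.exists_mem_ne_zero_of_ne_bot h1
  obtain ⟨y, hy, hy0⟩ := Submodule.exists_mem_ne_zero_of_ne_bot h2
  exact ⟨S, x, y, hx0, hy0, hx, hy⟩

theorem zmod2_cases (z : ZMod 2) : z = 0 ∨ z = 1 := by
  revert z; decide

theorem thmB {g : ℕ} (hg : 7 ≤ g) {τ : Matrix (Fin g) (Fin g) ℂ} (hτ : Siegel τ)
    (hh : HalfInt τ) : ThetaNull τ := by
  classical
  obtain ⟨hsym, -⟩ := hτ
  -- integers a i j = 2 τ i j off the diagonal, symmetric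
  have hex : ∀ i j : Fin g, ∃ k : ℤ, i ≠ j → 2 * τ i j = k := by
    intro i j
    by_cases h : i = j
    · exact ⟨0, fun h' => absurd h h'⟩
    · obtain ⟨k, hk⟩ := hh i j h
      exact ⟨k, fun _ => hk⟩
  choose a ha using hex
  have hsa : ∀ i j, i ≠ j → a i j = a j i := by
    intro i j hij
    have h1 := ha i j hij
    have h2 := ha j i hij.symm
    have h3 : τ i j = τ j i := by
      have := congrFun (congrFun hsym j) i
      simpa [Matrix.transpose_apply] using this
    rw [h3] at h1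
    exact_mod_cast h1.symm.trans h2
  let M : Matrix (Fin g) (Fin g) (ZMod 2) := fun i j => if i = j then 0 else (a i j : ZMod 2)
  have hM : M.IsSymm := by
    ext i j
    simp only [Matrix.transpose_apply, M]
    by_cases h : i = j
    · subst h; rfl
    · rw [if_neg (Ne.symm h), if_neg h, hsa i j h]
  obtain ⟨S, x, y, hx0, hy0, ⟨hxs, hxM⟩, ⟨hys, hyM⟩⟩ := exists_pair hg hM
  -- x lives on S, y on the complement
  have hyS : ∀ i ∈ S, y i = 0 := fun i hi => hys i (by simp [hi])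
  have hyM' : ∀ i ∈ S, (M.mulVec y) i = 0 := fun i hi => hyM i (by simp [hi])
  obtain ⟨i0, hi0⟩ : ∃ i, x i ≠ 0 := by
    by_contra h; push Not at h; exact hx0 (funext h)
  obtain ⟨j0, hj0⟩ : ∃ i, y i ≠ 0 := by
    by_contra h; push Not at h; exact hy0 (funext h)
  have hi0S : i0 ∈ S := by
    by_contra h; exact hi0 (hxs i0 h)
  have hj0S : j0 ∉ S := fun h => hj0 (hyS j0 h)
  let ε : Fin g → Fin 2 := fun i => if x i + y i = 0 then 0 else 1
  have hεS : ∀ i ∈ S, (((ε i : ℕ) : ℤ) : ZMod 2) = x i := by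
    intro i hi
    simp only [ε, hyS i hi, add_zero]
    rcases zmod2_cases (x i) with h | h <;> rw [h] <;> simp
  have hεT : ∀ i, i ∉ S → (((ε i : ℕ) : ℤ) : ZMod 2) = y i := by
    intro i hi
    simp only [ε, hxs i hi, zero_add]
    rcases zmod2_cases (y i) with h | h <;> rw [h] <;> simp
  have hε1 : ((ε i0 : ℕ) : ℤ) = 1 := by
    have : x i0 + y i0 ≠ 0 := by rw [hyS i0 hi0S, add_zero]; exact hi0
    simp [ε, this]
  have hε2 : ((ε j0 : ℕ) : ℤ) = 1 := by
    have : x j0 + y j0 ≠ 0 := by rw [hxs j0 hj0S, zero_add]; exact hj0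
    simp [ε, this]
  -- parity conditions
  have h1 : ∀ j, j ∉ S → Even (∑ i ∈ S, a i j * ((ε i : ℕ) : ℤ)) := by
    intro j hj
    have hne : ∀ i ∈ S, i ≠ j := fun i hi h => hj (h ▸ hi)
    have h0 := hxM j hj
    simp only [Matrix.mulVec, dotProduct] at h0
    have h2 : ∑ i, M j i * x i = ∑ i ∈ S, ((a i j : ℤ) : ZMod 2) * (((ε i : ℕ) : ℤ) : ZMod 2) := by
      rw [← Finset.sum_subset (Finset.subset_univ S)]
      · refine Finset.sum_congr rfl fun i hi => ?_
        rw [hεS i hi]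
        simp only [M]
        rw [if_neg (hne i hi).symm, hsa j i (hne i hi).symm]
      · intro i _ hi
        rw [hxs i hi, mul_zero]
    rw [h2] at h0
    rw [← ZMod.intCast_eq_zero_iff_even]
    push_cast
    push_cast at h0
    exact h0
  have h2 : ∀ i ∈ S, Even (∑ j ∈ Sᶜ, a i j * ((ε j : ℕ) : ℤ)) := by
    intro i hi
    have hne : ∀ j ∈ Sᶜ, i ≠ j := fun j hj h => by
      rw [Finset.mem_compl] at hj; exact hj (h ▸ hi)
    have h0 := hyM' i hi
    simp only [Matrix.mulVec, dotProduct] at h0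
    have h2 : ∑ j, M i j * y j = ∑ j ∈ Sᶜ, ((a i j : ℤ) : ZMod 2) * (((ε j : ℕ) : ℤ) : ZMod 2) := by
      rw [← Finset.sum_subset (Finset.subset_univ Sᶜ)]
      · refine Finset.sum_congr rfl fun j hj => ?_
        rw [hεT j (by simpa using hj)]
        simp only [M]
        rw [if_neg (hne j hj)]
      · intro j _ hj
        have : j ∈ S := by simpa using hj
        rw [hyS j this, mul_zero]
    rw [h2] at h0
    rw [← ZMod.intCast_eq_zero_iff_even]
    push_cast
    push_cast at h0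
    exact h0
  -- the integer c
  have hcex : Even (∑ i ∈ S, ∑ j ∈ Sᶜ, a i j * ((ε i : ℕ) : ℤ) * ((ε j : ℕ) : ℤ)) := by
    have : ∑ i ∈ S, ∑ j ∈ Sᶜ, a i j * ((ε i : ℕ) : ℤ) * ((ε j : ℕ) : ℤ) =
        ∑ i ∈ S, ((ε i : ℕ) : ℤ) * ∑ j ∈ Sᶜ, a i j * ((ε j : ℕ) : ℤ) := by
      refine Finset.sum_congr rfl fun i _ => ?_
      rw [Finset.mul_sum]
      refine Finset.sum_congr rfl fun j _ => ?_
      ring
    rw [this]
    exact Finset.even_sum _ fun i hi => (h2 i hi).mul_left _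
  obtain ⟨c, hc⟩ := hcex
  have hc' : ∑ i ∈ S, ∑ j ∈ Sᶜ, a i j * ((ε i : ℕ) : ℤ) * ((ε j : ℕ) : ℤ) = 2 * c := by
    rw [hc]; ring
  -- choice of δ
  let b : Fin 2 := if Even c then 1 else 0
  let δ : Fin g → Fin 2 := fun i => if i = i0 ∨ i = j0 then b else 0
  have hij : i0 ≠ j0 := fun h => hj0S (h ▸ hi0S)
  have hδS : ∑ i ∈ S, ((ε i : ℕ) : ℤ) * ((δ i : ℕ) : ℤ) = ((b : ℕ) : ℤ) := by
    rw [Finset.sum_eq_single i0]
    · simp only [hε1, one_mul, δ]; simp
    · intro i hi hne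
      have : i ≠ j0 := fun h => hj0S (h ▸ hi)
      simp [δ, hne, this]
    · intro h; exact absurd hi0S h
  refine ⟨ε, δ, ?_, null_of_sign hsym a ha S ε δ h1 h2 c hc' ?_⟩
  · have hsum : ∑ i, (ε i : ℕ) * (δ i : ℕ) = (b : ℕ) + (b : ℕ) := by
      rw [← Finset.add_sum_erase _ _ (Finset.mem_univ i0),
        ← Finset.add_sum_erase _ _ (Finset.mem_erase.2 ⟨hij.symm, Finset.mem_univ j0⟩),
        Finset.sum_eq_zero]
      · have e1 : (ε i0 : ℕ) = 1 := by exact_mod_cast hε1
        have e2 : (ε j0 : ℕ) = 1 := by exact_mod_cast hε2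
        have d1 : δ i0 = b := by simp [δ]
        have d2 : δ j0 = b := by simp [δ]
        rw [e1, e2, d1, d2]; ring
      · intro i hi
        simp only [Finset.mem_erase, Finset.mem_univ, and_true] at hi
        simp [δ, hi.1, hi.2]
    rw [hsum]
    exact ⟨_, rfl⟩
  · rw [hδS]
    by_cases hce : Even c
    · have : b = 1 := by simp [b, hce]
      rw [this]
      simpa using hce.add_one
    · have : b = 0 := by simp [b, hce]
      rw [this]
      simpa using Int.not_even_iff_odd.1 hce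

end AM
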