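import Pool.Agent.Lib.MP_b57e3c_ag.NDefs

/-! A sign symmetry kills a theta constant. -/

open Complex

namespace AM

/-- changing the signs on `S` in a symmetric quadratic form -/
lemma quad_sign {g : ℕ} {τ : Matrix (Fin g) (Fin g) ℂ} (hsym : τ.IsSymm)
    (a : Fin g → Fin g → ℤ) (ha : ∀ i j, i ≠ j → 2 * τ i j = a i j) (S : Finset (Fin g))
    (x y : Fin g → ℂ) (h1 : ∀ i ∈ S, y i = - x i) (h2 : ∀ i ∈ Sᶜ, y i = x i) :
    ∑ i, ∑ j, x i * τ i j * x j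
      = ∑ i, ∑ j, y i * τ i j * y j + 2 * ∑ i ∈ S, ∑ j ∈ Sᶜ, (a i j : ℂ) * x i * x j := by
  have split : ∀ z : Fin g → ℂ, ∑ i, ∑ j, z i * τ i j * z j
      = (∑ i ∈ S, ∑ j ∈ S, z i * τ i j * z j + ∑ i ∈ S, ∑ j ∈ Sᶜ, z i * τ i j * z j)
        + (∑ i ∈ Sᶜ, ∑ j ∈ S, z i * τ i j * z j + ∑ i ∈ Sᶜ, ∑ j ∈ Sᶜ, z i * τ i j * z j) := by
    intro z
    rw [← Finset.sum_add_sum_compl S (fun i => ∑ j, z i * τ i j * z j)]
    rw [← Finset.sum_add_distrib, ← Finset.sum_add_distrib]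
    congr 1
    · exact Finset.sum_congr rfl fun i _ =>
        (Finset.sum_add_sum_compl S (fun j => z i * τ i j * z j)).symm
    · exact Finset.sum_congr rfl fun i _ =>
        (Finset.sum_add_sum_compl S (fun j => z i * τ i j * z j)).symm
  rw [split x, split y]
  have e1 : ∑ i ∈ S, ∑ j ∈ S, y i * τ i j * y j = ∑ i ∈ S, ∑ j ∈ S, x i * τ i j * x j :=
    Finset.sum_congr rfl fun i hi => Finset.sum_congr rfl fun j hj => by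
      rw [h1 i hi, h1 j hj]; ring
  have e2 : ∑ i ∈ S, ∑ j ∈ Sᶜ, y i * τ i j * y j = - ∑ i ∈ S, ∑ j ∈ Sᶜ, x i * τ i j * x j := by
    rw [← Finset.sum_neg_distrib]
    refine Finset.sum_congr rfl fun i hi => ?_
    rw [← Finset.sum_neg_distrib]
    refine Finset.sum_congr rfl fun j hj => ?_
    rw [h1 i hi, h2 j hj]; ring
  have e3 : ∑ i ∈ Sᶜ, ∑ j ∈ S, y i * τ i j * y j = - ∑ i ∈ Sᶜ, ∑ j ∈ S, x i * τ i j * x j := by
    rw [← Finset.sum_neg_distrib]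
    refine Finset.sum_congr rfl fun i hi => ?_
    rw [← Finset.sum_neg_distrib]
    refine Finset.sum_congr rfl fun j hj => ?_
    rw [h2 i hi, h1 j hj]; ring
  have e4 : ∑ i ∈ Sᶜ, ∑ j ∈ Sᶜ, y i * τ i j * y j = ∑ i ∈ Sᶜ, ∑ j ∈ Sᶜ, x i * τ i j * x j :=
    Finset.sum_congr rfl fun i hi => Finset.sum_congr rfl fun j hj => by
      rw [h2 i hi, h2 j hj]
  have e5 : ∑ i ∈ Sᶜ, ∑ j ∈ S, x i * τ i j * x j = ∑ i ∈ S, ∑ j ∈ Sᶜ, x i * τ i j * x j := by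
    rw [Finset.sum_comm]
    refine Finset.sum_congr rfl fun i _ => Finset.sum_congr rfl fun j _ => ?_
    rw [hsym.apply i j]; ring
  have e6 : ∑ i ∈ S, ∑ j ∈ Sᶜ, (a i j : ℂ) * x i * x j
      = 2 * ∑ i ∈ S, ∑ j ∈ Sᶜ, x i * τ i j * x j := by
    rw [Finset.mul_sum]
    refine Finset.sum_congr rfl fun i hi => ?_
    rw [Finset.mul_sum]
    refine Finset.sum_congr rfl fun j hj => ?_
    have hne : i ≠ j := by
      rintro rfl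
      exact (Finset.mem_compl.mp hj) hi
    rw [← ha i j hne]; ring
  rw [e1, e2, e3, e4, e5, e6]
  ring

/-- `exp (π i N) = -1` for odd `N` -/
lemma exp_odd (N : ℤ) (h : Odd N) : cexp (Real.pi * I * (N : ℂ)) = -1 := by
  obtain ⟨k, rfl⟩ := h
  have : (Real.pi * I * ((2 * k + 1 : ℤ) : ℂ)) = (k : ℂ) * (2 * Real.pi * I) + Real.pi * I := by
    push_cast; ring
  rw [this, Complex.exp_add, Complex.exp_int_mul_two_pi_mul_I, Complex.exp_pi_mul_I, one_mul]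

theorem null_of_sign {g : ℕ} {τ : Matrix (Fin g) (Fin g) ℂ} (hsym : τ.IsSymm)
    (a : Fin g → Fin g → ℤ) (ha : ∀ i j, i ≠ j → 2 * τ i j = a i j) (S : Finset (Fin g))
    (ε δ : Fin g → Fin 2)
    (h1 : ∀ j, j ∉ S → Even (∑ i ∈ S, a i j * ((ε i : ℕ) : ℤ)))
    (h2 : ∀ i ∈ S, Even (∑ j ∈ Sᶜ, a i j * ((ε j : ℕ) : ℤ)))
    (c : ℤ) (hc : ∑ i ∈ S, ∑ j ∈ Sᶜ, a i j * ((ε i : ℕ) : ℤ) * ((ε j : ℕ) : ℤ) = 2 * c)
    (hodd : Odd (c + ∑ i ∈ S, ((ε i : ℕ) : ℤ) * ((δ i : ℕ) : ℤ))) :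
    thetaConst τ ε δ = 0 := by
  classical
  let f : (Fin g → ℤ) → (Fin g → ℤ) := fun m i => if i ∈ S then - m i - ((ε i : ℕ) : ℤ) else m i
  have hff : ∀ m, f (f m) = m := by
    intro m
    funext i
    by_cases hi : i ∈ S
    · simp [f, hi]
    · simp [f, hi]
  let e : (Fin g → ℤ) ≃ (Fin g → ℤ) := ⟨f, f, hff, hff⟩
  set F : (Fin g → ℤ) → ℂ := fun m => cexp (Real.pi * I * (∑ i, ∑ j,
      ((m i : ℂ) + ((ε i : ℕ) : ℂ) / 2) * τ i j * ((m j : ℂ) + ((ε j : ℕ) : ℂ) / 2))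
    + 2 * Real.pi * I * ∑ i, ((m i : ℂ) + ((ε i : ℕ) : ℂ) / 2) * (((δ i : ℕ) : ℂ) / 2)) with hF
  have key : ∀ m, F m = - F (e m) := by
    intro m
    have y1 : ∀ i ∈ S, (((e m) i : ℤ) : ℂ) + ((ε i : ℕ) : ℂ) / 2
        = - ((m i : ℂ) + ((ε i : ℕ) : ℂ) / 2) := by
      intro i hi
      have : (e m) i = - m i - ((ε i : ℕ) : ℤ) := by
        change f m i = _
        simp [f, hi]
      rw [this]; push_cast; ring
    have y2 : ∀ i ∈ Sᶜ, (((e m) i : ℤ) : ℂ) + ((ε i : ℕ) : ℂ) / 2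
        = ((m i : ℂ) + ((ε i : ℕ) : ℂ) / 2) := by
      intro i hi
      have : (e m) i = m i := by
        change f m i = _
        simp [f, Finset.mem_compl.mp hi]
      rw [this]
    have q := quad_sign hsym a ha S (fun i => (m i : ℂ) + ((ε i : ℕ) : ℂ) / 2)
      (fun i => (((e m) i : ℤ) : ℂ) + ((ε i : ℕ) : ℂ) / 2) y1 y2
    have l : ∑ i, ((m i : ℂ) + ((ε i : ℕ) : ℂ) / 2) * (((δ i : ℕ) : ℂ) / 2)
        = ∑ i, ((((e m) i : ℤ) : ℂ) + ((ε i : ℕ) : ℂ) / 2) * (((δ i : ℕ) : ℂ) / 2)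
          + ∑ i ∈ S, ((m i : ℂ) + ((ε i : ℕ) : ℂ) / 2) * ((δ i : ℕ) : ℂ) := by
      rw [← Finset.sum_add_sum_compl S (fun i => ((m i : ℂ) + ((ε i : ℕ) : ℂ) / 2)
        * (((δ i : ℕ) : ℂ) / 2)), ← Finset.sum_add_sum_compl S
        (fun i => ((((e m) i : ℤ) : ℂ) + ((ε i : ℕ) : ℂ) / 2) * (((δ i : ℕ) : ℂ) / 2))]
      have c2 : ∑ i ∈ Sᶜ, ((((e m) i : ℤ) : ℂ) + ((ε i : ℕ) : ℂ) / 2) * (((δ i : ℕ) : ℂ) / 2)
          = ∑ i ∈ Sᶜ, ((m i : ℂ) + ((ε i : ℕ) : ℂ) / 2) * (((δ i : ℕ) : ℂ) / 2) :=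
        Finset.sum_congr rfl fun i hi => by rw [y2 i hi]
      have c1 : ∑ i ∈ S, ((((e m) i : ℤ) : ℂ) + ((ε i : ℕ) : ℂ) / 2) * (((δ i : ℕ) : ℂ) / 2)
          + ∑ i ∈ S, ((m i : ℂ) + ((ε i : ℕ) : ℂ) / 2) * ((δ i : ℕ) : ℂ)
          = ∑ i ∈ S, ((m i : ℂ) + ((ε i : ℕ) : ℂ) / 2) * (((δ i : ℕ) : ℂ) / 2) := by
        rw [← Finset.sum_add_distrib]
        refine Finset.sum_congr rfl fun i hi => ?_
        rw [y1 i hi]; ring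
      rw [c2, ← c1]; ring
    -- the integer in the exponent
    set N : ℤ := (c + ∑ i ∈ S, ((ε i : ℕ) : ℤ) * ((δ i : ℕ) : ℤ))
      + 2 * (∑ i ∈ S, ∑ j ∈ Sᶜ, a i j * m i * m j)
      + ∑ i ∈ S, m i * (∑ j ∈ Sᶜ, a i j * ((ε j : ℕ) : ℤ))
      + ∑ j ∈ Sᶜ, m j * (∑ i ∈ S, a i j * ((ε i : ℕ) : ℤ))
      + 2 * ∑ i ∈ S, m i * ((δ i : ℕ) : ℤ) with hN
    have hNodd : Odd N := by
      have t1 : Even (∑ i ∈ S, m i * (∑ j ∈ Sᶜ, a i j * ((ε j : ℕ) : ℤ))) :=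
        Finset.even_sum _ fun i hi => (h2 i hi).mul_left _
      have t2 : Even (∑ j ∈ Sᶜ, m j * (∑ i ∈ S, a i j * ((ε i : ℕ) : ℤ))) :=
        Finset.even_sum _ fun j hj => (h1 j (Finset.mem_compl.mp hj)).mul_left _
      exact (((hodd.add_even (even_two_mul _)).add_even t1).add_even t2).add_even
        (even_two_mul _)
    have hNval : (N : ℂ) = 2 * ∑ i ∈ S, ∑ j ∈ Sᶜ, (a i j : ℂ)
          * ((m i : ℂ) + ((ε i : ℕ) : ℂ) / 2) * ((m j : ℂ) + ((ε j : ℕ) : ℂ) / 2)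
        + 2 * ∑ i ∈ S, ((m i : ℂ) + ((ε i : ℕ) : ℂ) / 2) * ((δ i : ℕ) : ℂ) := by
      have hcC : (c : ℂ) = (∑ i ∈ S, ∑ j ∈ Sᶜ, (a i j : ℂ) * ((ε i : ℕ) : ℂ)
          * ((ε j : ℕ) : ℂ)) / 2 := by
        have := congrArg (fun z : ℤ => (z : ℂ)) hc
        push_cast at this
        rw [this]; ring
      have u1 : ∑ i ∈ S, ∑ j ∈ Sᶜ, (a i j : ℂ)
          * ((m i : ℂ) + ((ε i : ℕ) : ℂ) / 2) * ((m j : ℂ) + ((ε j : ℕ) : ℂ) / 2)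
          = ∑ i ∈ S, ∑ j ∈ Sᶜ, (a i j : ℂ) * (m i : ℂ) * (m j : ℂ)
            + (∑ i ∈ S, (m i : ℂ) * ∑ j ∈ Sᶜ, (a i j : ℂ) * ((ε j : ℕ) : ℂ)) / 2
            + (∑ j ∈ Sᶜ, (m j : ℂ) * ∑ i ∈ S, (a i j : ℂ) * ((ε i : ℕ) : ℂ)) / 2
            + (∑ i ∈ S, ∑ j ∈ Sᶜ, (a i j : ℂ) * ((ε i : ℕ) : ℂ) * ((ε j : ℕ) : ℂ)) / 4 := by
        have v : ∑ j ∈ Sᶜ, (m j : ℂ) * ∑ i ∈ S, (a i j : ℂ) * ((ε i : ℕ) : ℂ)
            = ∑ i ∈ S, ∑ j ∈ Sᶜ, (m j : ℂ) * ((a i j : ℂ) * ((ε i : ℕ) : ℂ)) := by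
          rw [Finset.sum_comm]
          exact Finset.sum_congr rfl fun j _ => by rw [Finset.mul_sum]
        rw [v, Finset.sum_div, Finset.sum_div, Finset.sum_div, ← Finset.sum_add_distrib,
          ← Finset.sum_add_distrib, ← Finset.sum_add_distrib]
        refine Finset.sum_congr rfl fun i _ => ?_
        rw [Finset.mul_sum, Finset.sum_div, Finset.sum_div, Finset.sum_div,
          ← Finset.sum_add_distrib, ← Finset.sum_add_distrib, ← Finset.sum_add_distrib]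
        exact Finset.sum_congr rfl fun j _ => by ring
      have u2 : ∑ i ∈ S, ((m i : ℂ) + ((ε i : ℕ) : ℂ) / 2) * ((δ i : ℕ) : ℂ)
          = ∑ i ∈ S, (m i : ℂ) * ((δ i : ℕ) : ℂ)
            + (∑ i ∈ S, ((ε i : ℕ) : ℂ) * ((δ i : ℕ) : ℂ)) / 2 := by
        rw [Finset.sum_div, ← Finset.sum_add_distrib]
        exact Finset.sum_congr rfl fun i _ => by ring
      rw [u1, u2, hN]
      push_cast
      rw [hcC]
      ring
    have hE : (Real.pi * I * (∑ i, ∑ j,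
        ((m i : ℂ) + ((ε i : ℕ) : ℂ) / 2) * τ i j * ((m j : ℂ) + ((ε j : ℕ) : ℂ) / 2))
      + 2 * Real.pi * I * ∑ i, ((m i : ℂ) + ((ε i : ℕ) : ℂ) / 2) * (((δ i : ℕ) : ℂ) / 2))
      = (Real.pi * I * (∑ i, ∑ j,
        ((((e m) i : ℤ) : ℂ) + ((ε i : ℕ) : ℂ) / 2) * τ i j
          * ((((e m) j : ℤ) : ℂ) + ((ε j : ℕ) : ℂ) / 2))
      + 2 * Real.pi * I * ∑ i, ((((e m) i : ℤ) : ℂ) + ((ε i : ℕ) : ℂ) / 2)
          * (((δ i : ℕ) : ℂ) / 2)) + Real.pi * I * (N : ℂ) := by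
      rw [hNval]
      rw [l]
      rw [show (∑ i, ∑ j,
        ((m i : ℂ) + ((ε i : ℕ) : ℂ) / 2) * τ i j * ((m j : ℂ) + ((ε j : ℕ) : ℂ) / 2)) = _ from q]
      ring
    simp only [hF]
    rw [hE, Complex.exp_add _ (Real.pi * I * (N : ℂ)), exp_odd N hNodd]
    ring
  have h : ∑' m, F m = - ∑' m, F m := by
    calc ∑' m, F m = ∑' m, - F (e m) := tsum_congr key
      _ = - ∑' m, F (e m) := tsum_neg
      _ = - ∑' m, F m := by rw [e.tsum_eq F]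
  have h0 : ∑' m, F m = 0 := self_eq_neg.mp h
  exact h0

end AM
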