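import Pool.Agent.Lib.MP_b57e3c_ag.NDefs

/-! Duality: `dim H_S - dim H_{Sᶜ} = |S| - |Sᶜ|`. -/

namespace AM

namespace NB

/-- extension by zero -/
def ext {n : ℕ} (S : Finset (Fin n)) : (S → ZMod 2) →ₗ[ZMod 2] (Fin n → ZMod 2) where
  toFun f i := if h : i ∈ S then f ⟨i, h⟩ else 0
  map_add' f g := by
    funext i
    by_cases h : i ∈ S <;> simp [h]
  map_smul' c f := by
    funext i
    by_cases h : i ∈ S <;> simp [h]

theorem ext_mem {n : ℕ} {S : Finset (Fin n)} (f : S → ZMod 2) {i : Fin n} (h : i ∈ S) :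
    ext S f i = f ⟨i, h⟩ := by
  simp [ext, h]

theorem ext_notMem {n : ℕ} {S : Finset (Fin n)} (f : S → ZMod 2) {i : Fin n} (h : i ∉ S) :
    ext S f i = 0 := by
  simp [ext, h]

theorem ext_inj {n : ℕ} (S : Finset (Fin n)) : Function.Injective (ext S) := by
  intro f g h
  funext i
  have := congrFun h i.1
  rwa [ext_mem f i.2, ext_mem g i.2] at this

/-- the block of `M` with rows in `T` and columns in `S` -/
def B {n : ℕ} (M : Matrix (Fin n) (Fin n) (ZMod 2)) (S T : Finset (Fin n)) :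
    Matrix T S (ZMod 2) := Matrix.of fun i j => M i.1 j.1

theorem mulVec_ext {n : ℕ} (M : Matrix (Fin n) (Fin n) (ZMod 2)) (S T : Finset (Fin n))
    (f : S → ZMod 2) (i : T) : (M.mulVec (ext S f)) i.1 = (B M S T).mulVec f i := by
  have h1 : (M.mulVec (ext S f)) i.1 = ∑ j, M i.1 j * ext S f j := rfl
  have h2 : (B M S T).mulVec f i = ∑ j : S, M i.1 j.1 * f j := rfl
  rw [h1, h2, ← Finset.sum_subset (Finset.subset_univ S),
    ← Finset.sum_coe_sort S (fun j => M i.1 j * ext S f j)]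
  · exact Finset.sum_congr rfl fun j _ => by rw [ext_mem f j.2]
  · intro j _ hj
    rw [ext_notMem f hj, mul_zero]

theorem HS_eq {n : ℕ} (M : Matrix (Fin n) (Fin n) (ZMod 2)) {S T : Finset (Fin n)}
    (hST : ∀ i, i ∉ S ↔ i ∈ T) :
    HS M S = Submodule.map (ext S) (LinearMap.ker (B M S T).mulVecLin) := by
  ext x
  rw [Submodule.mem_map]
  constructor
  · rintro ⟨h1, h2⟩
    have hx : ext S (fun i => x i.1) = x := by
      funext i
      by_cases h : i ∈ S
      · rw [ext_mem _ h]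
      · rw [ext_notMem _ h, h1 i h]
    refine ⟨fun i => x i.1, ?_, hx⟩
    rw [LinearMap.mem_ker]
    funext i
    rw [Matrix.mulVecLin_apply, ← mulVec_ext, hx]
    exact h2 i.1 ((hST i.1).2 i.2)
  · rintro ⟨f, hf, rfl⟩
    rw [LinearMap.mem_ker] at hf
    refine ⟨fun i hi => ext_notMem f hi, fun i hi => ?_⟩
    have h1 := mulVec_ext M S T f ⟨i, (hST i).1 hi⟩
    rw [h1, ← Matrix.mulVecLin_apply, hf]
    rfl

theorem finrank_add {n : ℕ} (M : Matrix (Fin n) (Fin n) (ZMod 2)) {S T : Finset (Fin n)}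
    (hST : ∀ i, i ∉ S ↔ i ∈ T) :
    Module.finrank (ZMod 2) (HS M S) + (B M S T).rank = S.card := by
  have h1 : Module.finrank (ZMod 2) (HS M S) =
      Module.finrank (ZMod 2) (LinearMap.ker (B M S T).mulVecLin) := by
    rw [HS_eq M hST]
    exact (Submodule.equivMapOfInjective (ext S) (ext_inj S) _).finrank_eq.symm
  have h2 := LinearMap.finrank_range_add_finrank_ker (B M S T).mulVecLin
  have h3 : Module.finrank (ZMod 2) (S → ZMod 2) = S.card := by
    rw [Module.finrank_fintype_fun_eq_card, Fintype.card_coe]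
  rw [h1, Matrix.rank]
  omega

end NB

theorem dim_rel {n : ℕ} {M : Matrix (Fin n) (Fin n) (ZMod 2)} (hM : M.IsSymm)
    (S : Finset (Fin n)) :
    Module.finrank (ZMod 2) (HS M S) + Sᶜ.card = Module.finrank (ZMod 2) (HS M Sᶜ) + S.card := by
  have h1 := NB.finrank_add M (S := S) (T := Sᶜ) fun i => by rw [Finset.mem_compl]
  have h2 := NB.finrank_add M (S := Sᶜ) (T := S) fun i => by
    rw [Finset.mem_compl, not_not]
  have h3 : NB.B M Sᶜ S = (NB.B M S Sᶜ).transpose := by
    ext i j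
    have := hM.apply i.1 j.1
    simp only [NB.B, Matrix.of_apply, Matrix.transpose_apply]
    exact this.symm
  have h4 : (NB.B M Sᶜ S).rank = (NB.B M S Sᶜ).rank := by
    rw [h3, Matrix.rank_transpose]
  omega

theorem HS_inf {n : ℕ} (M : Matrix (Fin n) (Fin n) (ZMod 2)) (S T : Finset (Fin n)) :
    HS M S ⊓ HS M T = HS M (S ∩ T) := by
  ext x
  rw [Submodule.mem_inf]
  constructor
  · rintro ⟨⟨h1, h2⟩, ⟨h3, h4⟩⟩
    refine ⟨fun i hi => ?_, fun i hi => ?_⟩
    · by_cases h : i ∈ S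
      · exact h3 i fun h' => hi (Finset.mem_inter.2 ⟨h, h'⟩)
      · exact h1 i h
    · by_cases h : i ∈ S
      · exact h4 i fun h' => hi (Finset.mem_inter.2 ⟨h, h'⟩)
      · exact h2 i h
  · rintro ⟨h1, h2⟩
    exact ⟨⟨fun i hi => h1 i fun h => hi (Finset.mem_inter.1 h).1,
      fun i hi => h2 i fun h => hi (Finset.mem_inter.1 h).1⟩,
      ⟨fun i hi => h1 i fun h => hi (Finset.mem_inter.1 h).2,
      fun i hi => h2 i fun h => hi (Finset.mem_inter.1 h).2⟩⟩

theorem HS_mono {n : ℕ} (M : Matrix (Fin n) (Fin n) (ZMod 2)) {S T : Finset (Fin n)}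
    (h : S ⊆ T) : HS M S ≤ HS M T := by
  rintro x ⟨h1, h2⟩
  exact ⟨fun i hi => h1 i fun h' => hi (h h'), fun i hi => h2 i fun h' => hi (h h')⟩

/-- without disjoint pairs all dimensions are known -/
theorem dim_noPair {n : ℕ} {M : Matrix (Fin n) (Fin n) (ZMod 2)} (hM : M.IsSymm)
    (h : NoPair M) (S : Finset (Fin n)) :
    Module.finrank (ZMod 2) (HS M S) = 2 * S.card - n := by
  have h1 := dim_rel hM S
  have h2 : Sᶜ.card = n - S.card := by rw [Finset.card_compl, Fintype.card_fin]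
  have h3 : S.card ≤ n := by
    have := Finset.card_le_univ S
    rwa [Fintype.card_fin] at this
  rcases h S with h4 | h4
  · rw [h4, finrank_bot] at h1 ⊢
    omega
  · rw [h4, finrank_bot] at h1
    omega

theorem card_noPair {n : ℕ} {M : Matrix (Fin n) (Fin n) (ZMod 2)} (hM : M.IsSymm)
    (h : NoPair M) (S : Finset (Fin n)) :
    Nat.card (HS M S) = 2 ^ (2 * S.card - n) := by
  have h1 := Module.natCard_eq_pow_finrank (K := ZMod 2) (V := HS M S)
  rw [h1, dim_noPair hM h S, Nat.card_zmod]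

end AM
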