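import Pool.Agent.Lib.MP_b57e3c_ag.Defs

/-! Theta constants and the theta-null divisor. -/

open Complex

namespace AM

/-- the theta constant with characteristic `(ε/2, δ/2)` -/
noncomputable def thetaConst {g : ℕ} (τ : Matrix (Fin g) (Fin g) ℂ) (ε δ : Fin g → Fin 2) : ℂ :=
  ∑' m : Fin g → ℤ, cexp (Real.pi * I * (∑ i, ∑ j,
      ((m i : ℂ) + ((ε i : ℕ) : ℂ) / 2) * τ i j * ((m j : ℂ) + ((ε j : ℕ) : ℂ) / 2))
    + 2 * Real.pi * I * ∑ i, ((m i : ℂ) + ((ε i : ℕ) : ℂ) / 2) * (((δ i : ℕ) : ℂ) / 2))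

/-- some even theta constant vanishes -/
def ThetaNull {g : ℕ} (τ : Matrix (Fin g) (Fin g) ℂ) : Prop :=
  ∃ ε δ : Fin g → Fin 2, Even (∑ i, (ε i : ℕ) * (δ i : ℕ)) ∧ thetaConst τ ε δ = 0

/-- vectors `x` such that `x` and `M x` are supported in `S` -/
def HS {n : ℕ} (M : Matrix (Fin n) (Fin n) (ZMod 2)) (S : Finset (Fin n)) :
    Submodule (ZMod 2) (Fin n → ZMod 2) where
  carrier := {x | (∀ i, i ∉ S → x i = 0) ∧ ∀ i, i ∉ S → (M.mulVec x) i = 0}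
  add_mem' := by
    rintro a b ⟨ha, ha'⟩ ⟨hb, hb'⟩
    refine ⟨fun i hi => by simp [ha i hi, hb i hi], fun i hi => ?_⟩
    rw [Matrix.mulVec_add, Pi.add_apply, ha' i hi, hb' i hi, add_zero]
  zero_mem' := ⟨fun _ _ => rfl, fun i _ => by simp⟩
  smul_mem' := by
    rintro c a ⟨ha, ha'⟩
    refine ⟨fun i hi => by simp [ha i hi], fun i hi => ?_⟩
    rw [Matrix.mulVec_smul, Pi.smul_apply, ha' i hi, smul_zero]

/-- the weight of the stabilizer element of `x` -/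
def wt {n : ℕ} (M : Matrix (Fin n) (Fin n) (ZMod 2)) (x : Fin n → ZMod 2) : ℕ :=
  (Finset.univ.filter (fun i => x i ≠ 0 ∨ (M.mulVec x) i ≠ 0)).card

/-- no two nonzero elements with disjoint supports -/
def NoPair {n : ℕ} (M : Matrix (Fin n) (Fin n) (ZMod 2)) : Prop :=
  ∀ S : Finset (Fin n), HS M S = ⊥ ∨ HS M Sᶜ = ⊥

end AM
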