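import Pool.Agent.Lib.MP_b57e3c_ag.GrA

/-! Connected graphs on three vertices. -/

open Complex

namespace AM

variable {α : Type*} [LinearOrder α]

/-- overwrite three slots -/
def upd3 (p : α → ℂ × ℂ) (a b c : α) (u v w : ℂ × ℂ) : α → ℂ × ℂ :=
  Function.update (Function.update (Function.update p a u) b v) c w

/-- the sign of an edge -/
def sg3 (e : Bool) : ℂ := if e = true then -1 else 1

theorem flip_snd3 (A : α → α → Bool) (v : α) (p : α → ℂ × ℂ) (j : α) :
    (flip A v p j).2 = sg3 (A v j) * (p j).2 := by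
  unfold flip sg3
  dsimp only
  split_ifs <;> ring

theorem flip_fst3 (A : α → α → Bool) (v : α) (p : α → ℂ × ℂ) (j : α) :
    (flip A v p j).1 = (p j).1 := rfl

theorem Phi_three {A : α → α → Bool} (hA : Sym A) {a b c : α} (hab : a ≠ b) (hac : a ≠ c)
    (hbc : b ≠ c) (p : α → ℂ × ℂ) :
    Phi {a, b, c} A p =
      (p a).1 * ((p b).1 * ((p c).1 + (p c).2) +
        (p b).2 * ((p c).1 + sg3 (A b c) * (p c).2)) +
      (p a).2 * ((p b).1 * ((p c).1 + sg3 (A a c) * (p c).2) +
        sg3 (A a b) * (p b).2 * ((p c).1 + sg3 (A b c) * (sg3 (A a c) * (p c).2))) := by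
  have h1 : ∀ q : α → ℂ × ℂ, Phi {c} A q = (q c).1 + (q c).2 := by
    intro q
    have h := Phi_insert (V := (∅ : Finset α)) (v := c) (by simp) hA q
    rw [Phi_empty, Phi_empty] at h
    have h' : ({c} : Finset α) = insert c ∅ := by simp
    rw [h', h]
    ring
  have h2 : ∀ q : α → ℂ × ℂ, Phi {b, c} A q =
      (q b).1 * ((q c).1 + (q c).2) + (q b).2 * ((q c).1 + sg3 (A b c) * (q c).2) := by
    intro q
    rw [Phi_insert (V := ({c} : Finset α)) (v := b) (by simpa using hbc) hA q, h1, h1,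
      flip_snd3, flip_fst3]
  rw [Phi_insert (V := ({b, c} : Finset α)) (v := a) (by simp [hab, hac]) hA p, h2, h2,
    flip_snd3, flip_fst3, flip_snd3, flip_fst3]

theorem Phi_upd3 {A : α → α → Bool} (hA : Sym A) {a b c : α} (hab : a ≠ b) (hac : a ≠ c)
    (hbc : b ≠ c) (κ : α → ℂ) (p : α → ℂ × ℂ) (u v w : ℂ × ℂ) :
    Phi {a, b, c} A (scl κ (upd3 p a b c u v w)) =
      u.1 * (v.1 * (w.1 + κ c * w.2) +
        κ b * v.2 * (w.1 + sg3 (A b c) * (κ c * w.2))) +
      κ a * u.2 * (v.1 * (w.1 + sg3 (A a c) * (κ c * w.2)) +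
        sg3 (A a b) * (κ b * v.2) * (w.1 + sg3 (A b c) * (sg3 (A a c) * (κ c * w.2)))) := by
  have ha : upd3 p a b c u v w a = u := by
    unfold upd3
    rw [Function.update_of_ne hac, Function.update_of_ne hab, Function.update_self]
  have hb : upd3 p a b c u v w b = v := by
    unfold upd3
    rw [Function.update_of_ne hbc, Function.update_self]
  have hc : upd3 p a b c u v w c = w := by
    unfold upd3
    rw [Function.update_self]
  rw [Phi_three hA hab hac hbc]
  unfold scl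
  rw [ha, hb, hc]

theorem conn3 {A : α → α → Bool} (hA : Sym A) {a b c : α} (hab : a ≠ b) (hac : a ≠ c)
    (hbc : b ≠ c) (hc : Conn A {a, b, c}) :
    (A a b = true ∧ A b c = true ∧ A a c = false) ∨
    (A a b = true ∧ A b c = false ∧ A a c = true) ∨
    (A a b = false ∧ A b c = true ∧ A a c = true) ∨
    (A a b = true ∧ A b c = true ∧ A a c = true) := by
  have h1 : A a b = true ∨ A a c = true := by
    obtain ⟨i, hi, j, hj, h⟩ := hc {a} (by simp) (by simp)
      ⟨b, by simp [hab.symm]⟩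
    simp only [Finset.mem_singleton] at hi
    subst hi
    simp only [Finset.mem_sdiff, Finset.mem_insert, Finset.mem_singleton] at hj
    rcases hj with ⟨h1 | h1 | h1, h2⟩
    · exact absurd h1 h2
    · subst h1
      exact Or.inl h
    · subst h1
      exact Or.inr h
  have h2 : A a b = true ∨ A b c = true := by
    obtain ⟨i, hi, j, hj, h⟩ := hc {b} (by simp) (by simp)
      ⟨a, by simp [hab]⟩
    simp only [Finset.mem_singleton] at hi
    subst hi
    simp only [Finset.mem_sdiff, Finset.mem_insert, Finset.mem_singleton] at hj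
    rcases hj with ⟨h1 | h1 | h1, h2⟩
    · subst h1
      left
      rw [hA]
      exact h
    · exact absurd h1 h2
    · subst h1
      exact Or.inr h
  have h3 : A a c = true ∨ A b c = true := by
    obtain ⟨i, hi, j, hj, h⟩ := hc {c} (by simp) (by simp)
      ⟨a, by simp [hac]⟩
    simp only [Finset.mem_singleton] at hi
    subst hi
    simp only [Finset.mem_sdiff, Finset.mem_insert, Finset.mem_singleton] at hj
    rcases hj with ⟨h1 | h1 | h1, h2⟩
    · subst h1
      left
      rw [hA]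
      exact h
    · subst h1
      right
      rw [hA]
      exact h
    · exact absurd h1 h2
  cases hx : A a b <;> cases hy : A b c <;> cases hz : A a c <;> simp_all

theorem ne_zero_of_pow4 {k : ℂ} (hk : k ^ 4 = 1) : k ≠ 0 := by
  rintro rfl
  norm_num at hk

theorem nonOct_scale {r : ℂ × ℂ} (hr : NonOct r) {k : ℂ} (hk : k ^ 4 = 1) :
    NonOct (r.1, k * r.2) := by
  obtain ⟨h0, h1, h2, h3⟩ := hr
  have hk0 := ne_zero_of_pow4 hk
  have hk2 : k ^ 2 = 1 ∨ k ^ 2 = -1 := by
    have : (k ^ 2 - 1) * (k ^ 2 + 1) = 0 := by linear_combination hk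
    rcases mul_eq_zero.mp this with h | h
    · left
      linear_combination h
    · right
      linear_combination h
  refine ⟨h0, mul_ne_zero hk0 h1, ?_, ?_⟩
  · show r.1 ^ 2 ≠ (k * r.2) ^ 2
    intro h
    rcases hk2 with h' | h'
    · apply h2
      linear_combination h + r.2 ^ 2 * h'
    · apply h3
      linear_combination h + r.2 ^ 2 * h'
  · show r.1 ^ 2 ≠ - (k * r.2) ^ 2
    intro h
    rcases hk2 with h' | h'
    · apply h3
      linear_combination h - r.2 ^ 2 * h'
    · apply h2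
      linear_combination h - r.2 ^ 2 * h'

theorem hdet3 {A : α → α → Bool} (hA : Sym A) {a b c : α} (hab : a ≠ b) (hac : a ≠ c)
    (hbc : b ≠ c) (hc : Conn A {a, b, c}) {κ : α → ℂ} (hκ : ∀ i, κ i ^ 4 = 1) (p : α → ℂ × ℂ) :
    hdet (fun x y z => Phi {a, b, c} A (scl κ (upd3 p a b c (ev x) (ev y) (ev z)))) ≠ 0 := by
  have ha0 := ne_zero_of_pow4 (hκ a)
  have hb0 := ne_zero_of_pow4 (hκ b)
  have hc0 := ne_zero_of_pow4 (hκ c)
  have h16 : (16 : ℂ) * (κ a * κ b * κ c) ^ 2 ≠ 0 :=
    mul_ne_zero (by norm_num) (pow_ne_zero _ (mul_ne_zero (mul_ne_zero ha0 hb0) hc0))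
  rcases conn3 hA hab hac hbc hc with ⟨hx, hy, hz⟩ | ⟨hx, hy, hz⟩ | ⟨hx, hy, hz⟩ | ⟨hx, hy, hz⟩
  all_goals
    simp only [hdet, Phi_upd3 hA hab hac hbc, hx, hy, hz, sg3, ev, if_true,
      Bool.false_eq_true, if_false]
  · intro h
    apply h16
    linear_combination h
  · intro h
    apply h16
    linear_combination h
  · intro h
    apply h16
    linear_combination h
  · intro h
    apply h16
    linear_combination -h

theorem det3 {A : α → α → Bool} (hA : Sym A) {a b c : α} (hab : a ≠ b) (hac : a ≠ c)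
    (hbc : b ≠ c) (hc : Conn A {a, b, c}) {κ : α → ℂ} (hκ : ∀ i, κ i ^ 4 = 1) (p : α → ℂ × ℂ)
    {r : ℂ × ℂ} (hr : NonOct r) :
    Phi {a, b, c} A (scl κ (upd3 p a b c r (ev false) (ev false))) *
      Phi {a, b, c} A (scl κ (upd3 p a b c r (ev true) (ev true))) -
    Phi {a, b, c} A (scl κ (upd3 p a b c r (ev false) (ev true))) *
      Phi {a, b, c} A (scl κ (upd3 p a b c r (ev true) (ev false))) ≠ 0 := by
  have hb0 := ne_zero_of_pow4 (hκ b)
  have hc0 := ne_zero_of_pow4 (hκ c)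
  obtain ⟨g0, g1, g2, g3⟩ := nonOct_scale hr (hκ a)
  dsimp only at g0 g1 g2 g3
  have hbc0 : κ b * κ c ≠ 0 := mul_ne_zero hb0 hc0
  have e1 : κ b * κ c * (r.1 ^ 2 - (κ a * r.2) ^ 2) ≠ 0 :=
    mul_ne_zero hbc0 (sub_ne_zero.mpr g2)
  have e2 : κ b * κ c * (r.1 * (κ a * r.2)) ≠ 0 := mul_ne_zero hbc0 (mul_ne_zero g0 g1)
  have e3 : κ b * κ c * (r.1 ^ 2 + (κ a * r.2) ^ 2) ≠ 0 := by
    refine mul_ne_zero hbc0 ?_
    intro h
    apply g3
    linear_combination h
  rcases conn3 hA hab hac hbc hc with ⟨hx, hy, hz⟩ | ⟨hx, hy, hz⟩ | ⟨hx, hy, hz⟩ | ⟨hx, hy, hz⟩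
  all_goals
    simp only [Phi_upd3 hA hab hac hbc, hx, hy, hz, sg3, ev, if_true,
      Bool.false_eq_true, if_false]
  · intro h
    apply e1
    linear_combination (-1 / 2) * h
  · intro h
    apply e2
    linear_combination (1 / 4) * h
  · intro h
    apply e1
    linear_combination (-1 / 2) * h
  · intro h
    apply e3
    linear_combination (-1 / 2) * h

theorem vec3 {A : α → α → Bool} (hA : Sym A) {a b c : α} (hab : a ≠ b) (hac : a ≠ c)
    (hbc : b ≠ c) (hc : Conn A {a, b, c}) {κ : α → ℂ} (hκ : ∀ i, κ i ^ 4 = 1) (p : α → ℂ × ℂ)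
    {r s : ℂ × ℂ} (hr : NonOct r) (hs : NonOct s) :
    ¬ ∀ x, Phi {a, b, c} A (scl κ (upd3 p a b c r s (ev x))) = 0 := by
  have hc0 := ne_zero_of_pow4 (hκ c)
  obtain ⟨g0, g1, g2, g3⟩ := nonOct_scale hr (hκ a)
  obtain ⟨k0, k1, k2, k3⟩ := nonOct_scale hs (hκ b)
  dsimp only at g0 g1 g2 g3 k0 k1 k2 k3
  set R := κ a * r.2 with hR
  set S := κ b * s.2 with hS
  have gp : r.1 + R ≠ 0 := by
    intro h
    apply g2
    linear_combination (r.1 - R) * h
  have kp : s.1 + S ≠ 0 := by
    intro h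
    apply k2
    linear_combination (s.1 - S) * h
  have e3 : r.1 ^ 2 + R ^ 2 ≠ 0 := by
    intro h
    apply g3
    linear_combination h
  intro hall
  have h0 := hall false
  have h1 := hall true
  rcases conn3 hA hab hac hbc hc with ⟨hx, hy, hz⟩ | ⟨hx, hy, hz⟩ | ⟨hx, hy, hz⟩ | ⟨hx, hy, hz⟩
  all_goals
    simp only [Phi_upd3 hA hab hac hbc, hx, hy, hz, sg3, ev, if_true,
      Bool.false_eq_true, if_false, ← hR, ← hS] at h0 h1
  · have e : s.1 * (r.1 + R) = 0 := by
      have h1' : κ c * (s.1 * (r.1 + R) * 2 - (r.1 * (s.1 * (1 + κ c * 0) +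
          S * (1 + -1 * (κ c * 0))) + R * (s.1 * (1 + 1 * (κ c * 0)) +
          -1 * S * (1 + -1 * (1 * (κ c * 0)))))) = 0 := by
        linear_combination h1
      have h2' := (mul_eq_zero.mp h1').resolve_left hc0
      linear_combination (1 / 2) * h2' + (1 / 2) * h0
    exact (mul_ne_zero k0 gp) e
  · have e : r.1 * (s.1 + S) = 0 := by
      have h1' : κ c * (r.1 * (s.1 + S) * 2 - (r.1 * (s.1 * (1 + κ c * 0) +
          S * (1 + 1 * (κ c * 0))) + R * (s.1 * (1 + -1 * (κ c * 0)) +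
          -1 * S * (1 + 1 * (-1 * (κ c * 0)))))) = 0 := by
        linear_combination h1
      have h2' := (mul_eq_zero.mp h1').resolve_left hc0
      linear_combination (1 / 2) * h2' + (1 / 2) * h0
    exact (mul_ne_zero g0 kp) e
  · have e : (r.1 + R) * (s.1 + S) = 0 := by
      linear_combination h0
    exact (mul_ne_zero gp kp) e
  · have e1 : r.1 * s.1 - R * S = 0 := by
      have h1' : κ c * ((r.1 * s.1 - R * S) * 2 - (r.1 * s.1 + r.1 * S + R * s.1 - R * S)) = 0 := by
        linear_combination h1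
      have h2' := (mul_eq_zero.mp h1').resolve_left hc0
      linear_combination (1 / 2) * h2' + (1 / 2) * h0
    have e2 : r.1 * S + R * s.1 = 0 := by
      linear_combination h0 - e1
    have e4 : (r.1 ^ 2 + R ^ 2) * s.1 = 0 := by
      linear_combination r.1 * e1 + R * e2
    exact (mul_ne_zero e3 k0) e4

end AM
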