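import Pool.Agent.Lib.MP_b57e3c_ag.Defs

/-! Even / odd splitting of `jacobiTheta₂`. -/

open Complex

namespace AM

private theorem thA_congr {f g : ℤ → ℂ} {a : ℂ} (h : HasSum f a) (e : ∀ n, f n = g n) :
    HasSum g a := by
  rwa [← funext e]

private theorem thA_even (m : ℤ) (z t : ℂ) :
    jacobiTheta₂_term (2 * m) z t = jacobiTheta₂_term m (2 * z) (4 * t) := by
  unfold jacobiTheta₂_term
  congr 1
  push_cast
  ring

private theorem thA_odd (m : ℤ) (z t : ℂ) :
    jacobiTheta₂_term (2 * m + 1) z t =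
      cexp (Real.pi * I * t + 2 * Real.pi * I * z) *
        jacobiTheta₂_term m (2 * z + 2 * t) (4 * t) := by
  unfold jacobiTheta₂_term
  rw [← Complex.exp_add]
  congr 1
  push_cast
  ring

/-- `s0` collects the even terms and `s1` the odd terms of `jacobiTheta₂`. -/
theorem hasSum_split {t : ℂ} (ht : 0 < t.im) (z c0 c1 : ℂ) :
    HasSum (fun n : ℤ => (if Even n then c0 else c1) * jacobiTheta₂_term n z t)
      (c0 * s0 t z + c1 * s1 t z) := by
  have h4 : 0 < (4 * t).im := by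
    have : (4 * t).im = 4 * t.im := by simp
    rw [this]
    linarith
  have he : HasSum (fun n : ℤ => if Even n then c0 * jacobiTheta₂_term n z t else 0)
      (c0 * s0 t z) := by
    have hinj : Function.Injective (fun m : ℤ => 2 * m) := by
      intro a b h
      simpa using h
    rw [← hinj.hasSum_iff]
    · have h := (hasSum_jacobiTheta₂_term (2 * z) h4).mul_left c0
      refine thA_congr h ?_
      intro m
      simp only [Function.comp_apply, even_two_mul, if_true]
      rw [thA_even]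
    · intro n hn
      rw [if_neg]
      rintro ⟨k, hk⟩
      exact hn ⟨k, by simp only; omega⟩
  have ho : HasSum (fun n : ℤ => if Even n then 0 else c1 * jacobiTheta₂_term n z t)
      (c1 * s1 t z) := by
    have hinj : Function.Injective (fun m : ℤ => 2 * m + 1) := by
      intro a b h
      simpa using h
    rw [← hinj.hasSum_iff]
    · have h := ((hasSum_jacobiTheta₂_term (2 * z + 2 * t) h4).mul_left
        (cexp (Real.pi * I * t + 2 * Real.pi * I * z))).mul_left c1
      refine thA_congr h ?_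
      intro m
      have hne : ¬ Even (2 * m + 1) := by
        rw [Int.not_even_iff_odd]
        exact ⟨m, rfl⟩
      simp only [Function.comp_apply, hne, if_false]
      rw [thA_odd]
    · intro n hn
      rw [if_pos]
      by_contra hne
      rw [Int.not_even_iff_odd] at hne
      obtain ⟨k, hk⟩ := hne
      exact hn ⟨k, hk.symm⟩
  refine thA_congr (he.add ho) ?_
  intro n
  by_cases h : Even n
  · simp [h]
  · simp [h]

private theorem thA_one {k : ℤ} : cexp (2 * Real.pi * I * k) = 1 := by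
  rw [Complex.exp_eq_one_iff]
  exact ⟨k, by ring⟩

private theorem thA_add (w : ℂ) (k : ℤ) : cexp (w + 2 * Real.pi * I * k) = cexp w := by
  rw [Complex.exp_add, thA_one, mul_one]

private theorem thA_add' (w : ℂ) (k : ℤ) (v : ℂ) :
    cexp ((w + 2 * Real.pi * I * k) + v) = cexp w * cexp v := by
  rw [Complex.exp_add, thA_add]

theorem s0_add_s1 {t : ℂ} (ht : 0 < t.im) (z : ℂ) : s0 t z + s1 t z = jacobiTheta₂ z t := by
  have h := hasSum_split ht z 1 1
  simp only [ite_self, one_mul] at h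
  exact h.unique (hasSum_jacobiTheta₂_term z ht)

theorem s0_sub_s1 {t : ℂ} (ht : 0 < t.im) (z : ℂ) :
    s0 t z - s1 t z = jacobiTheta₂ (z + 1 / 2) t := by
  have h := hasSum_split ht z 1 (-1)
  have e : 1 * s0 t z + -1 * s1 t z = s0 t z - s1 t z := by ring
  rw [e] at h
  refine (thA_congr h ?_).unique (hasSum_jacobiTheta₂_term (z + 1 / 2) ht)
  intro n
  rcases Int.even_or_odd n with hn | hn
  · rw [if_pos hn, one_mul]
    obtain ⟨k, rfl⟩ := hn
    unfold jacobiTheta₂_term
    rw [show 2 * (Real.pi : ℂ) * I * ((k + k : ℤ) : ℂ) * (z + 1 / 2)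
        + Real.pi * I * ((k + k : ℤ) : ℂ) ^ 2 * t
        = (2 * Real.pi * I * ((k + k : ℤ) : ℂ) * z + Real.pi * I * ((k + k : ℤ) : ℂ) ^ 2 * t)
          + 2 * Real.pi * I * k by push_cast; ring, thA_add]
  · rw [if_neg (Int.not_even_iff_odd.2 hn)]
    obtain ⟨k, rfl⟩ := hn
    unfold jacobiTheta₂_term
    rw [show 2 * (Real.pi : ℂ) * I * ((2 * k + 1 : ℤ) : ℂ) * (z + 1 / 2)
        + Real.pi * I * ((2 * k + 1 : ℤ) : ℂ) ^ 2 * t
        = ((2 * Real.pi * I * ((2 * k + 1 : ℤ) : ℂ) * z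
          + Real.pi * I * ((2 * k + 1 : ℤ) : ℂ) ^ 2 * t)
          + 2 * Real.pi * I * k) + Real.pi * I by push_cast; ring, thA_add',
      Complex.exp_pi_mul_I]
    ring

private theorem thA_I : cexp (Real.pi * I / 2) = I := by
  rw [show (Real.pi : ℂ) * I / 2 = (Real.pi / 2) * I by ring]
  exact Complex.exp_pi_div_two_mul_I

theorem s0_add_I_s1 {t : ℂ} (ht : 0 < t.im) (z : ℂ) :
    s0 t z + I * s1 t z = jacobiTheta₂ z (t + 1 / 2) := by
  have ht' : 0 < (t + 1 / 2).im := by
    have : (t + 1 / 2).im = t.im := by simp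
    rw [this]
    exact ht
  have h := hasSum_split ht z 1 I
  rw [one_mul] at h
  refine (thA_congr h ?_).unique (hasSum_jacobiTheta₂_term z ht')
  intro n
  rcases Int.even_or_odd n with hn | hn
  · rw [if_pos hn, one_mul]
    obtain ⟨k, rfl⟩ := hn
    unfold jacobiTheta₂_term
    rw [show 2 * (Real.pi : ℂ) * I * ((k + k : ℤ) : ℂ) * z
        + Real.pi * I * ((k + k : ℤ) : ℂ) ^ 2 * (t + 1 / 2)
        = (2 * Real.pi * I * ((k + k : ℤ) : ℂ) * z + Real.pi * I * ((k + k : ℤ) : ℂ) ^ 2 * t)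
          + 2 * Real.pi * I * ((k ^ 2 : ℤ) : ℂ) by push_cast; ring, thA_add]
  · rw [if_neg (Int.not_even_iff_odd.2 hn)]
    obtain ⟨k, rfl⟩ := hn
    unfold jacobiTheta₂_term
    rw [show 2 * (Real.pi : ℂ) * I * ((2 * k + 1 : ℤ) : ℂ) * z
        + Real.pi * I * ((2 * k + 1 : ℤ) : ℂ) ^ 2 * (t + 1 / 2)
        = ((2 * Real.pi * I * ((2 * k + 1 : ℤ) : ℂ) * z
          + Real.pi * I * ((2 * k + 1 : ℤ) : ℂ) ^ 2 * t)
          + 2 * Real.pi * I * ((k ^ 2 + k : ℤ) : ℂ)) + Real.pi * I / 2 by push_cast; ring,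
      thA_add', thA_I]
    ring

theorem s0_sub_I_s1 {t : ℂ} (ht : 0 < t.im) (z : ℂ) :
    s0 t z - I * s1 t z = jacobiTheta₂ z (t - 1 / 2) := by
  have ht' : 0 < (t - 1 / 2).im := by
    have : (t - 1 / 2).im = t.im := by simp
    rw [this]
    exact ht
  have h := hasSum_split ht z 1 (-I)
  have e : 1 * s0 t z + -I * s1 t z = s0 t z - I * s1 t z := by ring
  rw [e] at h
  refine (thA_congr h ?_).unique (hasSum_jacobiTheta₂_term z ht')
  intro n
  rcases Int.even_or_odd n with hn | hn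
  · rw [if_pos hn, one_mul]
    obtain ⟨k, rfl⟩ := hn
    unfold jacobiTheta₂_term
    rw [show 2 * (Real.pi : ℂ) * I * ((k + k : ℤ) : ℂ) * z
        + Real.pi * I * ((k + k : ℤ) : ℂ) ^ 2 * (t - 1 / 2)
        = (2 * Real.pi * I * ((k + k : ℤ) : ℂ) * z + Real.pi * I * ((k + k : ℤ) : ℂ) ^ 2 * t)
          + 2 * Real.pi * I * ((-k ^ 2 : ℤ) : ℂ) by push_cast; ring, thA_add]
  · rw [if_neg (Int.not_even_iff_odd.2 hn)]
    obtain ⟨k, rfl⟩ := hn
    unfold jacobiTheta₂_term
    have hI : cexp (-(Real.pi * I / 2)) = -I := by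
      rw [Complex.exp_neg, thA_I, Complex.inv_I]
    rw [show 2 * (Real.pi : ℂ) * I * ((2 * k + 1 : ℤ) : ℂ) * z
        + Real.pi * I * ((2 * k + 1 : ℤ) : ℂ) ^ 2 * (t - 1 / 2)
        = ((2 * Real.pi * I * ((2 * k + 1 : ℤ) : ℂ) * z
          + Real.pi * I * ((2 * k + 1 : ℤ) : ℂ) ^ 2 * t)
          + 2 * Real.pi * I * ((-(k ^ 2 + k) : ℤ) : ℂ)) + -(Real.pi * I / 2) by
            push_cast; ring,
      thA_add', hI]
    ring

end AM
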