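import Pool.Agent.Lib.MP_b57e3c_ag.ThA

/-! The addition formula. -/

open Complex

namespace AM

private theorem ThB_mul {f g : ℤ → ℂ} {a b : ℂ} (hf : HasSum f a) (hg : HasSum g b) :
    HasSum (fun p : ℤ × ℤ => f p.1 * g p.2) (a * b) := by
  have h1 : Summable (fun n => ‖f n‖) := hf.summable.norm
  have h2 : Summable (fun n => ‖g n‖) := hg.summable.norm
  have h3 : Summable (fun p : ℤ × ℤ => f p.1 * g p.2) := summable_mul_of_summable_norm h1 h2
  exact hf.mul hg h3

private theorem ThB_term (a b : ℤ) (x y t : ℂ) :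
    jacobiTheta₂_term (a + b) x t * jacobiTheta₂_term (a - b) y t =
      jacobiTheta₂_term a (x + y) (2 * t) * jacobiTheta₂_term b (x - y) (2 * t) := by
  unfold jacobiTheta₂_term
  rw [← Complex.exp_add, ← Complex.exp_add]
  congr 1
  push_cast
  ring

/-- The map `(a, b) ↦ (a + b, a - b)`. -/
private def ThB_phi (p : ℤ × ℤ) : ℤ × ℤ := (p.1 + p.2, p.1 - p.2)

private theorem ThB_phi_inj : Function.Injective ThB_phi := by
  rintro ⟨a, b⟩ ⟨a', b'⟩ h
  unfold ThB_phi at h
  rw [Prod.mk.injEq] at h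
  rw [Prod.mk.injEq]
  omega

private theorem ThB_range (p : ℤ × ℤ) (hp : p ∉ Set.range ThB_phi) :
    ¬ (Even p.1 ↔ Even p.2) := by
  intro h
  apply hp
  rcases Int.even_or_odd p.1 with h1 | h1
  · obtain ⟨k, hk⟩ := h1
    obtain ⟨l, hl⟩ := h.1 ⟨k, hk⟩
    refine ⟨(k + l, k - l), ?_⟩
    unfold ThB_phi
    ext
    · simp only
      omega
    · simp only
      omega
  · have h2 : Odd p.2 := by
      rw [← Int.not_even_iff_odd] at h1 ⊢
      exact fun h3 => h1 (h.2 h3)
    obtain ⟨k, hk⟩ := h1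
    obtain ⟨l, hl⟩ := h2
    refine ⟨(k + l + 1, k - l), ?_⟩
    unfold ThB_phi
    ext
    · simp only
      omega
    · simp only
      omega

/-- The sum over pairs of equal parity. -/
private noncomputable def ThB_F (x y t : ℂ) (p : ℤ × ℤ) : ℂ :=
  ((if Even p.1 then (1 : ℂ) else 0) * jacobiTheta₂_term p.1 x t) *
    ((if Even p.2 then (1 : ℂ) else 0) * jacobiTheta₂_term p.2 y t) +
  ((if Even p.1 then (0 : ℂ) else 1) * jacobiTheta₂_term p.1 x t) *
    ((if Even p.2 then (0 : ℂ) else 1) * jacobiTheta₂_term p.2 y t)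

private theorem ThB_F_phi (x y t : ℂ) (p : ℤ × ℤ) :
    ThB_F x y t (ThB_phi p) = jacobiTheta₂_term p.1 (x + y) (2 * t) *
      jacobiTheta₂_term p.2 (x - y) (2 * t) := by
  rw [← ThB_term]
  unfold ThB_F ThB_phi
  by_cases h : Even (p.1 + p.2)
  · have h' : Even (p.1 - p.2) := by
      rw [Int.even_sub, ← Int.even_add]
      exact h
    rw [if_pos h, if_pos h', if_pos h, if_pos h']
    ring
  · have h' : ¬ Even (p.1 - p.2) := by
      rw [Int.even_sub, ← Int.even_add]
      exact h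
    rw [if_neg h, if_neg h', if_neg h, if_neg h']
    ring

private theorem ThB_F_zero (x y t : ℂ) (p : ℤ × ℤ) (hp : p ∉ Set.range ThB_phi) :
    ThB_F x y t p = 0 := by
  have h := ThB_range p hp
  unfold ThB_F
  by_cases h1 : Even p.1
  · have h2 : ¬ Even p.2 := fun h3 => h ⟨fun _ => h3, fun _ => h1⟩
    rw [if_pos h1, if_neg h2, if_pos h1, if_neg h2]
    ring
  · have h2 : Even p.2 := by
      by_contra h3
      exact h ⟨fun h4 => absurd h4 h1, fun h4 => absurd h4 h3⟩
    rw [if_neg h1, if_pos h2, if_neg h1, if_pos h2]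
    ring

private theorem ThB_L {t : ℂ} (ht2 : 0 < (2 * t).im) (x y : ℂ) :
    HasSum (fun p : ℤ × ℤ => jacobiTheta₂_term p.1 (x + y) (2 * t) *
      jacobiTheta₂_term p.2 (x - y) (2 * t))
      (jacobiTheta₂ (x + y) (2 * t) * jacobiTheta₂ (x - y) (2 * t)) := by
  have h1 := hasSum_jacobiTheta₂_term (x + y) ht2
  have h2 := hasSum_jacobiTheta₂_term (x - y) ht2
  have h3 := ThB_mul h1 h2
  exact h3

private theorem ThB_R {t : ℂ} (ht : 0 < t.im) (x y : ℂ) :
    HasSum (ThB_F x y t) (s0 t x * s0 t y + s1 t x * s1 t y) := by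
  have hE : ∀ z : ℂ, HasSum (fun n : ℤ => (if Even n then (1 : ℂ) else 0) *
      jacobiTheta₂_term n z t) (s0 t z) := by
    intro z
    have h := hasSum_split ht z 1 0
    rw [one_mul, zero_mul, add_zero] at h
    exact h
  have hO : ∀ z : ℂ, HasSum (fun n : ℤ => (if Even n then (0 : ℂ) else 1) *
      jacobiTheta₂_term n z t) (s1 t z) := by
    intro z
    have h := hasSum_split ht z 0 1
    rw [one_mul, zero_mul, zero_add] at h
    exact h
  have hEE := ThB_mul (hE x) (hE y)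
  have hOO := ThB_mul (hO x) (hO y)
  have hfun : ThB_F x y t = fun p : ℤ × ℤ =>
      ((if Even p.1 then (1 : ℂ) else 0) * jacobiTheta₂_term p.1 x t) *
        ((if Even p.2 then (1 : ℂ) else 0) * jacobiTheta₂_term p.2 y t) +
      ((if Even p.1 then (0 : ℂ) else 1) * jacobiTheta₂_term p.1 x t) *
        ((if Even p.2 then (0 : ℂ) else 1) * jacobiTheta₂_term p.2 y t) := by
    funext p
    rw [ThB_F]
  rw [hfun]
  have h3 := hEE.add hOO
  exact h3

theorem addition {t : ℂ} (ht : 0 < t.im) (x y : ℂ) :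
    jacobiTheta₂ (x + y) (2 * t) * jacobiTheta₂ (x - y) (2 * t) =
      s0 t x * s0 t y + s1 t x * s1 t y := by
  have ht2 : 0 < (2 * t).im := by
    rw [Complex.mul_im]
    simp [ht]
  have hR := ThB_R ht x y
  rw [← ThB_phi_inj.hasSum_iff (ThB_F_zero x y t)] at hR
  have h : (ThB_F x y t ∘ ThB_phi) = fun p : ℤ × ℤ => jacobiTheta₂_term p.1 (x + y) (2 * t) *
      jacobiTheta₂_term p.2 (x - y) (2 * t) := by
    funext p
    exact ThB_F_phi x y t p
  rw [h] at hR
  exact (ThB_L ht2 x y).unique hR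

end AM
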