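import Pool.Agent.Lib.MP_b57e3c_ag.ThB

/-! Nonvanishing: `jacobiTheta₂` is not identically zero, `s0` and `s1` have no common zero. -/

open Complex

namespace AM

private theorem thC_int (T : ℂ) (n : ℤ) :
    ∫ x in (0 : ℝ)..1, jacobiTheta₂_term n x T = if n = 0 then 1 else 0 := by
  have h1 : ∀ x : ℝ, jacobiTheta₂_term n x T =
      cexp (2 * Real.pi * I * n * x) * cexp (Real.pi * I * n ^ 2 * T) := by
    intro x
    rw [jacobiTheta₂_term, ← Complex.exp_add]
  simp_rw [h1]
  rw [intervalIntegral.integral_mul_const]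
  by_cases hn : n = 0
  · subst hn
    simp
  · rw [if_neg hn]
    have hc : (2 * Real.pi * I * n : ℂ) ≠ 0 := by
      have h2 : (n : ℂ) ≠ 0 := Int.cast_ne_zero.mpr hn
      exact mul_ne_zero Complex.two_pi_I_ne_zero h2
    have h2 := integral_exp_mul_complex (a := 0) (b := 1) hc
    rw [h2]
    have h3 : cexp (2 * Real.pi * I * n * ((1 : ℝ) : ℂ)) = 1 := by
      rw [Complex.exp_eq_one_iff]
      exact ⟨n, by push_cast; ring⟩
    have h4 : cexp (2 * Real.pi * I * n * ((0 : ℝ) : ℂ)) = 1 := by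
      simp
    rw [h3, h4]
    simp

theorem jt_ne {T : ℂ} (hT : 0 < T.im) : ∃ z, jacobiTheta₂ z T ≠ 0 := by
  by_contra hcon
  push Not at hcon
  have h1 : HasSum (fun n : ℤ => ∫ x in (0 : ℝ)..1, jacobiTheta₂_term n x T)
      (∫ x in (0 : ℝ)..1, jacobiTheta₂ x T) := by
    refine intervalIntegral.hasSum_integral_of_dominated_convergence
      (fun n _ => ‖jacobiTheta₂_term n 0 T‖) ?_ ?_ ?_ ?_ ?_
    · intro n
      refine Continuous.aestronglyMeasurable ?_
      unfold jacobiTheta₂_term
      fun_prop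
    · intro n
      refine Filter.Eventually.of_forall fun x _ => ?_
      rw [norm_jacobiTheta₂_term, norm_jacobiTheta₂_term]
      simp
    · exact Filter.Eventually.of_forall fun x _ =>
        ((summable_jacobiTheta₂_term_iff 0 T).mpr hT).norm
    · exact intervalIntegrable_const
    · exact Filter.Eventually.of_forall fun x _ => hasSum_jacobiTheta₂_term x hT
  have h2 : ∫ x in (0 : ℝ)..1, jacobiTheta₂ x T = 0 := by
    simp_rw [hcon]
    simp
  rw [h2] at h1
  simp_rw [thC_int] at h1
  have h3 : HasSum (fun n : ℤ => if n = 0 then (1 : ℂ) else 0) 1 := hasSum_ite_eq 0 1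
  exact zero_ne_one (h1.unique h3)

private theorem thC_diff {T : ℂ} (hT : 0 < T.im) : Differentiable ℂ (fun z => jacobiTheta₂ z T) :=
  fun z => differentiableAt_jacobiTheta₂_fst z hT

theorem no_common {t : ℂ} (ht : 0 < t.im) (z : ℂ) : ¬ (s0 t z = 0 ∧ s1 t z = 0) := by
  rintro ⟨h0, h1⟩
  have hT : 0 < (2 * t).im := by
    have : (2 * t).im = 2 * t.im := by simp
    rw [this]
    linarith
  have h : ∀ x, jacobiTheta₂ (x + z) (2 * t) * jacobiTheta₂ (x - z) (2 * t) = 0 := by
    intro x
    rw [addition ht, h0, h1]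
    ring
  obtain ⟨w, hw⟩ := jt_ne hT
  have hf : AnalyticOnNhd ℂ (fun x => jacobiTheta₂ (x + z) (2 * t)) Set.univ := by
    apply DifferentiableOn.analyticOnNhd _ isOpen_univ
    exact ((thC_diff hT).comp (differentiable_id.add_const z)).differentiableOn
  have hg : AnalyticOnNhd ℂ (fun x => jacobiTheta₂ (x - z) (2 * t)) Set.univ := by
    apply DifferentiableOn.analyticOnNhd _ isOpen_univ
    exact ((thC_diff hT).comp (differentiable_id.sub_const z)).differentiableOn
  rcases hf.eq_zero_or_eq_zero_of_mul_eq_zero hg (fun x _ => h x) isPreconnected_univ with h3 | h3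
  · have h4 := h3 (w - z) (Set.mem_univ _)
    rw [sub_add_cancel] at h4
    exact hw h4
  · have h4 := h3 (w + z) (Set.mem_univ _)
    rw [add_sub_cancel_right] at h4
    exact hw h4

private theorem thC_im {t : ℂ} (ht : 0 < t.im) : 0 < (4 * t).im := by
  have : (4 * t).im = 4 * t.im := by simp
  rw [this]
  linarith

theorem differentiable_s0 {t : ℂ} (ht : 0 < t.im) : Differentiable ℂ (s0 t) := by
  exact (thC_diff (thC_im ht)).comp (differentiable_id.const_mul 2)

theorem differentiable_s1 {t : ℂ} (ht : 0 < t.im) : Differentiable ℂ (s1 t) := by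
  have h1 : Differentiable ℂ (fun z : ℂ => 2 * z + 2 * t) := by fun_prop
  have h2 : Differentiable ℂ (fun z : ℂ => jacobiTheta₂ (2 * z + 2 * t) (4 * t)) :=
    (thC_diff (thC_im ht)).comp h1
  have h3 : Differentiable ℂ (fun z : ℂ => cexp (Real.pi * I * t + 2 * Real.pi * I * z)) := by
    fun_prop
  exact h3.mul h2

theorem differentiable_wr {t : ℂ} (ht : 0 < t.im) : Differentiable ℂ (wr t) := by
  have h0 := differentiable_s0 ht
  have h1 := differentiable_s1 ht
  exact (h0.mul h1.deriv).sub (h1.mul h0.deriv)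

/-- the zero of `jacobiTheta₂` -/
theorem jt_zero (T : ℂ) : jacobiTheta₂ ((1 + T) / 2) T = 0 := by
  have h1 : jacobiTheta₂ ((1 + T) / 2) T =
      cexp (-Real.pi * I * (T + 2 * (-((1 + T) / 2)))) * jacobiTheta₂ (-((1 + T) / 2)) T := by
    rw [← jacobiTheta₂_add_left' (-((1 + T) / 2)) T,
      ← jacobiTheta₂_add_left (-((1 + T) / 2) + T) T]
    congr 1
    ring
  rw [jacobiTheta₂_neg_left] at h1
  have h2 : cexp (-Real.pi * I * (T + 2 * (-((1 + T) / 2)))) = -1 := by
    rw [show -Real.pi * I * (T + 2 * (-((1 + T) / 2))) = Real.pi * I by ring]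
    exact Complex.exp_pi_mul_I
  rw [h2] at h1
  have h3 : (2 : ℂ) * jacobiTheta₂ ((1 + T) / 2) T = 0 := by
    linear_combination h1
  exact (mul_eq_zero.mp h3).resolve_left two_ne_zero

end AM
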