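import Pool.Agent.Lib.MP_b57e3c_ag.ThC

/-! The Wronskian of `s0`, `s1`: its zeros are not octahedral points; octahedral points are
attained. -/

open Complex

namespace AM

/-- all octahedral ratios are attained -/
theorem exists_ratio {t : ℂ} (ht : 0 < t.im) {ρ : ℂ}
    (hρ : ρ = 0 ∨ ρ = 1 ∨ ρ = -1 ∨ ρ = I ∨ ρ = -I) :
    ∃ z, s1 t z = ρ * s0 t z ∧ s0 t z ≠ 0 := by
  have key : ∃ z, s1 t z = ρ * s0 t z := by
    rcases hρ with rfl | rfl | rfl | rfl | rfl
    · refine ⟨1 / 4, ?_⟩
      have h := jt_zero (4 * t)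
      have e : (2 : ℂ) * (1 / 4) + 2 * t = (1 + 4 * t) / 2 := by ring
      rw [s1, e, h, mul_zero, zero_mul]
    · refine ⟨t / 2, ?_⟩
      have h := s0_sub_s1 ht (t / 2)
      have e : t / 2 + 1 / 2 = (1 + t) / 2 := by ring
      rw [e, jt_zero] at h
      linear_combination -h
    · refine ⟨(1 + t) / 2, ?_⟩
      have h := s0_add_s1 ht ((1 + t) / 2)
      rw [jt_zero] at h
      linear_combination h
    · refine ⟨(1 + (t + 1 / 2)) / 2, ?_⟩
      have h := s0_add_I_s1 ht ((1 + (t + 1 / 2)) / 2)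
      rw [jt_zero] at h
      have hI := I_mul_I
      linear_combination -I * h + s1 t ((1 + (t + 1 / 2)) / 2) * hI
    · refine ⟨(1 + (t - 1 / 2)) / 2, ?_⟩
      have h := s0_sub_I_s1 ht ((1 + (t - 1 / 2)) / 2)
      rw [jt_zero] at h
      have hI := I_mul_I
      linear_combination I * h + s1 t ((1 + (t - 1 / 2)) / 2) * hI
  obtain ⟨z, hz⟩ := key
  refine ⟨z, hz, fun h0 => no_common ht z ⟨h0, ?_⟩⟩
  rw [hz, h0, mul_zero]

theorem wr_ne {t : ℂ} (ht : 0 < t.im) : ∃ z, wr t z ≠ 0 := by
  by_contra hcon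
  push Not at hcon
  obtain ⟨z₀, h1, h2⟩ := exists_ratio ht (ρ := 0) (Or.inl rfl)
  rw [zero_mul] at h1
  have hd0 := differentiable_s0 ht
  have hd1 := differentiable_s1 ht
  obtain ⟨r, hr, hball⟩ := Metric.eventually_nhds_iff_ball.1
    (hd0.continuous.continuousAt.eventually_ne h2)
  have hdq : DifferentiableOn ℂ (fun x => s1 t x / s0 t x) (Metric.ball z₀ r) := fun x hx =>
    ((hd1 x).div (hd0 x) (hball x hx)).differentiableWithinAt
  have hq0 : Set.EqOn (deriv fun x => s1 t x / s0 t x) 0 (Metric.ball z₀ r) := by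
    intro x hx
    have h3 := ((hd1 x).hasDerivAt.div (hd0 x).hasDerivAt (hball x hx)).deriv
    have h4 : (fun x => s1 t x / s0 t x) = s1 t / s0 t := rfl
    rw [h4, h3, Pi.zero_apply]
    have h5 := hcon x
    unfold wr at h5
    rw [div_eq_zero_iff]
    left
    linear_combination h5
  have hs1 : ∀ x ∈ Metric.ball z₀ r, s1 t x = 0 := by
    intro x hx
    have h3 := Metric.isOpen_ball.is_const_of_deriv_eq_zero
      (convex_ball z₀ r).isPreconnected hdq hq0 hx (Metric.mem_ball_self hr)
    rw [h1, zero_div, div_eq_zero_iff] at h3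
    exact h3.resolve_right (hball x hx)
  have hall : s1 t = fun _ => 0 := by
    refine AnalyticOnNhd.eq_of_eventuallyEq (z₀ := z₀)
      (fun x _ => hd1.analyticAt x) (fun x _ => analyticAt_const) ?_
    filter_upwards [Metric.ball_mem_nhds z₀ hr] with x hx using hs1 x hx
  obtain ⟨z, h3, h4⟩ := exists_ratio ht (ρ := 1) (Or.inr (Or.inl rfl))
  rw [hall, one_mul] at h3
  exact h4 h3.symm

private theorem ThD_det {a b c d p q : ℂ} (h1 : a * p + b * q = 0) (h2 : c * p + d * q = 0)
    (h : ¬ (p = 0 ∧ q = 0)) : a * d - b * c = 0 := by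
  by_cases hp : p = 0
  · have hq : q ≠ 0 := fun hq => h ⟨hp, hq⟩
    have : (a * d - b * c) * q = 0 := by linear_combination a * h2 - c * h1
    exact (mul_eq_zero.1 this).resolve_right hq
  · have : (a * d - b * c) * p = 0 := by linear_combination d * h1 - b * h2
    exact (mul_eq_zero.1 this).resolve_right hp

private theorem ThD_diff {T : ℂ} (hT : 0 < T.im) :
    Differentiable ℂ (fun x => jacobiTheta₂ x T) := fun x =>
  differentiableAt_jacobiTheta₂_fst x hT

theorem simple_zero {T : ℂ} (hT : 0 < T.im) {z : ℂ} (hz : jacobiTheta₂ z T = 0) :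
    deriv (fun x => jacobiTheta₂ x T) z ≠ 0 := by
  intro hz'
  set t : ℂ := T / 2 with ht'
  have hTt : T = 2 * t := by rw [ht']; ring
  have ht : 0 < t.im := by
    have : T.im = 2 * t.im := by rw [hTt]; simp
    linarith
  obtain ⟨x, hx⟩ := wr_ne ht
  apply hx
  have hd0 := differentiable_s0 ht
  have hd1 := differentiable_s1 ht
  set y : ℂ := x - z with hy
  have hxy : x - y = z := by rw [hy]; ring
  have hadd : (fun w : ℂ => jacobiTheta₂ (w + y) T * jacobiTheta₂ (w - y) T) =
      fun w : ℂ => s0 t w * s0 t y + s1 t w * s1 t y := by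
    funext w
    have := addition ht w y
    rw [← hTt] at this
    exact this
  have hv : s0 t x * s0 t y + s1 t x * s1 t y = 0 := by
    have := congrFun hadd x
    rw [hxy, hz, mul_zero] at this
    exact this.symm
  have hdj := ThD_diff hT
  have e1 : HasDerivAt (fun w : ℂ => jacobiTheta₂ (w + y) T)
      (deriv (fun x => jacobiTheta₂ x T) (x + y)) x := by
    have h := (hdj (x + y)).hasDerivAt
    exact h.comp_add_const x y
  have e2 : HasDerivAt (fun w : ℂ => jacobiTheta₂ (w - y) T) 0 x := by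
    have h := (hdj (x - y)).hasDerivAt
    rw [hxy] at h
    rw [hz'] at h
    have h' : HasDerivAt (fun x => jacobiTheta₂ x T) 0 (x - y) := by
      rw [hxy]
      exact h
    exact h'.comp_sub_const x y
  have e3 := (e1.mul e2).deriv
  have e4 : deriv (fun w : ℂ => s0 t w * s0 t y + s1 t w * s1 t y) x =
      deriv (s0 t) x * s0 t y + deriv (s1 t) x * s1 t y :=
    (((hd0 x).hasDerivAt.mul_const _).add ((hd1 x).hasDerivAt.mul_const _)).deriv
  have e5 : deriv (s0 t) x * s0 t y + deriv (s1 t) x * s1 t y = 0 := by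
    rw [← e4, ← hadd]
    have h6 : (fun w : ℂ => jacobiTheta₂ (w + y) T * jacobiTheta₂ (w - y) T) =
      (fun w : ℂ => jacobiTheta₂ (w + y) T) * (fun w : ℂ => jacobiTheta₂ (w - y) T) := rfl
    rw [h6, e3, hxy, hz, mul_zero, mul_zero, add_zero]
  unfold wr
  exact ThD_det hv e5 (no_common ht y)

private theorem ThD_lin {t : ℂ} (ht : 0 < t.im) {z a b : ℂ} (hw : wr t z = 0)
    (hl : a * s0 t z + b * s1 t z = 0) : a * deriv (s0 t) z + b * deriv (s1 t) z = 0 := by
  unfold wr at hw
  by_cases h0 : s0 t z = 0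
  · have h1 : s1 t z ≠ 0 := fun h1 => no_common ht z ⟨h0, h1⟩
    have : (a * deriv (s0 t) z + b * deriv (s1 t) z) * s1 t z = 0 := by
      linear_combination deriv (s1 t) z * hl - a * hw
    exact (mul_eq_zero.1 this).resolve_right h1
  · have : (a * deriv (s0 t) z + b * deriv (s1 t) z) * s0 t z = 0 := by
      linear_combination deriv (s0 t) z * hl + b * hw
    exact (mul_eq_zero.1 this).resolve_right h0

private theorem ThD_der {t : ℂ} (ht : 0 < t.im) (z a b : ℂ) :
    HasDerivAt (fun x => a * s0 t x + b * s1 t x)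
      (a * deriv (s0 t) z + b * deriv (s1 t) z) z :=
  ((differentiable_s0 ht z).hasDerivAt.const_mul a).add
    ((differentiable_s1 ht z).hasDerivAt.const_mul b)

theorem nonOct_of_wr {t : ℂ} (ht : 0 < t.im) {z : ℂ} (hw : wr t z = 0) :
    NonOct (s0 t z, s1 t z) := by
  have h4 : 0 < (4 * t).im := by
    have : (4 * t).im = 4 * t.im := by simp
    rw [this]
    positivity
  have c0 : s0 t z ≠ 0 := by
    intro h0
    have h1 := ThD_lin ht (a := 1) (b := 0) hw (by rw [h0]; ring)
    have h2 : jacobiTheta₂ (2 * z) (4 * t) = 0 := h0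
    have h3 := simple_zero h4 h2
    have h5 : HasDerivAt (s0 t) (deriv (fun x => jacobiTheta₂ x (4 * t)) (2 * z) * 2) z := by
      have h6 : HasDerivAt (fun x : ℂ => 2 * x) 2 z := by
        simpa using (hasDerivAt_id z).const_mul (2 : ℂ)
      exact (ThD_diff h4 (2 * z)).hasDerivAt.comp z h6
    rw [h5.deriv] at h1
    apply h3
    linear_combination (1 / 2) * h1
  have c1 : s1 t z ≠ 0 := by
    intro h0
    have h1 := ThD_lin ht (a := 0) (b := 1) hw (by rw [h0]; ring)
    have h2 : jacobiTheta₂ (2 * z + 2 * t) (4 * t) = 0 :=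
      (mul_eq_zero.1 h0).resolve_left (Complex.exp_ne_zero _)
    have h3 := simple_zero h4 h2
    have h6 : HasDerivAt (fun x : ℂ => 2 * x + 2 * t) 2 z := by
      simpa using ((hasDerivAt_id z).const_mul (2 : ℂ)).add_const (2 * t)
    have h5 : HasDerivAt (fun x => jacobiTheta₂ (2 * x + 2 * t) (4 * t))
        (deriv (fun x => jacobiTheta₂ x (4 * t)) (2 * z + 2 * t) * 2) z := by
      have h8 : HasDerivAt (fun x => jacobiTheta₂ x (4 * t))
          (deriv (fun x => jacobiTheta₂ x (4 * t)) (2 * z + 2 * t)) (2 * z + 2 * t) :=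
        (ThD_diff h4 (2 * z + 2 * t)).hasDerivAt
      exact HasDerivAt.comp (h₂ := fun x => jacobiTheta₂ x (4 * t)) z h8 h6
    have h7 : HasDerivAt (fun x : ℂ => cexp (Real.pi * I * t + 2 * Real.pi * I * x))
        (cexp (Real.pi * I * t + 2 * Real.pi * I * z) * (2 * Real.pi * I)) z := by
      have h8 : HasDerivAt (fun x : ℂ => (Real.pi : ℂ) * I * t + 2 * Real.pi * I * x)
          (2 * Real.pi * I) z := by
        simpa using ((hasDerivAt_id z).const_mul (2 * Real.pi * I : ℂ)).const_add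
          ((Real.pi : ℂ) * I * t)
      exact h8.cexp
    have h9 := (h7.mul h5).deriv
    have h10 : s1 t = (fun x : ℂ => cexp (Real.pi * I * t + 2 * Real.pi * I * x)) *
      (fun x => jacobiTheta₂ (2 * x + 2 * t) (4 * t)) := rfl
    rw [h10, h9, h2] at h1
    apply h3
    have h11 := Complex.exp_ne_zero (Real.pi * I * t + 2 * Real.pi * I * z)
    have h12 : cexp (Real.pi * I * t + 2 * Real.pi * I * z) *
        deriv (fun x => jacobiTheta₂ x (4 * t)) (2 * z + 2 * t) = 0 := by
      linear_combination (1 / 2) * h1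
    exact (mul_eq_zero.1 h12).resolve_left h11
  have gen : ∀ (b w T : ℂ), 0 < T.im → (∀ x, s0 t x + b * s1 t x = jacobiTheta₂ (x + w) T) →
      s0 t z + b * s1 t z ≠ 0 := by
    intro b w T hT hid h0
    have h1 := ThD_lin ht (a := 1) (b := b) hw (by rw [one_mul]; exact h0)
    have h2 : jacobiTheta₂ (z + w) T = 0 := by rw [← hid, h0]
    have h3 := simple_zero hT h2
    have h5 : HasDerivAt (fun x => jacobiTheta₂ (x + w) T)
        (deriv (fun x => jacobiTheta₂ x T) (z + w)) z :=
      ((ThD_diff hT (z + w)).hasDerivAt).comp_add_const z w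
    have h6 : (fun x => 1 * s0 t x + b * s1 t x) = fun x => jacobiTheta₂ (x + w) T := by
      funext x
      rw [one_mul, hid]
    have h7 := (ThD_der ht z 1 b).deriv
    rw [h6, h5.deriv] at h7
    exact h3 (h7.trans h1)
  refine ⟨c0, c1, ?_, ?_⟩
  · intro h
    change s0 t z ^ 2 = s1 t z ^ 2 at h
    have g1 := gen 1 0 t ht (fun x => by rw [one_mul, add_zero, s0_add_s1 ht])
    have g2 := gen (-1) (1 / 2) t ht (fun x => by
      rw [← s0_sub_s1 ht]
      ring)
    have : (s0 t z + 1 * s1 t z) * (s0 t z + -1 * s1 t z) = 0 := by linear_combination h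
    exact (mul_ne_zero g1 g2) this
  · intro h
    change s0 t z ^ 2 = -s1 t z ^ 2 at h
    have i1 : 0 < (t + 1 / 2).im := by
      have : (t + 1 / 2).im = t.im := by simp
      rw [this]
      exact ht
    have i2 : 0 < (t - 1 / 2).im := by
      have : (t - 1 / 2).im = t.im := by simp
      rw [this]
      exact ht
    have g1 := gen I 0 (t + 1 / 2) i1 (fun x => by rw [add_zero, s0_add_I_s1 ht])
    have g2 := gen (-I) 0 (t - 1 / 2) i2 (fun x => by
      rw [add_zero, ← s0_sub_I_s1 ht]
      ring)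
    have hI := I_mul_I
    have : (s0 t z + I * s1 t z) * (s0 t z + -I * s1 t z) = 0 := by
      linear_combination h - s1 t z ^ 2 * hI
    exact (mul_ne_zero g1 g2) this

end AM
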